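import Mathlib
import Pool.Agent.Lib.MP_f81d8e_an.Ultra

set_option autoImplicit false
set_option linter.unusedSectionVars false

namespace Pool.Agent.Lib.MP_f81d8e_an.W

open Matrix Finset MeasureTheory
open scoped Matrix.Norms.L2Operator ComplexOrder

attribute [local irreducible] fr tr en fc

section RC

variable {S : Type*} [Fintype S] {m n l : Type*} [Fintype m] [Fintype n] [Fintype l]
  [DecidableEq m] [DecidableEq n] [DecidableEq l]

/-- Row and column bound of a family of matrices. -/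
structure RC (L : ℝ) (u : S → Matrix n n ℂ) : Prop where
  nonneg : 0 ≤ L
  col : ∀ x : Matrix n Unit ℂ, ∑ s, fr (u s * x) ^ 2 ≤ L ^ 2 * fr x ^ 2
  row : ∀ x : Matrix n Unit ℂ, ∑ s, fr ((u s)ᴴ * x) ^ 2 ≤ L ^ 2 * fr x ^ 2

omit [DecidableEq l] in
lemma fr_sq_cols (x : Matrix n l ℂ) :
    fr x ^ 2 = ∑ j, fr (Matrix.of fun i (_ : Unit) => x i j) ^ 2 := by
  simp only [fr_sq, of_apply, univ_unique, sum_const, card_singleton, one_smul]
  rw [sum_comm]

omit [DecidableEq l] in
lemma sum_le_of_cols {u : S → Matrix n n ℂ} {c : ℝ}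
    (h : ∀ x : Matrix n Unit ℂ, ∑ s, fr (u s * x) ^ 2 ≤ c * fr x ^ 2) (x : Matrix n l ℂ) :
    ∑ s, fr (u s * x) ^ 2 ≤ c * fr x ^ 2 := by
  simp only [fr_sq_cols (l := l)]
  rw [sum_comm, mul_sum]
  refine sum_le_sum (fun j _ => le_trans (le_of_eq ?_) (h _))
  refine sum_congr rfl (fun s _ => ?_)
  congr 2

variable {L : ℝ} {u : S → Matrix n n ℂ}

omit [DecidableEq l] in
lemma RC.left_sq (h : RC L u) (x : Matrix n l ℂ) : ∑ s, fr (u s * x) ^ 2 ≤ L ^ 2 * fr x ^ 2 :=
  sum_le_of_cols h.col x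

omit [DecidableEq l] in
lemma RC.right_sq (h : RC L u) (x : Matrix l n ℂ) : ∑ s, fr (x * u s) ^ 2 ≤ L ^ 2 * fr x ^ 2 := by
  have := sum_le_of_cols h.row xᴴ
  rw [fr_conjTranspose] at this
  refine le_trans (le_of_eq (sum_congr rfl (fun s _ => ?_))) this
  rw [← conjTranspose_mul, fr_conjTranspose]

omit [DecidableEq l] in
lemma RC.left (h : RC L u) (x : Matrix n l ℂ) : l2 (fun s => fr (u s * x)) ≤ L * fr x :=
  l2_le_of_sq_le (mul_nonneg h.nonneg (fr_nonneg _)) (by rw [mul_pow]; exact h.left_sq x)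

omit [DecidableEq l] in
lemma RC.right (h : RC L u) (x : Matrix l n ℂ) : l2 (fun s => fr (x * u s)) ≤ L * fr x :=
  l2_le_of_sq_le (mul_nonneg h.nonneg (fr_nonneg _)) (by rw [mul_pow]; exact h.right_sq x)

lemma RC.conj (h : RC L u) {V : Matrix m n ℂ} (hV : ‖V‖ ≤ 1) :
    RC L (fun s => V * u s * Vᴴ) := by
  have hV' := opNorm_conjTranspose_le_one hV
  refine ⟨h.nonneg, fun x => ?_, fun x => ?_⟩
  · refine le_trans (sum_le_sum (fun s _ => ?_)) ((h.left_sq (Vᴴ * x)).trans
      (mul_le_mul_of_nonneg_left (pow_le_pow_left₀ (fr_nonneg _) (fr_mul_le_left' hV' x) 2)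
        (sq_nonneg _)))
    apply pow_le_pow_left₀ (fr_nonneg _)
    rw [Matrix.mul_assoc, Matrix.mul_assoc]
    exact fr_mul_le_left' hV _
  · refine le_trans (sum_le_sum (fun s _ => ?_)) ((sum_le_of_cols h.row (Vᴴ * x)).trans
      (mul_le_mul_of_nonneg_left (pow_le_pow_left₀ (fr_nonneg _) (fr_mul_le_left' hV' x) 2)
        (sq_nonneg _)))
    apply pow_le_pow_left₀ (fr_nonneg _)
    simp only [conjTranspose_mul, conjTranspose_conjTranspose, Matrix.mul_assoc]
    exact fr_mul_le_left' hV _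

lemma RC.cmp (h : RC L u) {V : Matrix n m ℂ} (hV : Vᴴ * V = 1) : RC L (cmp u V) := by
  have := h.conj (opNorm_conjTranspose_le_one (isometry_norm_le hV))
  rw [conjTranspose_conjTranspose] at this
  exact this

lemma en_le_fr' {a : S → Matrix m m ℂ} {b : S → Matrix l l ℂ} (ha : RC L a) (hb : RC L b)
    (x : Matrix m l ℂ) : en a b x ≤ 2 * L * fr x := by
  have : en a b x ≤ l2 (fun s => fr (a s * x)) + l2 (fun s => fr (x * b s)) := by
    unfold en
    exact l2_le_add (fun _ => fr_nonneg _) (fun s => fr_sub_le _ _)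
  linarith [ha.left x, hb.right x]

lemma en_le_add_fr' {a : S → Matrix m m ℂ} {b : S → Matrix l l ℂ} (ha : RC L a) (hb : RC L b)
    (x y : Matrix m l ℂ) : en a b x ≤ en a b y + 2 * L * fr (x - y) := by
  have : x = y + (x - y) := by abel
  conv_lhs => rw [this]
  exact (en_add_le _ _ _ _).trans (add_le_add_right (en_le_fr' ha hb _) _)

variable {a : Matrix n n ℂ} (ha : a.IsHermitian)

/-- The Cauchy-Schwarz step shared by the co-area formula and the Cheeger inequality. -/
lemma sum_abs_mul_le (φ : ℝ → ℝ) (hu : RC L u) :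
    ∑ s, ∑ i, ∑ j, ‖((eu ha)ᴴ * u s * eu ha) i j‖ ^ 2 *
      (|φ (ha.eigenvalues i) - φ (ha.eigenvalues j)| *
        (|φ (ha.eigenvalues i)| + |φ (ha.eigenvalues j)|)) ≤
      2 * L * en u u (fc ha φ) * fr (fc ha φ) := by
  have key : ∀ s, ∑ i, ∑ j, ‖((eu ha)ᴴ * u s * eu ha) i j‖ ^ 2 *
      (|φ (ha.eigenvalues i) - φ (ha.eigenvalues j)| *
        (|φ (ha.eigenvalues i)| + |φ (ha.eigenvalues j)|)) ≤
      fr (u s * fc ha φ - fc ha φ * u s) *
        fr (fc ha (fun x => |φ x|) * u s - u s * fc ha (fun x => -|φ x|)) := by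
    intro s
    set c := fun i j => ‖((eu ha)ᴴ * u s * eu ha) i j‖ with hc
    have h1 := Real.sum_mul_le_sqrt_mul_sqrt (univ : Finset (n × n))
      (fun p => c p.1 p.2 * |φ (ha.eigenvalues p.1) - φ (ha.eigenvalues p.2)|)
      (fun p => c p.1 p.2 * (|φ (ha.eigenvalues p.1)| + |φ (ha.eigenvalues p.2)|))
    simp only [Fintype.sum_prod_type, mul_pow, sq_abs] at h1
    have h2 := fr_fc_sub_sq ha ha φ φ (u s)
    have h3 := fr_fc_sub_sq ha ha (fun x => |φ x|) (fun x => -|φ x|) (u s)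
    simp only [sub_neg_eq_add] at h3
    rw [← h2, ← h3, Real.sqrt_sq (fr_nonneg _), Real.sqrt_sq (fr_nonneg _)] at h1
    rw [fr_sub_comm (u s * _)]
    refine le_trans (le_of_eq ?_) h1
    apply sum_congr rfl
    intro i _
    apply sum_congr rfl
    intro j _
    ring
  refine (sum_le_sum (fun s _ => key s)).trans ?_
  have h4 : fr (fc ha (fun x => |φ x|)) = fr (fc ha φ) := by
    apply (pow_left_inj₀ (fr_nonneg _) (fr_nonneg _) two_ne_zero).mp
    rw [fr_fc_sq, fr_fc_sq]
    simp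
  have h5 : l2 (fun s => fr (fc ha (fun x => |φ x|) * u s - u s * fc ha (fun x => -|φ x|))) ≤
      2 * L * fr (fc ha φ) := by
    refine (l2_le_add (fun _ => fr_nonneg _) (fun s => fr_sub_le _ _)).trans ?_
    have e1 := hu.right (fc ha (fun x => |φ x|))
    have e2 := hu.left (fc ha (fun x => -|φ x|))
    rw [← fc_neg, fr_neg] at e2
    rw [← fc_neg]
    rw [h4] at e1 e2
    linarith
  refine (Real.sum_mul_le_sqrt_mul_sqrt _ _ _).trans ?_
  have h6 := mul_le_mul_of_nonneg_left h5 (en_nonneg u u (fc ha φ))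
  unfold en l2 at h6
  unfold en l2
  linarith

/-- Co-area formula: some spectral projection has small energy. -/
lemma exists_level (φ : ℝ → ℝ) (hu : RC L u) {α β : ℝ}
    (hα : 0 < α) (hαβ : α < β) :
    ∃ t, α < t ∧ t ≤ β ∧ en u u (fc ha (fun x => ind t (φ x))) ^ 2 ≤
      2 * L / (α * (β - α)) * (en u u (fc ha φ) * fr (fc ha φ)) := by
  obtain ⟨t, ht, h⟩ := exists_le_setAverage (μ := volume) (s := Set.Ioc α β) (by simpa using hαβ)
    (by simp) (integrableOn_en_ind_sq ha φ u α β)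
  refine ⟨t, ht.1, ht.2, h.trans ?_⟩
  rw [setAverage_eq, Real.volume_real_Ioc, max_eq_left (by linarith), smul_eq_mul,
    integral_en_ind_sq]
  have h1 : ∑ s, ∑ i, ∑ j, ‖((eu ha)ᴴ * u s * eu ha) i j‖ ^ 2 *
        ∫ t in Set.Ioc α β, (ind t (φ (ha.eigenvalues i)) - ind t (φ (ha.eigenvalues j))) ^ 2 ≤
      (∑ s, ∑ i, ∑ j, ‖((eu ha)ᴴ * u s * eu ha) i j‖ ^ 2 *
      (|φ (ha.eigenvalues i) - φ (ha.eigenvalues j)| *
        (|φ (ha.eigenvalues i)| + |φ (ha.eigenvalues j)|))) / α := by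
    simp only [sum_div]
    refine sum_le_sum (fun s _ => sum_le_sum (fun i _ => sum_le_sum (fun j _ => ?_)))
    rw [mul_div_assoc]
    exact mul_le_mul_of_nonneg_left (integral_ind_sub_sq_le' _ _ hα _) (sq_nonneg _)
  have h2 := sum_abs_mul_le ha φ hu
  have hβ : 0 < β - α := by linarith
  calc _ ≤ (β - α)⁻¹ * ((2 * L * en u u (fc ha φ) * fr (fc ha φ)) / α) := by
        apply mul_le_mul_of_nonneg_left _ (by positivity)
        exact h1.trans (div_le_div_of_nonneg_right h2 hα.le)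
    _ = _ := by field_simp

/-- Rounding: a Hermitian matrix has a spectral projection, at a level between `1/4` and `3/4`,
of controlled energy. -/
lemma exists_round (hu : RC L u) :
    ∃ t, 1 / 4 < t ∧ t ≤ 3 / 4 ∧ en u u (fc ha (fun x => ind t x)) ^ 2 ≤
      16 * L * (en u u a * fr a) := by
  obtain ⟨t, h1, h2, h3⟩ := exists_level ha (fun x => x) hu (α := 1 / 4) (β := 3 / 4)
    (by norm_num) (by norm_num)
  refine ⟨t, h1, h2, h3.trans (le_of_eq ?_)⟩
  rw [fc_id]
  ring

omit ha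

lemma cheeger_half (hu : RC L u) {h : ℝ} (hh : 0 < h)
    (hC : ∀ T : Matrix n n ℂ, IsProj T → 2 * tr T ≤ Fintype.card n → h * tr T ≤ en u u T ^ 2)
    {a : Matrix n n ℂ} (ha : a.IsHermitian) (φ : ℝ → ℝ) (hφ0 : ∀ x, 0 ≤ φ x)
    (hφ : 2 * ∑ i, ind 0 (φ (ha.eigenvalues i)) ≤ Fintype.card n) :
    fr (fc ha φ) ≤ 2 * L / h * en u u (fc ha φ) := by
  set M := ∑ i, φ (ha.eigenvalues i) ^ 2 with hM
  have hMi : ∀ i, φ (ha.eigenvalues i) ^ 2 ≤ M := fun i =>
    single_le_sum (f := fun i => φ (ha.eigenvalues i) ^ 2) (fun _ _ => sq_nonneg _) (mem_univ i)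
  have h1 : ∫ t in Set.Ioc 0 M, h * ∑ i, ind t (φ (ha.eigenvalues i) ^ 2) ≤
      ∫ t in Set.Ioc 0 M, en u u (fc ha (fun x => ind t (φ x ^ 2))) ^ 2 := by
    apply setIntegral_mono_on
    · exact (integrable_finsetSum _ (fun i _ => integrableOn_ind _ _ _)).const_mul _
    · exact integrableOn_en_ind_sq ha (fun x => φ x ^ 2) u _ _
    · exact measurableSet_Ioc
    · intro t ht
      rw [← tr_fc ha (fun x => ind t (φ x ^ 2))]
      apply hC _ (isProj_fc_ind ha (fun x => φ x ^ 2) t)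
      rw [tr_fc]
      refine le_trans (mul_le_mul_of_nonneg_left (sum_le_sum ?_) (by norm_num)) hφ
      intro i _
      unfold ind
      split_ifs with b c
      · rfl
      · exfalso
        have : φ (ha.eigenvalues i) = 0 := le_antisymm (not_lt.mp c) (hφ0 _)
        rw [this] at b
        linarith [ht.1]
      all_goals simp
  rw [integral_const_mul, integral_finsetSum _ (fun i _ => integrableOn_ind _ _ _),
    integral_en_ind_sq ha (fun x => φ x ^ 2)] at h1
  simp only [integral_ind (sq_nonneg _) (hMi _)] at h1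
  rw [← fr_fc_sq] at h1
  have h2 := sum_abs_mul_le ha φ hu
  have h3 : h * fr (fc ha φ) ^ 2 ≤
      2 * L * en u u (fc ha φ) * fr (fc ha φ) := by
    refine h1.trans (le_trans ?_ h2)
    refine sum_le_sum (fun s _ => sum_le_sum (fun i _ => sum_le_sum (fun j _ => ?_)))
    apply mul_le_mul_of_nonneg_left _ (sq_nonneg _)
    refine (integral_ind_sub_sq_le _ _ _ _).trans ?_
    rw [sq_sub_sq, abs_mul, mul_comm]
    exact mul_le_mul_of_nonneg_left (abs_add_le _ _) (abs_nonneg _)
  rcases eq_or_lt_of_le (fr_nonneg (fc ha φ)) with h0 | h0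
  · rw [← h0]
    have := en_nonneg u u (fc ha φ)
    have := hu.nonneg
    positivity
  · rw [div_mul_eq_mul_div, le_div_iff₀ hh]
    apply le_of_mul_le_mul_right _ h0
    calc _ = h * fr (fc ha φ) ^ 2 := by ring
      _ ≤ _ := h3

lemma cheeger_herm (hu : RC L u) {h : ℝ} (hh : 0 < h)
    (hC : ∀ T : Matrix n n ℂ, IsProj T → 2 * tr T ≤ Fintype.card n → h * tr T ≤ en u u T ^ 2)
    {a : Matrix n n ℂ} (ha : a.IsHermitian) :
    ∃ α : ℝ, fr (a - (α : ℂ) • 1) ≤ 4 * L / h * en u u a := by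
  obtain ⟨α, h1, h2⟩ := exists_median ha.eigenvalues
  refine ⟨α, ?_⟩
  have e : a - (α : ℂ) • 1 = fc ha (fun x => max (x - α) 0) - fc ha (fun x => max (α - x) 0) := by
    have e0 : a - (α : ℂ) • 1 = fc ha (fun x => x - α) := by rw [← fc_sub, fc_id, fc_const]
    rw [fc_sub, e0]
    apply fc_congr
    intro i
    rcases le_total (ha.eigenvalues i) α with b | b
    · rw [max_eq_right (by linarith), max_eq_left (by linarith)]
      ring
    · rw [max_eq_left (by linarith), max_eq_right (by linarith)]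
      ring
  have a1 := cheeger_half hu hh hC ha (fun x => max (x - α) 0) (fun _ => le_max_right _ _) (by
    refine le_trans (le_of_eq ?_) h1
    simp [ind])
  have a2 := cheeger_half hu hh hC ha (fun x => max (α - x) 0) (fun _ => le_max_right _ _) (by
    refine le_trans (le_of_eq ?_) h2
    simp [ind])
  have b1 := en_fc_dom ha (f := fun x => max (x - α) 0) (f' := fun x => x) (L := 1) zero_le_one
    (fun i j => by
      refine (abs_max_sub_max_le_abs _ _ _).trans (le_of_eq ?_)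
      rw [one_mul]
      congr 1
      ring) u
  have b2 := en_fc_dom ha (f := fun x => max (α - x) 0) (f' := fun x => x) (L := 1) zero_le_one
    (fun i j => by
      refine (abs_max_sub_max_le_abs _ _ _).trans (le_of_eq ?_)
      rw [one_mul, abs_sub_comm]
      congr 1
      ring) u
  rw [fc_id, one_mul] at b1 b2
  rw [e]
  refine (fr_sub_le _ _).trans ?_
  have hc : 0 ≤ 2 * L / h := by have := hu.nonneg; positivity
  have c1 := mul_le_mul_of_nonneg_left b1 hc
  have c2 := mul_le_mul_of_nonneg_left b2 hc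
  calc _ ≤ 2 * L / h * en u u a +
        2 * L / h * en u u a := add_le_add (a1.trans c1) (a2.trans c2)
    _ = _ := by ring

/-- The Cheeger inequality. -/
lemma gap_of_cheeger {σ : Equiv.Perm S} (hσ : AdjClosed σ u)
    (hu : RC L u) {h : ℝ} (hh : 0 < h)
    (hC : ∀ T : Matrix n n ℂ, IsProj T → 2 * tr T ≤ Fintype.card n → h * tr T ≤ en u u T ^ 2) :
    Gap (8 * L / h) u := by
  intro x
  obtain ⟨α, h1⟩ := cheeger_herm hu hh hC (hre_herm x)
  obtain ⟨β, h2⟩ := cheeger_herm hu hh hC (him_herm x)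
  refine ⟨α + Complex.I * β, ?_⟩
  have e : x - ((α : ℂ) + Complex.I * β) • (1 : Matrix n n ℂ) =
      (hre x - (α : ℂ) • 1) + Complex.I • (him x - (β : ℂ) • 1) := by
    conv_lhs => rw [← hre_add_him x]
    rw [add_smul, smul_sub, smul_smul]
    abel
  rw [e]
  refine (fr_add_le _ _).trans ?_
  rw [fr_smul, Complex.norm_I, one_mul]
  have hc : 0 ≤ 4 * L / h := by have := hu.nonneg; positivity
  have c1 := mul_le_mul_of_nonneg_left (en_hre_le hσ x) hc
  have c2 := mul_le_mul_of_nonneg_left (en_him_le hσ x) hc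
  calc _ ≤ 4 * L / h * en u u x +
        4 * L / h * en u u x := add_le_add (h1.trans c1) (h2.trans c2)
    _ = _ := by ring

end RC

end Pool.Agent.Lib.MP_f81d8e_an.W
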