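import Mathlib
import Pool.Agent.Lib.MP_f81d8e_an.W.RC

set_option autoImplicit false
set_option linter.unusedSectionVars false

namespace Pool.Agent.Lib.MP_f81d8e_an.W

open Matrix Finset
open scoped Matrix.Norms.L2Operator ComplexOrder

attribute [local irreducible] fr tr en fc

section Greedy

variable {n : Type*} [Fintype n] [DecidableEq n] {S : Type*} [Fintype S]

/-- Standing assumptions, with a row and column bound on the family. -/
structure Ctx (L ε : ℝ) (σ : Equiv.Perm S) (u : S → Matrix n n ℂ) (W : Matrix n n ℂ) : Prop where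
  adj : AdjClosed σ u
  rc : RC L u
  projW : IsProj W
  one_le : 1 ≤ L
  eps : 0 ≤ ε
  imp : Imp L ε u W

variable {L ε : ℝ} {σ : Equiv.Perm S} {u : S → Matrix n n ℂ} {W : Matrix n n ℂ}

lemma Ctx.improve (C : Ctx L ε σ u W) {y : Matrix n n ℂ} {ν γ r : ℝ} (hy : ‖y‖ ≤ 1)
    (h1 : fr (W * y) ≤ ν * r) (h2 : fr (y * W) ≤ ν * r) (h3 : en u u y ≤ γ * r) (h4 : fr y ≤ r) :
    ∃ z : Matrix n n ℂ, (yᴴ = y → zᴴ = z) ∧ ‖z‖ ≤ 1 ∧
      fr (z - y) ≤ (L * γ + 4 * L ^ 2 * ν + 2 * ν + ε) * r ∧ en u u z ≤ ε * r := by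
  have hW := C.projW
  have hW' := hW.one_sub
  obtain ⟨z, z1, z2, z3, z4⟩ := C.imp ((1 - W) * y * (1 - W))
    (by rw [← Matrix.mul_assoc, ← Matrix.mul_assoc, hW.mul_one_sub]; simp)
    (by rw [Matrix.mul_assoc, hW.one_sub_mul]; simp)
  have e1 : fr ((1 - W) * y * (1 - W) - y) ≤ 2 * (ν * r) := by
    have : (1 - W) * y * (1 - W) - y = -(W * y) - (1 - W) * (y * W) := by
      simp only [Matrix.mul_sub, Matrix.sub_mul, Matrix.mul_one, Matrix.one_mul, Matrix.mul_assoc]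
      abel
    rw [this]
    have t1 := fr_sub_le (-(W * y)) ((1 - W) * (y * W))
    have t2 := fr_mul_le_left' hW'.norm_le (y * W)
    rw [fr_neg] at t1
    linarith
  have e2 : fr ((1 - W) * y * (1 - W)) ≤ r :=
    (fr_mul_le_right' _ hW'.norm_le).trans ((fr_mul_le_left' hW'.norm_le _).trans h4)
  have e3 := en_le_add_fr' C.rc C.rc ((1 - W) * y * (1 - W)) y
  have hL : 0 ≤ L := le_trans zero_le_one C.one_le
  have e4 := mul_le_mul_of_nonneg_left e2 C.eps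
  refine ⟨z, fun hh => z1 (by simp [hh, hW.herm, Matrix.mul_assoc]),
    z2.trans (opNorm_mul_le_one (opNorm_mul_le_one hW'.norm_le hy) hW'.norm_le), ?_, z4.trans e4⟩
  have e5 := fr_triangle z ((1 - W) * y * (1 - W)) y
  have e6 : en u u ((1 - W) * y * (1 - W)) ≤ γ * r + 2 * L * (2 * (ν * r)) := by
    have := mul_le_mul_of_nonneg_left e1 (show 0 ≤ 2 * L by positivity)
    linarith
  have e7 := mul_le_mul_of_nonneg_left e6 hL
  linarith

lemma exists_round' (hu : RC L u)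
    {z : Matrix n n ℂ} (hz : zᴴ = z) {T : Matrix n n ℂ} (hT : IsProj T) :
    ∃ P : Matrix n n ℂ, IsProj P ∧ fr (P - T) ≤ 4 * fr (z - T) ∧
      en u u P ^ 2 ≤ 16 * L * (en u u z * fr z) ∧ ∀ X : Matrix n n ℂ, X * z = 0 → X * P = 0 := by
  obtain ⟨t, h1, h2, h3⟩ := exists_round (a := z) hz hu
  exact ⟨_, isProj_fc_ind hz (fun x => x) t, fr_round_le hz h1.le h2 hT, h3,
    fun X hX => mul_fc_ind_eq_zero hz hX (by linarith)⟩

lemma Ctx.medium (C : Ctx L ε σ u W) {X P T : Matrix n n ℂ} {κ μ r : ℝ} (hκ : 0 < κ) (hr : 0 < r)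
    (hμ : 0 ≤ μ) (k1 : 112 * L ^ 2 * κ ≤ 1) (k2 : 200 * L * μ ≤ κ ^ 3) (k3 : 100 * L * ε ≤ κ ^ 2)
    (hXW : ∀ T, IsProj T → X * T = 0 → fr (W * T) ≤ κ * fr T)
    (hmin : ∀ T, IsProj T → T ≠ 0 → X * T = 0 → en u u T ≤ κ * fr T → r ≤ fr T)
    (hP : IsProj P) (hXP : X * P = 0) (hPe : en u u P ≤ μ * r)
    (hT : IsProj T) (hPT : P * T = T) (h1 : κ * r ≤ fr T) (h2 : fr T ^ 2 ≤ 3 / 5 * r ^ 2) :
    1 / (16 * L) * fr T < en u u T := by
  by_contra hneg
  have hL := C.one_le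
  have hε := C.eps
  have hXT : X * T = 0 := by rw [← hPT, ← Matrix.mul_assoc, hXP, Matrix.zero_mul]
  have hWT := hXW T hT hXT
  have hTW : fr (T * W) ≤ κ * fr T := by
    rw [← fr_conjTranspose, conjTranspose_mul, hT.herm, C.projW.herm]
    exact hWT
  obtain ⟨z, z1, z2, z3, z4⟩ := C.improve hT.norm_le hWT hTW (not_lt.mp hneg) le_rfl
  replace z1 := z1 hT.herm
  have hT0 : 0 < fr T := lt_of_lt_of_le (by positivity) h1
  have hκ1 : κ ≤ 1 := by nlinarith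
  have hεκ : ε ≤ κ := by nlinarith
  have c1 : L * (1 / (16 * L)) + 4 * L ^ 2 * κ + 2 * κ + ε ≤ 1 / 8 := by
    have : L * (1 / (16 * L)) = 1 / 16 := by field_simp
    have h3 : κ ≤ L ^ 2 * κ := le_mul_of_one_le_left hκ.le (by nlinarith)
    linarith
  replace z3 := z3.trans (mul_le_mul_of_nonneg_right c1 hT0.le)
  have w1 : (P * z * P)ᴴ = P * z * P := by simp [z1, hP.herm, Matrix.mul_assoc]
  have w2 : fr (P * z * P - T) ≤ 1 / 8 * fr T := by
    have : P * z * P - T = P * (z - T) * P := by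
      rw [Matrix.mul_sub, Matrix.sub_mul, hPT, hP.mul_comm_of_le hT hPT]
    rw [this]
    exact (fr_mul_le_right' _ hP.norm_le).trans ((fr_mul_le_left' hP.norm_le _).trans z3)
  have w3 : en u u (P * z * P) ≤ 2 * (μ * r) + ε * fr T := by
    have t1 := en_mul_le' u u u (opNorm_mul_le_one hP.norm_le z2) hP.norm_le
    have t2 := en_mul_le' u u u hP.norm_le z2
    linarith
  have w4 : fr (P * z * P) ≤ 2 * fr T := by
    have := fr_add_le (P * z * P - T) T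
    rw [sub_add_cancel] at this
    linarith
  obtain ⟨T', p1, p2, p3, p4⟩ := exists_round' C.rc w1 hT
  have q1 : fr (T' - T) ^ 2 ≤ 1 / 4 * fr T ^ 2 := by
    have : fr (T' - T) ≤ 1 / 2 * fr T := by linarith
    calc _ ≤ (1 / 2 * fr T) ^ 2 := pow_le_pow_left₀ (fr_nonneg _) this 2
      _ = _ := by ring
  have q2 := p1.tr_sub_le hT
  have q3 := hT.tr_sub_le p1
  rw [fr_sub_comm] at q3
  rw [← p1.fr_sq, ← hT.fr_sq] at q2 q3
  have q4 : en u u T' ^ 2 ≤ (κ * fr T') ^ 2 := by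
    have t1 : en u u (P * z * P) * fr (P * z * P) ≤ (2 * (μ * r) + ε * fr T) * (2 * fr T) :=
      mul_le_mul w3 w4 (fr_nonneg _) (by positivity)
    have t2 := mul_le_mul_of_nonneg_left t1 (show 0 ≤ 16 * L by positivity)
    have t3 : 200 * L * μ * r ≤ κ ^ 2 * fr T := by
      calc _ ≤ κ ^ 3 * r := mul_le_mul_of_nonneg_right k2 hr.le
        _ = κ ^ 2 * (κ * r) := by ring
        _ ≤ _ := mul_le_mul_of_nonneg_left h1 (by positivity)
    have t4 := mul_le_mul_of_nonneg_right t3 hT0.le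
    have t5 := mul_le_mul_of_nonneg_right k3 (sq_nonneg (fr T))
    have t6 := mul_le_mul_of_nonneg_left (show 3 / 4 * fr T ^ 2 ≤ fr T' ^ 2 by linarith)
      (sq_nonneg κ)
    have t7 : 0 ≤ κ ^ 2 * fr T ^ 2 := by positivity
    nlinarith
  have q5 := hmin T' p1 (by
      rintro rfl
      rw [fr_zero] at q3
      nlinarith)
    (p4 X (by rw [← Matrix.mul_assoc, ← Matrix.mul_assoc, hXP]; simp))
    (by
      have := fr_nonneg T'
      exact (pow_le_pow_iff_left₀ (en_nonneg _ _ _) (by positivity) two_ne_zero).mp q4)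
  have q6 := pow_le_pow_left₀ hr.le q5 2
  nlinarith

lemma Ctx.peel (C : Ctx L ε σ u W) {X P : Matrix n n ℂ} {κ μ r : ℝ} (hκ : 0 < κ) (hr : 0 < r)
    (hμ : 0 ≤ μ) (k1 : 112 * L ^ 2 * κ ≤ 1) (k2 : 200 * L * μ ≤ κ ^ 3) (k3 : 100 * L * ε ≤ κ ^ 2)
    (hXW : ∀ T, IsProj T → X * T = 0 → fr (W * T) ≤ κ * fr T)
    (hmin : ∀ T, IsProj T → T ≠ 0 → X * T = 0 → en u u T ≤ κ * fr T → r ≤ fr T)
    (hP : IsProj P) (hXP : X * P = 0) (hPe : en u u P ≤ μ * r) (hPr : tr P ≤ 11 / 10 * r ^ 2) :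
    ∃ Q, IsProj Q ∧ X * Q = 0 ∧ fr (Q - P) ≤ κ * r ∧ en u u Q ≤ 2 * κ * r ∧
      ∀ T, IsProj T → Q * T = T → 2 * tr T ≤ tr Q → 1 / (1024 * L ^ 2) * tr T ≤ bd u Q T := by
  have hL := C.one_le
  have hκ1 : 112 * κ ≤ 1 := by
    have h3 : κ ≤ L ^ 2 * κ := le_mul_of_one_le_left hκ.le (by nlinarith)
    linarith
  have hPe2 : en u u P ^ 2 ≤ (μ * r) ^ 2 := pow_le_pow_left₀ (en_nonneg _ _ _) hPe 2
  have hμκ : 32 * L * μ ≤ κ := by nlinarith
  obtain ⟨T₁, ⟨a1, a2, a3, a4⟩, hmax⟩ := exists_max_nat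
    {T : Matrix n n ℂ | IsProj T ∧ P * T = T ∧ tr T ≤ 3 / 5 * r ^ 2 ∧
      bd u P T ≤ 1 / (1024 * L ^ 2) * tr T} Matrix.rank (Fintype.card n)
    (fun x _ => rank_le_card_width x) ⟨0, isProj_zero, by simp, by rw [tr_zero]; positivity, by
      simp [bd, fr_zero, tr_zero]⟩
  have b0 : en u u T₁ ^ 2 ≤ 1 / (512 * L ^ 2) * fr T₁ ^ 2 + (μ * r) ^ 2 := by
    have t1 := bd_one_le u hP a1 a2
    rw [en_proj_sq C.adj hP] at hPe2
    rw [en_proj_sq C.adj a1, a1.fr_sq]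
    have e : 1 / (512 * L ^ 2) * tr T₁ = 2 * (1 / (1024 * L ^ 2) * tr T₁) := by
      field_simp
      ring
    linarith
  have b1 : fr T₁ ≤ κ * r := by
    by_contra hneg
    have t0 := (not_le.mp hneg).le
    have t1 := C.medium hκ hr hμ k1 k2 k3 hXW hmin hP hXP hPe a1 a2 t0 (by rwa [a1.fr_sq])
    have t2 : μ * r ≤ 1 / (32 * L) * fr T₁ := by
      rw [div_mul_eq_mul_div, le_div_iff₀ (by positivity)]
      have := mul_le_mul_of_nonneg_right hμκ hr.le
      linarith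
    have t3 := pow_le_pow_left₀ (by positivity) t2 2
    have t4 := pow_lt_pow_left₀ t1 (by have := fr_nonneg T₁; positivity) two_ne_zero
    have e1 : (1 / (16 * L) * fr T₁) ^ 2 = 4 * (fr T₁ ^ 2 / (1024 * L ^ 2)) := by
      field_simp
      ring
    have e2 : (1 / (32 * L) * fr T₁) ^ 2 = fr T₁ ^ 2 / (1024 * L ^ 2) := by
      field_simp
      ring
    have e3 : 1 / (512 * L ^ 2) * fr T₁ ^ 2 = 2 * (fr T₁ ^ 2 / (1024 * L ^ 2)) := by
      field_simp
      ring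
    have t5 : 0 ≤ fr T₁ ^ 2 / (1024 * L ^ 2) := by positivity
    linarith
  have b2 : fr T₁ ^ 2 ≤ (κ * r) ^ 2 := pow_le_pow_left₀ (fr_nonneg _) b1 2
  have hμκ' : 32 * μ ≤ κ := by nlinarith
  have hQ := hP.sub a1 a2
  refine ⟨P - T₁, hQ, ?_, ?_, ?_, ?_⟩
  · rw [← a2, Matrix.mul_sub, ← Matrix.mul_assoc, hXP]
    simp
  · rw [sub_sub_cancel_left, fr_neg]
    exact b1
  · have t1 := en_sub_le u u P T₁
    have t2 : en u u T₁ ≤ κ * r := by
      apply (pow_le_pow_iff_left₀ (en_nonneg _ _ _) (by positivity) two_ne_zero).mp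
      have t3 : 1 / (512 * L ^ 2) ≤ 1 / 512 :=
        one_div_le_one_div_of_le (by norm_num) (by nlinarith)
      have t4 := mul_le_mul t3 b2 (sq_nonneg _) (by norm_num)
      have t5 : (μ * r) ^ 2 ≤ (1 / 32 * (κ * r)) ^ 2 :=
        pow_le_pow_left₀ (by positivity) (by nlinarith) 2
      nlinarith [sq_nonneg (κ * r)]
    nlinarith
  · intro T hT hQT htr
    rcases eq_or_ne T 0 with rfl | hT0
    · rw [tr_zero, mul_zero]
      exact bd_nonneg _ _ _
    have h0 : T₁ * T = 0 := by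
      rw [← hQT, ← Matrix.mul_assoc, Matrix.mul_sub, hP.mul_comm_of_le a1 a2, a1.idem]
      simp
    have h0' : T * T₁ = 0 := by
      have := congrArg conjTranspose h0
      simpa [hT.herm, a1.herm] using this
    have hPT : P * T = T := by
      rw [Matrix.sub_mul, h0, sub_zero] at hQT
      exact hQT
    have hs := hT.add a1 h0'
    have t1 := bd_add_le u hP hT a1 a2 hQT
    by_contra hneg
    have t2 := hmax (T + T₁) ⟨hs, by rw [Matrix.mul_add, hPT, a2], by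
      rw [tr_add, ← a1.fr_sq]
      rw [tr_sub] at htr
      have := a1.tr_nonneg
      have t3 : (κ * r) ^ 2 ≤ 1 / 20 * r ^ 2 := by
        rw [mul_pow]
        exact mul_le_mul_of_nonneg_right (by nlinarith) (sq_nonneg r)
      linarith, by
      rw [tr_add, mul_add]
      linarith [not_le.mp hneg]⟩
    have t3 : ((T + T₁).rank : ℝ) ≤ T₁.rank := by exact_mod_cast t2
    rw [← hs.tr_eq_rank, ← a1.tr_eq_rank, tr_add] at t3
    linarith [hT.one_le_tr hT0]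

lemma Ctx.block (C : Ctx L ε σ u W) {X P x : Matrix n n ℂ} {κ μ r ζ δ τ μ₁ : ℝ} (hκ : 0 < κ)
    (hr : 0 < r) (hμ : 0 ≤ μ) (k1 : 112 * L ^ 2 * κ ≤ 1) (k2 : 200 * L * μ ≤ κ ^ 3)
    (k3 : 100 * L * ε ≤ κ ^ 2) (k4 : 64 * L * (μ₁ + 2 * L * τ) ≤ μ ^ 2)
    (k5 : ζ + 8 * (δ + τ) ≤ 1 / 25) (hδ : 0 ≤ δ) (hτ : 0 ≤ τ) (hX : IsProj X)
    (hXW : ∀ T, IsProj T → X * T = 0 → fr (W * T) ≤ κ * fr T)
    (hmin : ∀ T, IsProj T → T ≠ 0 → X * T = 0 → en u u T ≤ κ * fr T → r ≤ fr T)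
    (hP : IsProj P) (hPr : fr P ≤ (1 + ζ) * r) (hx : ‖x‖ ≤ 1) (x1 : fr (x - P) ≤ δ * r)
    (x2 : fr (X * x) ≤ τ * r) (x3 : en u u x ≤ μ₁ * r) :
    ∃ (k : ℕ) (V : Matrix n (Fin k) ℂ), Vᴴ * V = 1 ∧ fr (V * Vᴴ - P) ≤ (8 * (δ + τ) + κ) * r ∧
      en u (cmp u V) V ≤ 2 * κ * r ∧ fr (W * V) ≤ κ * Real.sqrt k ∧
      Gap (4096 * L ^ 3) (cmp u V) := by
  have hL := C.one_le
  obtain ⟨y, hy⟩ : ∃ y, y = (1 - X) * x := ⟨_, rfl⟩
  have y0 : ‖y‖ ≤ 1 := hy ▸ opNorm_mul_le_one hX.one_sub.norm_le hx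
  have y0' := opNorm_conjTranspose_le_one y0
  have y1 : fr (y - x) ≤ τ * r := by
    rw [hy, Matrix.sub_mul, Matrix.one_mul, sub_sub_cancel_left, fr_neg]
    exact x2
  have y2 : en u u y ≤ (μ₁ + 2 * L * τ) * r := by
    have t1 := en_le_add_fr' C.rc C.rc y x
    have t2 := mul_le_mul_of_nonneg_left y1 (show 0 ≤ 2 * L by positivity)
    linarith
  have y3 : fr (y - P) ≤ (δ + τ) * r := by
    have := fr_triangle y x P
    linarith
  have z1 : en u u (y * yᴴ) ≤ 2 * ((μ₁ + 2 * L * τ) * r) := by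
    have := en_mul_le' u u u y0 y0'
    rw [en_conjTranspose C.adj C.adj] at this
    linarith
  have z2 : fr (y * yᴴ - P) ≤ 2 * ((δ + τ) * r) := by
    have e : y * yᴴ - P = y * (y - P)ᴴ + (y - P) * P := by
      rw [conjTranspose_sub, hP.herm, Matrix.mul_sub, Matrix.sub_mul, hP.idem]
      abel
    have t1 := fr_add_le (y * (y - P)ᴴ) ((y - P) * P)
    have t2 := fr_mul_le_left' y0 (y - P)ᴴ
    have t3 := fr_mul_le_right' (y - P) hP.norm_le
    rw [fr_conjTranspose] at t2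
    rw [e]
    linarith
  have z3 : fr (y * yᴴ) ≤ 2 * r := by
    have t1 := fr_add_le (y * yᴴ - P) P
    rw [sub_add_cancel] at t1
    nlinarith
  obtain ⟨P', p1, p2, p3, p4⟩ := exists_round' C.rc (z := y * yᴴ) (by simp) hP
  have q1 : X * P' = 0 := p4 X (by
    rw [hy, ← Matrix.mul_assoc, ← Matrix.mul_assoc, hX.mul_one_sub]
    simp)
  have q2 : en u u P' ≤ μ * r := by
    apply (pow_le_pow_iff_left₀ (en_nonneg _ _ _) (by positivity) two_ne_zero).mp
    have t1 := mul_le_mul z1 z3 (fr_nonneg _) ((en_nonneg _ _ _).trans z1)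
    have t2 := mul_le_mul_of_nonneg_left t1 (show 0 ≤ 16 * L by positivity)
    have t3 := mul_le_mul_of_nonneg_right k4 (sq_nonneg r)
    calc _ ≤ _ := p3
      _ ≤ _ := t2
      _ = 64 * L * (μ₁ + 2 * L * τ) * r ^ 2 := by ring
      _ ≤ _ := t3
      _ = _ := by ring
  have q3 : tr P' ≤ 11 / 10 * r ^ 2 := by
    have t1 := fr_add_le (P' - P) P
    rw [sub_add_cancel] at t1
    have t2 : fr P' ≤ 26 / 25 * r := by nlinarith
    have t3 := pow_le_pow_left₀ (fr_nonneg _) t2 2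
    rw [← p1.fr_sq]
    nlinarith
  obtain ⟨Q, a1, a2, a3, a4, a5⟩ := C.peel hκ hr hμ k1 k2 k3 hXW hmin p1 q1 q2 q3
  obtain ⟨k, V, hV, hVQ⟩ := a1.exists_isometry
  have hQV : Q * V = V := by rw [← hVQ, Matrix.mul_assoc, hV, Matrix.mul_one]
  have htrQ : tr Q = k := by rw [← hVQ, tr_mul_comm, hV, tr_one, Fintype.card_fin]
  have nV := isometry_norm_le hV
  refine ⟨k, V, hV, ?_, ?_, ?_, ?_⟩
  · rw [hVQ]
    have := fr_triangle Q P' P
    linarith
  · refine le_trans ?_ a4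
    apply (pow_le_pow_iff_left₀ (en_nonneg _ _ _) (en_nonneg _ _ _) two_ne_zero).mp
    rw [en_proj_sq C.adj a1, en_sq]
    have : ∑ s, fr (u s * V - V * cmp u V s) ^ 2 ≤ bd u 1 Q := by
      apply sum_le_sum
      intro s _
      have e : u s * V - V * cmp u V s = (1 - Q) * u s * Q * V := by
        rw [Matrix.mul_assoc _ Q V, hQV, cmp, ← Matrix.mul_assoc V, ← Matrix.mul_assoc V, hVQ,
          Matrix.sub_mul, Matrix.sub_mul, Matrix.one_mul]
      rw [e]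
      exact pow_le_pow_left₀ (fr_nonneg _) (fr_mul_le_right' _ nV) 2
    linarith [bd_nonneg u 1 Q]
  · rw [← hQV, ← Matrix.mul_assoc, ← htrQ, ← a1.fr_eq]
    exact (fr_mul_le_right' _ nV).trans (hXW Q a1 a2)
  · refine (gap_of_cheeger (cmp_adj C.adj V) (C.rc.cmp hV) (h := 1 / (512 * L ^ 2))
      (by positivity) ?_).mono ?_
    · intro T hT htr
      have hT' : IsProj (V * T * Vᴴ) := ⟨by simp [hT.herm, Matrix.mul_assoc], by
        simp only [Matrix.mul_assoc]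
        rw [iso_cancel hV, ← Matrix.mul_assoc T, hT.idem]⟩
      have e1 : tr (V * T * Vᴴ) = tr T := by
        rw [tr_mul_comm, iso_cancel hV]
      have t1 := a5 _ hT' (by rw [← Matrix.mul_assoc, ← Matrix.mul_assoc, hQV])
        (by rw [e1, htrQ]; simpa using htr)
      have e2 : bd u Q (V * T * Vᴴ) = bd (cmp u V) 1 T := by
        apply sum_congr rfl
        intro s _
        congr 1
        rw [← fr_isometry_mul hV ((1 - T) * cmp u V s * T),
          ← fr_mul_coisometry (V * ((1 - T) * cmp u V s * T)) (v := Vᴴ) (by simpa using hV), ← hVQ]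
        congr 1
        simp only [cmp, Matrix.mul_assoc, Matrix.sub_mul, Matrix.mul_sub, Matrix.one_mul]
      rw [en_proj_sq (cmp_adj C.adj V) hT, ← e2]
      rw [e1] at t1
      have e3 : 1 / (512 * L ^ 2) * tr T = 2 * (1 / (1024 * L ^ 2) * tr T) := by
        field_simp
        ring
      linarith
    · rw [div_div_eq_mul_div, div_one]
      nlinarith [sq_nonneg L]

lemma Ctx.exists_step (C : Ctx L ε σ u W) {κ : ℝ} (hκ : 0 < κ) (hεκ : ε ≤ κ)
    (k1 : 8 * L ^ 2 * κ ≤ 1) {w : Matrix n n ℂ} (hw : w.PosSemidef) (hwW : (w - W).PosSemidef)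
    (h : ∃ T, Cand u κ (high hw (κ ^ 2)) T) : ∃ P, Step L ε κ u w P := by
  obtain ⟨T, hT, hmin⟩ := (measure (Matrix.rank : Matrix n n ℂ → ℕ)).wf.has_min
    {T | Cand u κ (high hw (κ ^ 2)) T} h
  obtain ⟨a1, a2, a3, a4⟩ := hT
  have hWT := fr_mul_le_of_high hw C.projW hwW hκ.le a1 a3
  have hTW : fr (T * W) ≤ κ * fr T := by
    rw [← fr_conjTranspose, conjTranspose_mul, a1.herm, C.projW.herm]
    exact hWT
  obtain ⟨z, z1, z2, z3, z4⟩ := C.improve a1.norm_le hWT hTW a4 le_rfl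
  obtain ⟨P, p1, p2, p3, -⟩ := exists_round' C.rc (z1 a1.herm) a1
  have hL := C.one_le
  have c1 : L * κ + 4 * L ^ 2 * κ + 2 * κ + ε ≤ 8 * L ^ 2 * κ := by
    have h3 : κ ≤ L ^ 2 * κ := le_mul_of_one_le_left hκ.le (by nlinarith)
    have h4 : L * κ ≤ L ^ 2 * κ := mul_le_mul_of_nonneg_right (by nlinarith) hκ.le
    linarith
  replace z3 := z3.trans (mul_le_mul_of_nonneg_right c1 (fr_nonneg _))
  refine ⟨P, hw, T, ⟨a1, a2, a3, a4⟩, ?_, p1, by linarith, p3.trans ?_⟩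
  · intro T' hT'
    have h1 : T.rank ≤ T'.rank := not_lt.mp (hmin T' hT')
    apply (pow_le_pow_iff_left₀ (fr_nonneg _) (fr_nonneg _) two_ne_zero).mp
    rw [a1.fr_sq, hT'.1.fr_sq, a1.tr_eq_rank, hT'.1.tr_eq_rank]
    exact_mod_cast h1
  · have t1 := fr_add_le (z - T) T
    rw [sub_add_cancel] at t1
    have t2 : fr z ≤ 2 * fr T := by
      have := mul_le_mul_of_nonneg_right k1 (fr_nonneg T)
      linarith
    have t3 := mul_le_mul z4 t2 (fr_nonneg _) ((en_nonneg _ _ _).trans z4)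
    calc _ ≤ 16 * L * (ε * fr T * (2 * fr T)) := mul_le_mul_of_nonneg_left t3 (by positivity)
      _ = _ := by ring

lemma Ctx.greedy (C : Ctx L ε σ u W) (hWd : tr W ≤ ε * Fintype.card n) {κ : ℝ} (hκ : 0 < κ)
    (hεκ : ε ≤ κ) (k1 : 1024 * L ^ 4 * κ ≤ 1)
    (k2 : 2 / κ ^ 2 * (132 * L ^ 2 * ε) ≤ (κ ^ 3 / (24 * L)) ^ 2) :
    ∃ (p : ℕ → Matrix n n ℂ) (hp : ∀ j, IsProj (p j)) (N : ℕ) (r : ℕ → ℝ),
      (∀ i ∈ Ico 1 N, 0 < r i ∧
        (∀ T, IsProj T → high (ps_psd hp i) (κ ^ 2) * T = 0 → fr (W * T) ≤ κ * fr T) ∧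
        (∀ T, Cand u κ (high (ps_psd hp i) (κ ^ 2)) T → r i ≤ fr T) ∧
        fr (p i) ≤ (1 + 32 * L ^ 2 * κ) * r i ∧ r i ^ 2 ≤ tr (p i) + κ * r i ^ 2) ∧
      (1 - 6 * κ) * Fintype.card n ≤ ∑ i ∈ Ico 1 N, r i ^ 2 ∧
      ∑ i ∈ Ico 1 N, r i ^ 2 ≤ (1 + 39 * κ) * Fintype.card n ∧
      ∑ i ∈ range N, en u u (p i) ^ 2 ≤ 132 * L ^ 2 * ε * Fintype.card n ∧
      ∀ t β : ℝ, 0 < t → t ≤ 1 → 0 < β → β ≤ 1 / 2 →
        ∑ i ∈ range N, tr (p i * (1 - rho (ps_psd hp i) t)) ≤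
          2 * (179 * κ / β ^ 2 * Real.log (1 + 1 / t) + 2 * β) * Fintype.card n := by
  classical
  have hL := C.one_le
  have hε := C.eps
  have hL2 : 1 ≤ L ^ 2 := one_le_pow₀ hL
  have hκ1 : 1024 * κ ≤ 1 := by
    have : κ ≤ L ^ 4 * κ := le_mul_of_one_le_left hκ.le (one_le_pow₀ hL)
    linarith
  have k1' : 8 * L ^ 2 * κ ≤ 1 := by
    have : L ^ 2 * κ ≤ L ^ 4 * κ :=
      mul_le_mul_of_nonneg_right (pow_le_pow_right₀ hL (by norm_num)) hκ.le
    have h2 : 0 ≤ L ^ 2 * κ := by positivity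
    linarith
  obtain ⟨d, hd⟩ : ∃ d : ℝ, d = Fintype.card n := ⟨_, rfl⟩
  have hd0 : 0 ≤ d := by rw [hd]; positivity
  obtain ⟨p, hp, p0, hch⟩ := exists_chain L ε κ u C.projW
  have hstep : ∀ i, 1 ≤ i → (∃ T, Cand u κ (high (ps_psd hp i) (κ ^ 2)) T) →
      Step L ε κ u (ps p i) (p i) := fun i hi h =>
    hch i hi (C.exists_step hκ hεκ k1' _ (p0 ▸ ps_sub_psd hp hi) h)
  have hr : ∀ i, ∃ r : ℝ, Step L ε κ u (ps p i) (p i) →
      1 ≤ r ∧ (∀ T, Cand u κ (high (ps_psd hp i) (κ ^ 2)) T → r ≤ fr T) ∧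
      fr (p i) ≤ (1 + 32 * L ^ 2 * κ) * r ∧ r ^ 2 ≤ tr (p i) + κ * r ^ 2 ∧
      tr (p i) ≤ r ^ 2 + κ * r ^ 2 ∧ en u u (p i) ^ 2 ≤ 32 * L * ε * r ^ 2 ∧
      tr (p i * (1 - rho (ps_psd hp i) κ)) ≤ 4 * κ * r ^ 2 := by
    intro i
    by_cases h : Step L ε κ u (ps p i) (p i)
    · obtain ⟨r, hr⟩ := h.facts hκ k1 (ps_psd hp i)
      exact ⟨r, fun _ => hr⟩
    · exact ⟨0, fun h' => absurd h' h⟩
  choose r hr using hr
  rw [← hd] at hWd ⊢
  have hεd : ε * d ≤ κ * d := mul_le_mul_of_nonneg_right hεκ hd0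
  have hκd : 1024 * (κ * d) ≤ d := by nlinarith
  have hκd0 : 0 ≤ κ * d := by positivity
  -- bounds along a chain
  have bound : ∀ N, 1 ≤ N → (∀ i ∈ Ico 1 N, Step L ε κ u (ps p i) (p i)) →
      ∑ i ∈ Ico 1 N, r i ^ 2 ≤ 2 * tr (ps p N) ∧ tr (ps p N) ≤ 2 * d ∧
      ∑ i ∈ range N, tr (p i * (1 - rho (ps_psd hp i) κ)) ≤ 17 * (κ * d) := by
    intro N hN hS
    have b1 : ∑ i ∈ Ico 1 N, r i ^ 2 ≤ 2 * tr (ps p N) := by
      rw [tr_ps, sum_range_eq_add_Ico _ hN, mul_add, mul_sum]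
      have : ∑ i ∈ Ico 1 N, r i ^ 2 ≤ ∑ i ∈ Ico 1 N, 2 * tr (p i) := by
        apply sum_le_sum
        intro i hi
        have := (hr i (hS i hi)).2.2.2.1
        nlinarith [sq_nonneg (r i)]
      linarith [(hp 0).tr_nonneg]
    have b2 : ∑ i ∈ range N, tr (p i * (1 - rho (ps_psd hp i) κ)) ≤
        κ * d + 8 * (κ * tr (ps p N)) := by
      rw [sum_range_eq_add_Ico _ hN]
      have t1 := tr_one_sub_rho_le (ps_psd hp 0) (hp 0) hκ
      have t2 := sum_le_sum (s := Ico 1 N) (fun i hi => (hr i (hS i hi)).2.2.2.2.2.2)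
      rw [← mul_sum] at t2
      have t3 := mul_le_mul_of_nonneg_left b1 (show 0 ≤ 4 * κ by positivity)
      have t4 : tr (p 0) ≤ ε * d := by rw [p0]; exact hWd
      linarith
    have b3 := tr_ps_le hp hκ N
    rw [← hd] at b3
    have b4 : 0 ≤ tr (ps p N) := tr_nonneg_of_posSemidef (ps_psd hp N)
    have b5 : 1024 * (κ * tr (ps p N)) ≤ tr (ps p N) := by nlinarith
    have b6 : tr (ps p N) ≤ 2 * d := by linarith
    have b7 := mul_le_mul_of_nonneg_left b6 hκ.le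
    exact ⟨b1, b6, by linarith⟩
  have hex : ∃ i, 1 ≤ i ∧ ¬ ∃ T, Cand u κ (high (ps_psd hp i) (κ ^ 2)) T := by
    by_contra hne
    push Not at hne
    obtain ⟨b1, b2, -⟩ := bound (4 * Fintype.card n + 2) (by omega)
      (fun i hi => hstep i (mem_Ico.mp hi).1 (hne i (mem_Ico.mp hi).1))
    have : ∑ _i ∈ Ico 1 (4 * Fintype.card n + 2), (1 : ℝ) ≤
        ∑ i ∈ Ico 1 (4 * Fintype.card n + 2), r i ^ 2 := by
      apply sum_le_sum
      intro i hi
      exact one_le_pow₀ (hr i (hstep i (mem_Ico.mp hi).1 (hne i (mem_Ico.mp hi).1))).1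
    simp only [sum_const, Nat.card_Ico, nsmul_eq_mul, mul_one] at this
    rw [show 4 * Fintype.card n + 2 - 1 = 4 * Fintype.card n + 1 by omega] at this
    push_cast at this
    linarith
  obtain ⟨N, ⟨hN, hstop⟩, hNmin⟩ : ∃ N, (1 ≤ N ∧ ¬ ∃ T, Cand u κ (high (ps_psd hp N) (κ ^ 2)) T) ∧
      ∀ i < N, ¬ (1 ≤ i ∧ ¬ ∃ T, Cand u κ (high (ps_psd hp i) (κ ^ 2)) T) :=
    ⟨Nat.find hex, Nat.find_spec hex, fun i hi => Nat.find_min hex hi⟩
  have hS : ∀ i ∈ Ico 1 N, Step L ε κ u (ps p i) (p i) := by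
    intro i hi
    apply hstep i (mem_Ico.mp hi).1
    by_contra h
    exact hNmin i (mem_Ico.mp hi).2 ⟨(mem_Ico.mp hi).1, h⟩
  obtain ⟨b1, b2, b3⟩ := bound N hN hS
  have b4 := tr_ps_le hp hκ N
  rw [← hd] at b4
  have hE : ∑ i ∈ range N, en u u (p i) ^ 2 ≤ 132 * L ^ 2 * ε * d := by
    rw [sum_range_eq_add_Ico _ hN]
    have t1 := sum_le_sum (s := Ico 1 N) (fun i hi => (hr i (hS i hi)).2.2.2.2.2.1)
    rw [← mul_sum] at t1
    have t2 : en u u (p 0) ≤ 2 * L * fr W := by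
      have := en_le_add_fr' C.rc C.rc W 0
      rw [en_zero, sub_zero, zero_add] at this
      rw [p0]
      exact this
    have t3 := pow_le_pow_left₀ (en_nonneg _ _ _) t2 2
    rw [mul_pow, C.projW.fr_sq] at t3
    have t4 := mul_le_mul_of_nonneg_left hWd (sq_nonneg (2 * L))
    have t5 := mul_le_mul_of_nonneg_left (b1.trans (show _ ≤ 4 * d by linarith))
      (show 0 ≤ 32 * L * ε by positivity)
    have t6 : L * (ε * d) ≤ L ^ 2 * (ε * d) :=
      mul_le_mul_of_nonneg_right (by nlinarith) (by positivity)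
    linarith
  have hlow : (1 - κ) * d ≤ tr (ps p N) := by
    have hw := ps_psd hp N
    obtain ⟨s, s1, s2, s3⟩ := exists_level hw.1 (fun x => κ ^ 2 / (x + κ ^ 2)) C.rc
      (α := 1 / 2) (β := 2 / 3) (by norm_num) (by norm_num)
    have t1 : en u u (fc hw.1 (fun x => κ ^ 2 / (x + κ ^ 2))) ≤
        κ ^ 3 / (24 * L) * Real.sqrt d := by
      apply (pow_le_pow_iff_left₀ (en_nonneg _ _ _) (by positivity) two_ne_zero).mp
      refine (en_rho_le hp (show 0 < κ ^ 2 by positivity) u N).trans ?_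
      rw [mul_pow, Real.sq_sqrt hd0]
      refine (mul_le_mul_of_nonneg_left hE (by positivity)).trans ?_
      rw [← mul_assoc]
      exact mul_le_mul_of_nonneg_right k2 hd0
    have t2 : fr (fc hw.1 (fun x => κ ^ 2 / (x + κ ^ 2))) ≤ 1 * Real.sqrt d := by
      rw [hd]
      exact fr_le_of_norm_le_right (norm_rho_le hw (show 0 < κ ^ 2 by positivity))
    have t3 := mul_le_mul t1 t2 (fr_nonneg _) (by positivity)
    have t4 : 2 * L / (1 / 2 * (2 / 3 - 1 / 2)) ≤ 24 * L := by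
      rw [div_le_iff₀ (by norm_num)]
      linarith
    have t5 := mul_le_mul t4 t3 (mul_nonneg (en_nonneg _ _ _) (fr_nonneg _)) (by positivity)
    have t6 : 24 * L * (κ ^ 3 / (24 * L) * Real.sqrt d * (1 * Real.sqrt d)) = κ ^ 2 * (κ * d) := by
      have := Real.mul_self_sqrt hd0
      field_simp
      rw [Real.sq_sqrt hd0]
    replace s3 := s3.trans (t5.trans t6.le)
    have hq := isProj_fc_ind hw.1 (fun x => κ ^ 2 / (x + κ ^ 2)) s
    have t7 : tr (fc hw.1 (fun x => ind s (κ ^ 2 / (x + κ ^ 2)))) ≤ κ * d := by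
      by_contra hneg
      apply hstop
      refine ⟨_, hq, ?_, ?_, ?_⟩
      · intro h0
        rw [h0, tr_zero] at hneg
        exact hneg hκd0
      · unfold high
        rw [fc_mul, ← fc_zero hw.1]
        apply fc_congr
        intro i
        unfold ind
        split_ifs with a b
        · exfalso
          rw [lt_div_iff₀ (by have := hw.eigenvalues_nonneg i; positivity)] at b
          nlinarith [sq_nonneg κ]
        all_goals simp
      · apply (pow_le_pow_iff_left₀ (en_nonneg _ _ _) (mul_nonneg hκ.le (fr_nonneg _))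
          two_ne_zero).mp
        rw [mul_pow, hq.fr_sq]
        exact s3.trans (mul_le_mul_of_nonneg_left (not_le.mp hneg).le (sq_nonneg _))
    have t8 : d - tr (fc hw.1 (fun x => ind s (κ ^ 2 / (x + κ ^ 2)))) ≤ (ps p N).rank := by
      rw [hw.1.rank_eq_card_non_zero_eigs, Fintype.card_subtype, card_eq_sum_ones, sum_filter,
        tr_fc, hd, ← card_univ, card_eq_sum_ones]
      push_cast
      rw [← sum_sub_distrib]
      apply sum_le_sum
      intro i _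
      unfold ind
      split_ifs with a b b
      · simp
      · simp
      · simp
      · exfalso
        apply a
        rw [not_not.mp b, zero_add, div_self (by positivity)]
        linarith
    linarith [rank_ps_le hp N]
  refine ⟨p, hp, N, r, ?_, ?_, ?_, hE, ?_⟩
  · intro i hi
    obtain ⟨a1, a2, a3, a4, -⟩ := hr i (hS i hi)
    exact ⟨by linarith, fun T hT h => fr_mul_le_of_high _ C.projW
      (p0 ▸ ps_sub_psd hp (mem_Ico.mp hi).1) hκ.le hT h, a2, a3, a4⟩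
  · have t1 := sum_le_sum (s := Ico 1 N) (fun i hi => (hr i (hS i hi)).2.2.2.2.1)
    rw [sum_add_distrib, ← mul_sum] at t1
    have t2 := tr_ps (p := p) N
    rw [sum_range_eq_add_Ico _ hN, p0] at t2
    have t3 := mul_le_mul_of_nonneg_left (b1.trans (show _ ≤ 4 * d by linarith)) hκ.le
    linarith
  · have t1 := sum_le_sum (s := Ico 1 N) (fun i hi => (hr i (hS i hi)).2.2.2.1)
    rw [sum_add_distrib, ← mul_sum] at t1
    have t2 := tr_ps (p := p) N
    rw [sum_range_eq_add_Ico _ hN] at t2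
    have t3 := mul_le_mul_of_nonneg_left (b1.trans (show _ ≤ 4 * d by linarith)) hκ.le
    linarith [(hp 0).tr_nonneg]
  · intro t β ht ht1 hβ hβ1
    have t1 := tr_low_le hp hκ hβ.le (by linarith) N
    have t2 := sum_tr_one_sub_rho_le hp ht hβ.le hβ1 N
    rw [← hd] at t1 t2
    have t3 : tr (low (ps_psd hp N) (1 - β)) ≤ 144 * (κ * d) / β ^ 2 := by
      rw [le_div_iff₀ (by positivity)]
      linarith
    have t4 : 35 * (κ * d) ≤ 35 * (κ * d) / β ^ 2 := by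
      rw [le_div_iff₀ (by positivity)]
      have : β ^ 2 ≤ 1 := by nlinarith
      nlinarith
    have t5 : 0 ≤ Real.log (1 + 1 / t) := Real.log_nonneg (by
      have : 0 < 1 / t := by positivity
      linarith)
    have t6 : tr (ps p N) - d + tr (low (ps_psd hp N) (1 - β)) ≤ 179 * κ / β ^ 2 * d := by
      have : 179 * κ / β ^ 2 * d = 35 * (κ * d) / β ^ 2 + 144 * (κ * d) / β ^ 2 := by ring
      linarith
    have t7 := mul_le_mul_of_nonneg_right t6 t5
    refine t2.trans ?_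
    calc _ ≤ (1 + t) * (179 * κ / β ^ 2 * d * Real.log (1 + 1 / t) + 2 * β * d) :=
          mul_le_mul_of_nonneg_left (by linarith) (by linarith)
      _ ≤ 2 * (179 * κ / β ^ 2 * d * Real.log (1 + 1 / t) + 2 * β * d) :=
          mul_le_mul_of_nonneg_right (by linarith) (by positivity)
      _ = _ := by ring

end Greedy

end Pool.Agent.Lib.MP_f81d8e_an.W
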