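import Mathlib
import Pool.Agent.Lib.MP_f81d8e_an.W.Greedy

set_option autoImplicit false
set_option linter.unusedSectionVars false

namespace Pool.Agent.Lib.MP_f81d8e_an.W

open Matrix Finset Filter Topology
open scoped Matrix.Norms.L2Operator ComplexOrder

attribute [local irreducible] fr tr en fc

section Blocks

variable {n : Type*} [Fintype n] [DecidableEq n] {S : Type*} [Fintype S]

variable {L ε : ℝ} {σ : Equiv.Perm S} {u : S → Matrix n n ℂ} {W : Matrix n n ℂ}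

lemma Ctx.blocks_aux (C : Ctx L ε σ u W) (hWd : tr W ≤ ε * Fintype.card n)
    {κ t β δ μ₁ ν : ℝ} (hκ : 0 < κ) (ht : 0 < t) (hβ : 0 < β) (hδ : 0 < δ) (hμ₁ : 0 < μ₁)
    (hν : ν ≤ 1) (hβ1 : β ≤ 1 / 2) (htν : t ≤ ν)
    (hεκ : ε ≤ κ) (k1 : 1024 * L ^ 4 * κ ≤ 1)
    (k2 : 2 / κ ^ 2 * (132 * L ^ 2 * ε) ≤ (κ ^ 3 / (24 * L)) ^ 2) (k3 : 100 * L * ε ≤ κ ^ 2)
    (k4 : 64 * L * (μ₁ + 2 * L * (2 * (t / κ ^ 2))) ≤ (κ ^ 3 / (200 * L)) ^ 2)
    (k5 : 8 * (δ + 2 * (t / κ ^ 2)) + 40 * L ^ 2 * κ + μ₁ ≤ ν / 50)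
    (k6 : 2 * (179 * κ / β ^ 2 * Real.log (1 + 1 / t) + 2 * β) ≤ ν / 4 * δ ^ 2)
    (k7 : 26 / t * (132 * L ^ 2 * ε) ≤ ν / 4 * μ₁ ^ 2) : HasBlocks L ν u W := by
  classical
  have hL := C.one_le
  have hL2 : 1 ≤ L ^ 2 := one_le_pow₀ hL
  have hκL : κ ≤ L ^ 2 * κ := le_mul_of_one_le_left hκ.le hL2
  have hτ : 0 < t / κ ^ 2 := by positivity
  obtain ⟨p, hp, N, r, h1, h2, h3, h4, h5⟩ := C.greedy hWd hκ hεκ k1 k2
  obtain ⟨d, hd⟩ : ∃ d : ℝ, d = Fintype.card n := ⟨_, rfl⟩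
  have hd0 : 0 ≤ d := by rw [hd]; positivity
  unfold HasBlocks
  rw [← hd] at h2 h3 h4 h5 ⊢
  have hν0 : 0 < ν := ht.trans_le htν
  let I : Finset ℕ := (Ico 1 N).filter (fun i =>
    tr (p i * (1 - rho (ps_psd hp i) t)) ≤ (δ * r i) ^ 2 ∧
      en u u (rho (ps_psd hp i) t * p i) ^ 2 ≤ (μ₁ * r i) ^ 2)
  have hb : ∀ i : I, ∃ (k : ℕ) (V : Matrix n (Fin k) ℂ),
      GoodBlock L ν u W V (rho (ps_psd hp i) t * p i) ∧
        ((1 - ν / 50) * r i) ^ 2 ≤ k ∧ (k : ℝ) ≤ ((1 + ν / 50) * r i) ^ 2 := by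
    rintro ⟨i, hi⟩
    obtain ⟨hi, g1, g2⟩ := mem_filter.mp hi
    obtain ⟨a1, a2, a3, a4, a5⟩ := h1 i hi
    have x0 : ‖rho (ps_psd hp i) t * p i‖ ≤ 1 :=
      opNorm_mul_le_one (norm_rho_le _ ht) (hp i).norm_le
    have x1 : fr (rho (ps_psd hp i) t * p i - p i) ≤ δ * r i :=
      (pow_le_pow_iff_left₀ (fr_nonneg _) (by positivity) two_ne_zero).mp
        ((fr_rho_sub_sq_le _ (hp i) ht).trans g1)
    have x3 : en u u (rho (ps_psd hp i) t * p i) ≤ μ₁ * r i :=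
      (pow_le_pow_iff_left₀ (en_nonneg _ _ _) (by positivity) two_ne_zero).mp g2
    have x2 : fr (high (ps_psd hp i) (κ ^ 2) * (rho (ps_psd hp i) t * p i)) ≤
        2 * (t / κ ^ 2) * r i := by
      rw [← Matrix.mul_assoc]
      refine (fr_mul_le_left _ _).trans ?_
      have t1 : fr (p i) ≤ 2 * r i := a4.trans (mul_le_mul_of_nonneg_right (by linarith) a1.le)
      refine (mul_le_mul (norm_high_mul_rho _ (by positivity) ht) t1 (fr_nonneg _) hτ.le).trans ?_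
      exact le_of_eq (by ring)
    obtain ⟨k, V, v1, v2, v3, v4, v5⟩ := C.block (μ := κ ^ 3 / (200 * L)) hκ a1 (by positivity)
      (by
        have : L ^ 2 * κ ≤ L ^ 4 * κ :=
          mul_le_mul_of_nonneg_right (pow_le_pow_right₀ hL (by norm_num)) hκ.le
        linarith) (le_of_eq (by field_simp)) k3 k4 (ζ := 32 * L ^ 2 * κ) (by linarith) hδ.le
      (by positivity) (isProj_high _ _) a2 (fun T b1 b2 b3 b4 => a3 T ⟨b1, b2, b3, b4⟩) (hp i) a4
      x0 x1 x2 x3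
    have e : fr (V * Vᴴ) = Real.sqrt k := by
      rw [fr_isometry_mul v1, fr_conjTranspose, ← Matrix.mul_one V, fr_isometry_mul v1, fr_one,
        Fintype.card_fin]
    have s1 : Real.sqrt k ≤ (1 + ν / 50) * r i := by
      have t1 := fr_add_le (V * Vᴴ - p i) (p i)
      rw [sub_add_cancel, e] at t1
      have t2 := mul_le_mul_of_nonneg_right (show 8 * (δ + 2 * (t / κ ^ 2)) + κ +
        (1 + 32 * L ^ 2 * κ) ≤ 1 + ν / 50 by linarith) a1.le
      linarith
    have s2 : (1 - ν / 50) * r i ≤ Real.sqrt k := by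
      have t1 := fr_add_le (p i - V * Vᴴ) (V * Vᴴ)
      rw [sub_add_cancel, e, fr_sub_comm] at t1
      have t0 : (1 - κ) * r i ≤ fr (p i) := by
        apply (pow_le_pow_iff_left₀ (mul_nonneg (by linarith) a1.le) (fr_nonneg _) two_ne_zero).mp
        rw [(hp i).fr_sq]
        have : (1 - κ) ^ 2 * r i ^ 2 ≤ (1 - κ) * r i ^ 2 :=
          mul_le_mul_of_nonneg_right (by nlinarith) (sq_nonneg _)
        rw [mul_pow]
        linarith
      have t2 := mul_le_mul_of_nonneg_right (show 8 * (δ + 2 * (t / κ ^ 2)) + κ +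
        (1 - ν / 50) ≤ 1 - κ by linarith) a1.le
      linarith
    have s3 : r i ≤ 2 * Real.sqrt k := by
      have := mul_le_mul_of_nonneg_right (show 1 / 2 ≤ 1 - ν / 50 by linarith) a1.le
      linarith
    have s4 : ∀ c : ℝ, 0 ≤ c → 2 * c ≤ ν → c * r i ≤ ν * Real.sqrt k := fun c hc h => by
      have t1 := mul_le_mul_of_nonneg_left s3 hc
      have t2 := mul_le_mul_of_nonneg_right h (Real.sqrt_nonneg k)
      linarith
    refine ⟨k, V, ⟨v1, v3.trans (s4 _ (by positivity) (by linarith)),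
      v4.trans (mul_le_mul_of_nonneg_right (by linarith) (Real.sqrt_nonneg _)), v5, x0, ?_,
      x3.trans (s4 _ hμ₁.le (by linarith))⟩, ?_, ?_⟩
    · have e2 : rho (ps_psd hp i) t * p i * V - V =
          (rho (ps_psd hp i) t * p i - V * Vᴴ) * V := by
        rw [Matrix.sub_mul, Matrix.mul_assoc V, v1, Matrix.mul_one]
      rw [e2]
      refine (fr_mul_le_right' _ (isometry_norm_le v1)).trans ?_
      have t1 := fr_triangle (rho (ps_psd hp i) t * p i) (p i) (V * Vᴴ)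
      rw [fr_sub_comm (p i)] at t1
      have t2 := s4 (δ + (8 * (δ + 2 * (t / κ ^ 2)) + κ)) (by positivity) (by linarith)
      linarith
    · exact (Real.le_sqrt (mul_nonneg (by linarith) a1.le) (Nat.cast_nonneg _)).mp s2
    · exact (Real.sqrt_le_iff.mp s1).2
  choose k V hV hk1 hk2 using hb
  have hsub : I ⊆ range N := fun i hi => mem_range.mpr (mem_Ico.mp (mem_filter.mp hi).1).2
  refine ⟨I, k, V, fun i => rho (ps_psd hp i) t * p i, hV, ?_, ?_, ?_⟩
  · intro l _ _ y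
    rw [sum_coe_sort I (fun i => fr (y * (rho (ps_psd hp i) t * p i)) ^ 2)]
    refine (sum_le_sum_of_subset_of_nonneg hsub (fun _ _ _ => sq_nonneg _)).trans ?_
    exact (sum_fr_rho_le hp ht y N).trans (mul_le_mul_of_nonneg_right (by linarith) (sq_nonneg _))
  · refine le_trans ?_ (sum_le_sum (fun i _ => hk1 i))
    simp only [mul_pow]
    rw [← mul_sum, sum_coe_sort I (fun i => r i ^ 2)]
    have t1 : ∑ i ∈ Ico 1 N, r i ^ 2 ≤ ∑ i ∈ I, r i ^ 2 + ∑ i ∈ Ico 1 N,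
        (tr (p i * (1 - rho (ps_psd hp i) t)) / δ ^ 2 +
          en u u (rho (ps_psd hp i) t * p i) ^ 2 / μ₁ ^ 2) := by
      rw [sum_filter, ← sum_add_distrib]
      apply sum_le_sum
      intro i _
      have b1 : 0 ≤ tr (p i * (1 - rho (ps_psd hp i) t)) / δ ^ 2 :=
        div_nonneg (tr_one_sub_rho_nonneg _ (hp i) ht) (sq_nonneg _)
      have b2 : 0 ≤ en u u (rho (ps_psd hp i) t * p i) ^ 2 / μ₁ ^ 2 := by positivity
      split_ifs with h
      · linarith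
      · rcases not_and_or.mp h with h | h
        · have : r i ^ 2 ≤ tr (p i * (1 - rho (ps_psd hp i) t)) / δ ^ 2 := by
            rw [le_div_iff₀ (by positivity)]
            linarith [not_le.mp h]
          linarith
        · have : r i ^ 2 ≤ en u u (rho (ps_psd hp i) t * p i) ^ 2 / μ₁ ^ 2 := by
            rw [le_div_iff₀ (by positivity)]
            linarith [not_le.mp h]
          linarith
    have hsub' : Ico 1 N ⊆ range N := fun i hi => mem_range.mpr (mem_Ico.mp hi).2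
    have t2 : ∑ i ∈ Ico 1 N, tr (p i * (1 - rho (ps_psd hp i) t)) / δ ^ 2 ≤ ν / 4 * d := by
      rw [← sum_div, div_le_iff₀ (by positivity)]
      refine (sum_le_sum_of_subset_of_nonneg hsub'
        (fun i _ _ => tr_one_sub_rho_nonneg _ (hp i) ht)).trans ?_
      refine (h5 t β ht (by linarith) hβ hβ1).trans ?_
      exact (mul_le_mul_of_nonneg_right k6 hd0).trans (le_of_eq (by ring))
    have t3 : ∑ i ∈ Ico 1 N, en u u (rho (ps_psd hp i) t * p i) ^ 2 / μ₁ ^ 2 ≤ ν / 4 * d := by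
      rw [← sum_div, div_le_iff₀ (by positivity)]
      refine (sum_le_sum_of_subset_of_nonneg hsub' (fun i _ _ => sq_nonneg _)).trans ?_
      refine (sum_en_rho_le hp ht (by linarith) u N).trans ?_
      refine (mul_le_mul_of_nonneg_left h4 (by positivity)).trans ?_
      rw [← mul_assoc]
      exact (mul_le_mul_of_nonneg_right k7 hd0).trans (le_of_eq (by ring))
    rw [sum_add_distrib] at t1
    have t4 : (1 - 6 * κ - ν / 2) * d ≤ ∑ i ∈ I, r i ^ 2 := by linarith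
    refine le_trans ?_ (mul_le_mul_of_nonneg_left t4 (sq_nonneg _))
    rw [← mul_assoc]
    apply mul_le_mul_of_nonneg_right _ hd0
    have t5 : 1 - ν / 50 - ν / 2 ≤ 1 - 6 * κ - ν / 2 := by linarith
    refine le_trans ?_ (mul_le_mul_of_nonneg_left t5 (sq_nonneg _))
    nlinarith [mul_nonneg hν0.le (sub_nonneg.mpr hν), sq_nonneg ν]
  · refine (sum_le_sum (fun i _ => hk2 i)).trans ?_
    simp only [mul_pow]
    rw [← mul_sum, sum_coe_sort I (fun i => r i ^ 2)]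
    have t1 : ∑ i ∈ I, r i ^ 2 ≤ (1 + ν / 50) * d := by
      refine (sum_le_sum_of_subset_of_nonneg (filter_subset _ _) (fun _ _ _ => sq_nonneg _)).trans ?_
      exact h3.trans (mul_le_mul_of_nonneg_right (by linarith) hd0)
    refine (mul_le_mul_of_nonneg_left t1 (sq_nonneg _)).trans ?_
    rw [← mul_assoc]
    apply mul_le_mul_of_nonneg_right _ hd0
    nlinarith [mul_nonneg hν0.le (sub_nonneg.mpr hν), mul_nonneg (sq_nonneg ν) (sub_nonneg.mpr hν)]

theorem exists_blocks {L ν : ℝ} (hL : 1 ≤ L) (hν : 0 < ν) (hν1 : ν ≤ 1) :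
    ∃ ε > 0, ε ≤ ν ∧ ∀ (S : Type) [Fintype S] (n : Type) [Fintype n] [DecidableEq n]
      (σ : Equiv.Perm S)
      (u : S → Matrix n n ℂ) (W : Matrix n n ℂ), Ctx L ε σ u W → tr W ≤ ε * Fintype.card n →
      HasBlocks L ν u W := by
  obtain ⟨δ, hδ⟩ : ∃ δ, δ = ν / 1000 := ⟨_, rfl⟩
  have hδ0 : 0 < δ := by rw [hδ]; positivity
  obtain ⟨β, hβ⟩ : ∃ β, β = δ ^ 2 * ν / 100 := ⟨_, rfl⟩
  have hβ0 : 0 < β := by rw [hβ]; positivity
  obtain ⟨s, ⟨⟨⟨s1, s2⟩, s3⟩, s4⟩, hs⟩ := ((((ev_small 1 one_pos).and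
    (ev_small (20000000 * L ^ 4) one_pos)).and
    (ev_small (57 * L ^ 2) (show 0 < ν / 100 by positivity))).and
    (ev_small (7160 / β ^ 2) (show 0 < ν / 5 * δ ^ 2 by positivity))).and self_mem_nhdsWithin
    |>.exists
  replace hs : 0 < s := hs
  rw [one_mul] at s1
  have hpow : ∀ k, k ≠ 0 → s ^ k ≤ s := fun k hk => pow_le_of_le_one hs.le s1 hk
  obtain ⟨ε, ⟨⟨⟨⟨e1, e2⟩, e3⟩, e4⟩, e5⟩, hε⟩ := (((((ev_small 1 hν).and
    (ev_small 1 (show 0 < s ^ 2 by positivity))).and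
    (ev_small (2 / (s ^ 2) ^ 2 * (132 * L ^ 2))
      (show 0 < ((s ^ 2) ^ 3 / (24 * L)) ^ 2 by positivity))).and
    (ev_small (100 * L) (show 0 < (s ^ 2) ^ 2 by positivity))).and
    (ev_small (26 / s ^ 20 * (132 * L ^ 2)) (show 0 < ν / 4 * (s ^ 16) ^ 2 by positivity))).and
    self_mem_nhdsWithin |>.exists
  rw [one_mul] at e1 e2
  refine ⟨ε, hε, e1, fun S _ n _ _ σ u W C hW => ?_⟩
  have hL2 : 1 ≤ L ^ 2 := one_le_pow₀ hL
  have hsL : s ≤ L ^ 2 * s := le_mul_of_one_le_left hs.le hL2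
  have hτ : s ^ 20 / (s ^ 2) ^ 2 = s ^ 16 := by field_simp
  refine C.blocks_aux hW (κ := s ^ 2) (t := s ^ 20) (β := β) (δ := δ) (μ₁ := s ^ 16)
    (by positivity) (by positivity) hβ0 hδ0 (by positivity) hν1 ?_ ?_ e2 ?_ ?_ e4 ?_ ?_ ?_ ?_
  · rw [hβ]
    have : δ ^ 2 ≤ 1 := pow_le_one₀ hδ0.le (by linarith)
    nlinarith
  · linarith [hpow 20 (by norm_num)]
  · have := mul_le_mul_of_nonneg_left (hpow 2 (by norm_num)) (show 0 ≤ L ^ 4 by positivity)
    have h2 : 0 ≤ L ^ 4 * s := by positivity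
    linarith
  · exact le_trans (le_of_eq (by ring)) e3
  · rw [hτ]
    have h1 : 64 * L * (s ^ 16 + 2 * L * (2 * s ^ 16)) ≤ 320 * L ^ 2 * s ^ 16 := by
      have : L * s ^ 16 ≤ L ^ 2 * s ^ 16 :=
        mul_le_mul_of_nonneg_right (by nlinarith) (by positivity)
      linarith
    refine h1.trans ?_
    rw [div_pow, le_div_iff₀ (by positivity)]
    have h2 := mul_le_mul_of_nonneg_left (hpow 4 (by norm_num)) (show 0 ≤ L ^ 4 by positivity)
    have h3 : 12800000 * (L ^ 4 * s ^ 4) ≤ 1 := by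
      have h2 : 0 ≤ L ^ 4 * s := by positivity
      linarith
    calc _ = 12800000 * (L ^ 4 * s ^ 4) * s ^ 12 := by ring
      _ ≤ 1 * s ^ 12 := mul_le_mul_of_nonneg_right h3 (by positivity)
      _ = _ := by ring
  · rw [hτ]
    have h1 := hpow 16 (by norm_num)
    have h2 := mul_le_mul_of_nonneg_left (hpow 2 (by norm_num)) (show 0 ≤ L ^ 2 by positivity)
    linarith
  · have h1 := mul_le_mul_of_nonneg_left (log_one_add_le hs)
      (show 0 ≤ 179 * s ^ 2 / β ^ 2 by positivity)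
    have h2 : 179 * s ^ 2 / β ^ 2 * (20 / s) = 1 / 2 * (7160 / β ^ 2 * s) := by
      field_simp
      ring
    have h3 : 0 ≤ ν * δ ^ 2 := by positivity
    linarith
  · exact le_trans (le_of_eq (by ring)) e5

variable {ν : ℝ}

lemma Ctx.match_blocks (C : Ctx L ε σ u W) (hν : 0 ≤ ν) (hεν : ε ≤ ν)
    (hνL : 200 * (4096 * L ^ 3) * (8 * ν) ≤ 1) {k l : ℕ} {V : Matrix n (Fin k) ℂ}
    {V' : Matrix n (Fin l) ℂ} {x x' : Matrix n n ℂ} (hV : GoodBlock L ν u W V x)
    (hV' : GoodBlock L ν u W V' x') {y : Matrix (Fin k) (Fin l) ℂ} (hy : y ≠ 0)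
    (hen : en (cmp u V) (cmp u V') y ≤ 1 / (200 * (4096 * L ^ 3)) * fr y) :
    ∃ v : Matrix (Fin k) (Fin l) ℂ, ‖v‖ ≤ 1 ∧
      en (cmp u V) (cmp u V') v ≤ 64 * (4096 * L ^ 3) * ν * Real.sqrt k ∧
      fr (1 - v * vᴴ) ≤ 64 * (4096 * L ^ 3) * ν * Real.sqrt k ∧
      fr (1 - vᴴ * v) ≤ 64 * (4096 * L ^ 3) * ν * Real.sqrt k := by
  obtain ⟨a1, a2, a3, a4, -⟩ := hV
  obtain ⟨b1, b2, b3, b4, -⟩ := hV'
  have hL := C.one_le
  have hL3 : 1 ≤ L ^ 3 := one_le_pow₀ hL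
  have ca := cmp_adj C.adj V
  have cb := cmp_adj C.adj V'
  obtain ⟨v, v1, v2, v3, v4⟩ := flatten ca cb (by positivity) (by positivity)
    (le_of_eq (by field_simp)) a4 b4 hy hen
  have hr0 : 0 < Real.sqrt k := by
    rcases Nat.eq_zero_or_pos k with rfl | h
    · exact absurd (Subsingleton.elim _ _) hy
    · positivity
  rw [Fintype.card_fin] at v2 v3 v4
  have e : 8 * (4096 * L ^ 3) * (1 / (200 * (4096 * L ^ 3))) = 1 / 25 := by
    field_simp
    norm_num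
  rw [e] at v3 v4
  have hfv : fr v ≤ Real.sqrt k := by
    simpa using fr_le_of_norm_le_left v1
  have hfv' : 24 / 25 * Real.sqrt k ≤ fr v := by
    have t1 := fr_add_le (1 - v * vᴴ) (v * vᴴ)
    rw [sub_add_cancel, fr_one, Fintype.card_fin] at t1
    have t2 := fr_mul_le_right' v (opNorm_conjTranspose_le_one v1)
    linarith
  have hl : Real.sqrt l ≤ 2 * Real.sqrt k := by
    have t1 := fr_add_le (1 - vᴴ * v) (vᴴ * v)
    rw [sub_add_cancel, fr_one, Fintype.card_fin] at t1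
    have t2 := fr_mul_le_left' (opNorm_conjTranspose_le_one v1) v
    linarith
  have hl' := mul_le_mul_of_nonneg_left hl hν
  generalize Real.sqrt l = r' at *
  have nV := isometry_norm_le a1
  have nV' := isometry_norm_le b1
  have nV1 := opNorm_conjTranspose_le_one nV
  have nV1' := opNorm_conjTranspose_le_one nV'
  obtain ⟨z, -, z2, z3, z4⟩ := C.improve (y := V * v * V'ᴴ) (ν := 2 * ν)
    (γ := 5 * (1 / (200 * (4096 * L ^ 3))) + 3 * ν) (r := Real.sqrt k)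
    (opNorm_mul_le_one (opNorm_mul_le_one nV v1) nV1')
    (by
      rw [← Matrix.mul_assoc, ← Matrix.mul_assoc]
      have t1 := fr_mul_le_right' (W * V * v) nV1'
      have t2 := fr_mul_le_right' (W * V) v1
      have t3 := mul_nonneg hν hr0.le
      linarith)
    (by
      rw [Matrix.mul_assoc]
      have t1 := fr_mul_le_left' (opNorm_mul_le_one nV v1) (V'ᴴ * W)
      rw [← fr_conjTranspose (V'ᴴ * W), conjTranspose_mul, conjTranspose_conjTranspose,
        C.projW.herm] at t1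
      linarith)
    (by
      have t1 := en_mul_le' u (cmp u V') u (opNorm_mul_le_one nV v1) nV1'
      have t2 := en_mul_le' u (cmp u V) (cmp u V') nV v1
      rw [en_conjTranspose C.adj cb] at t1
      linarith)
    ((fr_mul_le_right' _ nV1').trans ((fr_mul_le_left' nV _).trans hfv))
  have c1 : L * (5 * (1 / (200 * (4096 * L ^ 3))) + 3 * ν) + 4 * L ^ 2 * (2 * ν) + 2 * (2 * ν) + ε
      ≤ 2 / 5 := by
    have t1 : L * (5 * (1 / (200 * (4096 * L ^ 3)))) ≤ 1 / 5 := by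
      rw [mul_one_div, ← mul_div_assoc, div_le_iff₀ (by positivity)]
      have : L ≤ L ^ 3 := le_self_pow₀ hL (by norm_num)
      linarith
    have t2 : L * ν ≤ L ^ 3 * ν := mul_le_mul_of_nonneg_right (le_self_pow₀ hL (by norm_num)) hν
    have t3 : L ^ 2 * ν ≤ L ^ 3 * ν :=
      mul_le_mul_of_nonneg_right (pow_le_pow_right₀ hL (by norm_num)) hν
    have t4 : ν ≤ L ^ 3 * ν := le_mul_of_one_le_left hν hL3
    linarith
  replace z3 := z3.trans (mul_le_mul_of_nonneg_right c1 hr0.le)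
  have w1 : fr (Vᴴ * z * V' - v) ≤ 2 / 5 * Real.sqrt k := by
    have : Vᴴ * z * V' - v = Vᴴ * (z - V * v * V'ᴴ) * V' := by
      rw [Matrix.mul_sub, Matrix.sub_mul, Matrix.mul_assoc V, iso_cancel a1, Matrix.mul_assoc v, b1,
        Matrix.mul_one]
    rw [this]
    exact (fr_mul_le_right' _ nV').trans ((fr_mul_le_left' nV1 _).trans z3)
  have w2 : Real.sqrt k ≤ 2 * fr (Vᴴ * z * V') := by
    have t1 := fr_add_le (v - Vᴴ * z * V') (Vᴴ * z * V')
    rw [sub_add_cancel, fr_sub_comm] at t1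
    linarith
  have w3 : en (cmp u V) (cmp u V') (Vᴴ * z * V') ≤ 8 * ν * fr (Vᴴ * z * V') := by
    have t1 := en_mul_le' (cmp u V) u (cmp u V') (opNorm_mul_le_one nV1 z2) nV'
    have t2 := en_mul_le' (cmp u V) u u nV1 z2
    rw [en_conjTranspose C.adj ca] at t2
    have t3 := mul_le_mul_of_nonneg_right hεν hr0.le
    have t4 := mul_le_mul_of_nonneg_left w2 hν
    linarith
  obtain ⟨v', p1, p2, p3, p4⟩ := flatten ca cb (by positivity) (by positivity) hνL a4 b4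
    (x := Vᴴ * z * V') (by
      intro h
      rw [h, fr_zero] at w2
      linarith) w3
  rw [Fintype.card_fin] at p2 p3 p4
  refine ⟨v', p1, p2.trans ?_, p3.trans (le_of_eq (by ring)), p4.trans (le_of_eq (by ring))⟩
  apply mul_le_mul_of_nonneg_right _ hr0.le
  have t4 : ν ≤ L ^ 3 * ν := le_mul_of_one_le_left hν hL3
  linarith

lemma Ctx.classes (C : Ctx L ε σ u W) (hν : 0 ≤ ν) (hεν : ε ≤ ν)
    (hνL : 200 * (4096 * L ^ 3) * (8 * ν) ≤ 1) {I : Type*} [Fintype I] {k : I → ℕ}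
    {V : ∀ i, Matrix n (Fin (k i)) ℂ} {x : I → Matrix n n ℂ}
    (hV : ∀ i, GoodBlock L ν u W (V i) (x i)) :
    ∃ (c : I → I) (v : ∀ i, Matrix (Fin (k i)) (Fin (k (c i))) ℂ),
      (∀ i, ‖v i‖ ≤ 1 ∧
        en (cmp u (V i)) (cmp u (V (c i))) (v i) ≤ 64 * (4096 * L ^ 3) * ν * Real.sqrt (k i) ∧
        fr (1 - v i * (v i)ᴴ) ≤ 64 * (4096 * L ^ 3) * ν * Real.sqrt (k i) ∧
        fr (1 - (v i)ᴴ * v i) ≤ 64 * (4096 * L ^ 3) * ν * Real.sqrt (k i)) ∧
      ∀ i j (y : Matrix (Fin (k (c i))) (Fin (k (c j))) ℂ),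
        ∃ z : Matrix (Fin (k (c i))) (Fin (k (c j))) ℂ,
        (∀ s, cmp u (V (c i)) s * z = z * cmp u (V (c j)) s) ∧
        fr (y - z) ≤ 200 * (4096 * L ^ 3) * en (cmp u (V (c i))) (cmp u (V (c j))) y := by
  classical
  have hL := C.one_le
  let R : I → I → Prop := fun i j => ∃ y : Matrix (Fin (k i)) (Fin (k j)) ℂ, y ≠ 0 ∧
    en (cmp u (V i)) (cmp u (V j)) y ≤ 1 / (200 * (4096 * L ^ 3)) * fr y
  have Rsymm : ∀ i j, R i j → R j i := by
    rintro i j ⟨y, h1, h2⟩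
    refine ⟨yᴴ, by simpa using h1, ?_⟩
    rwa [en_conjTranspose (cmp_adj C.adj _) (cmp_adj C.adj _), fr_conjTranspose]
  obtain ⟨D, hD, hmax⟩ := exists_max_nat {D : Finset I | ∀ p ∈ D, ∀ q ∈ D, p = q ∨ ¬ R p q}
    Finset.card (Fintype.card I) (fun D _ => card_le_univ D) ⟨∅, by simp⟩
  have h1 : ∀ i, ∃ j ∈ D, ∃ v : Matrix (Fin (k i)) (Fin (k j)) ℂ, ‖v‖ ≤ 1 ∧
      en (cmp u (V i)) (cmp u (V j)) v ≤ 64 * (4096 * L ^ 3) * ν * Real.sqrt (k i) ∧
      fr (1 - v * vᴴ) ≤ 64 * (4096 * L ^ 3) * ν * Real.sqrt (k i) ∧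
      fr (1 - vᴴ * v) ≤ 64 * (4096 * L ^ 3) * ν * Real.sqrt (k i) := by
    intro i
    by_cases hi : i ∈ D
    · refine ⟨i, hi, 1, norm_one_le, ?_, ?_, ?_⟩
      · rw [en_one]
        positivity
      · simp only [conjTranspose_one, mul_one, sub_self, fr_zero]
        positivity
      · simp only [conjTranspose_one, mul_one, sub_self, fr_zero]
        positivity
    · have : ∃ j ∈ D, R i j := by
        by_contra hne
        push Not at hne
        have := hmax (insert i D) (by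
          intro p hp q hq
          rcases mem_insert.mp hp with hp' | hp' <;> rcases mem_insert.mp hq with hq' | hq'
          · exact Or.inl (hp'.trans hq'.symm)
          · exact Or.inr (hp' ▸ hne q hq')
          · exact Or.inr (fun h => hne p hp' (hq' ▸ Rsymm _ _ h))
          · exact hD p hp' q hq')
        rw [card_insert_of_notMem hi] at this
        omega
      obtain ⟨j, hj, y, hy, hen⟩ := this
      exact ⟨j, hj, C.match_blocks hν hεν hνL (hV i) (hV j) hy hen⟩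
  choose c hc v hv using h1
  refine ⟨c, v, hv, fun i j => ?_⟩
  have key : ∀ p q, (p = q ∨ ¬ R p q) → ∀ (y : Matrix (Fin (k p)) (Fin (k q)) ℂ),
      ∃ z : Matrix (Fin (k p)) (Fin (k q)) ℂ,
      (∀ s, cmp u (V p) s * z = z * cmp u (V q) s) ∧
        fr (y - z) ≤ 200 * (4096 * L ^ 3) * en (cmp u (V p)) (cmp u (V q)) y := by
    rintro p q (rfl | h) y
    · obtain ⟨α, hα⟩ := (hV p).2.2.2.1 y
      refine ⟨α • 1, fun s => by simp, hα.trans ?_⟩
      apply mul_le_mul_of_nonneg_right _ (en_nonneg _ _ _)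
      have : 0 ≤ L ^ 3 := by positivity
      linarith
    · refine ⟨0, fun s => by simp, ?_⟩
      rw [sub_zero]
      rcases eq_or_ne y 0 with rfl | hy
      · rw [fr_zero, en_zero, mul_zero]
      · have : ¬ (en (cmp u (V p)) (cmp u (V q)) y ≤ 1 / (200 * (4096 * L ^ 3)) * fr y) :=
          fun h' => h ⟨y, hy, h'⟩
        rw [not_le, one_div, inv_mul_lt_iff₀ (by positivity)] at this
        exact this.le
  exact key _ _ (hD _ (hc i) _ (hc j))

end Blocks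

end Pool.Agent.Lib.MP_f81d8e_an.W
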