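import Mathlib
import Pool.Agent.Lib.MP_f81d8e_an.W.Blocks

set_option autoImplicit false
set_option linter.unusedSectionVars false

namespace Pool.Agent.Lib.MP_f81d8e_an.W

open Matrix Finset
open scoped Matrix.Norms.L2Operator ComplexOrder

attribute [local irreducible] fr tr en fc

section Assemble

variable {S : Type*} [Fintype S]

/-- The conclusion of the finite-dimensional structure theorem. -/
def Structured (L K η : ℝ) (σ : Equiv.Perm S) {d : ℕ} (u : S → Matrix (Fin d) (Fin d) ℂ) {m : ℕ}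
    (h : d ≤ m) (b : S → Matrix (Fin m) (Fin m) ℂ) : Prop :=
  (m : ℝ) ≤ (1 + η) * d ∧ AdjClosed σ b ∧
    l2 (fun s => fr (emb (Fin.castLE h) * u s * (emb (Fin.castLE h))ᴴ - b s)) ≤
      5 * L * Real.sqrt (η * d) ∧
    ∀ x : Matrix (Fin m) (Fin m) ℂ, ∃ a : Matrix (Fin m) (Fin m) ℂ, (∀ s, b s * a = a * b s) ∧
      fr (x - a) ≤ K * en b b x + 2 * ‖x‖ * Real.sqrt (η * d)

lemma assemble {L : ℝ} (hL : 1 ≤ L) {σ : Equiv.Perm S} {d : ℕ}
    {u : S → Matrix (Fin d) (Fin d) ℂ} (hu : RC L u) {I : Type} [Fintype I] [DecidableEq I] {k : I → ℕ}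
    {b : ∀ i, S → Matrix (Fin (k i)) (Fin (k i)) ℂ} (hb : ∀ i, RC L (b i))
    (hσ : ∀ i, AdjClosed σ (b i)) {y : ∀ i, Matrix (Fin d) (Fin (k i)) ℂ} {K η : ℝ} (hK : 0 ≤ K)
    (hη : 0 ≤ η) (hη1 : η ≤ 1)
    (hgap : ∀ i j (x : Matrix (Fin (k i)) (Fin (k j)) ℂ),
      ∃ z : Matrix (Fin (k i)) (Fin (k j)) ℂ, (∀ s, b i s * z = z * b j s) ∧
        fr (x - z) ≤ K * en (b i) (b j) x)
    (hcon : ∀ (l : Type) [Fintype l] [DecidableEq l] (w : Matrix l (Fin d) ℂ),
      ∑ i, fr (w * y i) ^ 2 ≤ (1 + η) * fr w ^ 2)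
    (hen : ∑ i, en u (b i) (y i) ^ 2 ≤ η * d) (hfr : (1 - η) * d ≤ ∑ i, fr (y i) ^ 2)
    (hk : ∑ i, (k i : ℝ) ≤ (1 + η) * d) (hk' : (1 - η) * d ≤ ∑ i, (k i : ℝ)) :
    ∃ (m : ℕ) (h : d ≤ m) (B : S → Matrix (Fin m) (Fin m) ℂ), Structured L K η σ u h B := by
  obtain ⟨m, hm⟩ : ∃ m, m = max d (∑ i, k i) := ⟨_, rfl⟩
  have h : d ≤ m := hm ▸ le_max_left _ _
  have hd0 : (0 : ℝ) ≤ η * d := by positivity
  have hmd : (m : ℝ) ≤ (1 + η) * d := by
    rw [hm]
    push_cast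
    exact max_le (by linarith) hk
  have hmk : (m : ℝ) - ∑ i, (k i : ℝ) ≤ η * d := by
    rw [hm]
    push_cast
    rw [sub_le_iff_le_add]
    exact max_le (by linarith) (by linarith)
  obtain ⟨e⟩ : Nonempty ((Σ i, Fin (k i)) ↪ Fin m) := by
    apply Function.Embedding.nonempty_of_card_le
    simp [hm]
  obtain ⟨E, hE⟩ : ∃ E : ∀ i, Matrix (Fin m) (Fin (k i)) ℂ, Orth E := by
    refine ⟨fun i => emb (fun a => e ⟨i, a⟩), fun i => emb_iso ?_, fun i j hij => ?_⟩
    · exact e.injective.comp sigma_mk_injective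
    · rw [emb_conj_mul_emb]
      ext a c
      simp [hij]
  have hJ : (emb (Fin.castLE h))ᴴ * emb (Fin.castLE h) = 1 := emb_iso (Fin.castLE_injective h)
  unfold Structured
  refine ⟨m, h, ?_⟩
  generalize emb (Fin.castLE h) = J at hJ ⊢
  have nJ := isometry_norm_le hJ
  obtain ⟨Y, hY⟩ : ∃ Y, Y = ∑ i, J * y i * (E i)ᴴ := ⟨_, rfl⟩
  have Y1 : fr Y ^ 2 = ∑ i, fr (y i) ^ 2 := by
    rw [hY, hE.fr_sum]
    simp only [fr_isometry_mul hJ]
  have Y2 : fr (Yᴴ * Y) ^ 2 ≤ (1 + η) * fr Y ^ 2 := by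
    have : Yᴴ * Y = ∑ i, Yᴴ * J * y i * (E i)ᴴ := by
      conv_lhs => rw [show Yᴴ * Y = Yᴴ * ∑ i, J * y i * (E i)ᴴ by rw [← hY]]
      simp only [Matrix.mul_sum, Matrix.mul_assoc]
    rw [this, hE.fr_sum]
    refine (hcon _ _).trans (mul_le_mul_of_nonneg_left ?_ (by linarith))
    rw [← fr_conjTranspose Y]
    exact pow_le_pow_left₀ (fr_nonneg _) (fr_mul_le_right' _ nJ) 2
  obtain ⟨U, hU, hU', hUY⟩ := exists_unitary_near Y
  have Y3 : fr (U - Y) ^ 2 ≤ 3 * (η * d) := by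
    refine (pow_le_pow_left₀ (fr_nonneg _) hUY 2).trans ?_
    rw [fr_sub_sq, isProj_one.fr_sq, tr_one, Fintype.card_fin, Matrix.mul_one, tr_conjTranspose,
      ← fr_sq_eq_tr]
    rw [← Y1] at hfr
    have := mul_le_mul_of_nonneg_left hfr (sub_nonneg.mpr hη1)
    have h2 : 0 ≤ η * (η * d) := by positivity
    linarith
  have hF := hE.unitary_mul hU
  refine ⟨fun s => ∑ i, U * E i * b i s * (U * E i)ᴴ, hmd, ?_, ?_, ?_⟩
  · intro s
    simp [conjTranspose_sum, hσ _ s, Matrix.mul_assoc]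
  · obtain ⟨B, hB⟩ : ∃ B : S → Matrix (Fin m) (Fin m) ℂ,
        ∀ s, B s = ∑ i, E i * b i s * (E i)ᴴ := ⟨_, fun _ => rfl⟩
    have e1 : ∀ s, J * u s * Jᴴ - ∑ i, U * E i * b i s * (U * E i)ᴴ =
        (J * u s * Jᴴ * (U - Y) + (J * u s * Jᴴ * Y - Y * B s) - (U - Y) * B s) * Uᴴ := by
      intro s
      have : ∑ i, U * E i * b i s * (U * E i)ᴴ = U * B s * Uᴴ := by
        simp only [hB, Matrix.mul_sum, Matrix.sum_mul, conjTranspose_mul, Matrix.mul_assoc]
      rw [this]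
      simp only [Matrix.mul_sub, Matrix.sub_mul, Matrix.add_mul, Matrix.mul_assoc, hU',
        Matrix.mul_one]
      abel
    have e2 : l2 (fun s => fr (J * u s * Jᴴ * Y - Y * B s)) ≤ Real.sqrt (η * d) := by
      apply l2_le_of_sq_le (Real.sqrt_nonneg _)
      rw [Real.sq_sqrt hd0]
      have : ∀ s, J * u s * Jᴴ * Y - Y * B s =
          ∑ i, J * (u s * y i - y i * b i s) * (E i)ᴴ := by
        intro s
        have t1 : Y * B s = ∑ i, J * (y i * b i s) * (E i)ᴴ := by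
          rw [hB, Matrix.mul_sum]
          apply sum_congr rfl
          intro i _
          rw [← Matrix.mul_assoc, ← Matrix.mul_assoc, hY, hE.sum_mul, Matrix.mul_assoc J]
        rw [t1, hY, Matrix.mul_sum, ← sum_sub_distrib]
        apply sum_congr rfl
        intro i _
        simp only [Matrix.mul_sub, Matrix.sub_mul, Matrix.mul_assoc, iso_cancel hJ]
      simp only [this, hE.fr_sum, fr_isometry_mul hJ]
      rw [sum_comm]
      simpa only [en_sq] using hen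
    have e3 : l2 (fun s => fr ((U - Y) * B s)) ≤ L * fr (U - Y) := by
      apply l2_le_of_sq_le (mul_nonneg hu.nonneg (fr_nonneg _))
      have : ∀ s, fr ((U - Y) * B s) ^ 2 = ∑ i, fr ((U - Y) * E i * b i s) ^ 2 := by
        intro s
        rw [hB, Matrix.mul_sum]
        simp only [← Matrix.mul_assoc]
        rw [hE.fr_sum]
      simp only [this]
      rw [sum_comm, mul_pow]
      refine (sum_le_sum (fun i _ => (hb i).right_sq _)).trans ?_
      rw [← mul_sum]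
      exact mul_le_mul_of_nonneg_left (hE.sum_fr_le _) (sq_nonneg _)
    have e4 := (hu.conj nJ).left (U - Y)
    have e5 : fr (U - Y) ≤ 2 * Real.sqrt (η * d) := by
      apply (pow_le_pow_iff_left₀ (fr_nonneg _) (by positivity) two_ne_zero).mp
      rw [mul_pow, Real.sq_sqrt hd0]
      linarith
    have t1 : l2 (fun s => fr (J * u s * Jᴴ - ∑ i, U * E i * b i s * (U * E i)ᴴ)) ≤
        l2 (fun s => fr (J * u s * Jᴴ * (U - Y)) + fr (J * u s * Jᴴ * Y - Y * B s)) +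
          l2 (fun s => fr ((U - Y) * B s)) := by
      apply l2_le_add (fun _ => fr_nonneg _)
      intro s
      rw [e1, fr_mul_coisometry _ (by simpa using hU)]
      exact (fr_sub_le _ _).trans (add_le_add_left (fr_add_le _ _) _)
    have t2 := l2_add_le (fun s => fr (J * u s * Jᴴ * (U - Y)))
      (fun s => fr (J * u s * Jᴴ * Y - Y * B s))
    have t3 := mul_le_mul_of_nonneg_left e5 hu.nonneg
    have t4 := mul_le_mul_of_nonneg_right hL (Real.sqrt_nonneg (η * d))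
    linarith
  · intro x
    obtain ⟨a, a1, a2⟩ := hF.commutant_gap hK hgap (fun s => rfl) x
    refine ⟨a, a1, a2.trans (add_le_add_right ?_ _)⟩
    apply mul_le_mul_of_nonneg_left _ (by positivity)
    rw [hF.isProj.one_sub.fr_eq, tr_sub, tr_one, hF.tr_proj, Fintype.card_fin]
    exact Real.sqrt_le_sqrt hmk

/-- The finite-dimensional structure theorem. -/
theorem exists_structured {L η : ℝ} (hL : 1 ≤ L) (hη : 0 < η) (hη1 : η ≤ 1) :
    ∃ ε > 0, ∀ (S : Type) [Fintype S] (d : ℕ) (σ : Equiv.Perm S)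
      (u : S → Matrix (Fin d) (Fin d) ℂ) (W : Matrix (Fin d) (Fin d) ℂ), Ctx L ε σ u W → tr W ≤ ε * d →
      ∃ (m : ℕ) (h : d ≤ m) (B : S → Matrix (Fin m) (Fin m) ℂ),
        Structured L (200 * (4096 * L ^ 3)) η σ u h B := by
  classical
  have hL3 : 1 ≤ L ^ 3 := one_le_pow₀ hL
  obtain ⟨ν, hν⟩ : ∃ ν, ν = η / (1600 * (4096 * L ^ 3)) := ⟨_, rfl⟩
  have hν0 : 0 < ν := by rw [hν]; positivity
  obtain ⟨ν', hν'⟩ : ∃ ν', ν' = 64 * (4096 * L ^ 3) * ν := ⟨_, rfl⟩
  have hν'η : ν' = η / 25 := by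
    rw [hν', hν]
    field_simp
    norm_num
  have hνν' : ν ≤ ν' := by
    rw [hν']
    exact le_mul_of_one_le_left hν0.le (by linarith)
  obtain ⟨ε, hε, hεν, H⟩ := exists_blocks hL hν0 (by linarith)
  refine ⟨ε, hε, fun S _ d σ u W C hW => ?_⟩
  obtain ⟨I, k, V, x, hV, hcon, hk1, hk2⟩ := H S (Fin d) σ u W C (by simpa using hW)
  rw [Fintype.card_fin] at hk1 hk2
  obtain ⟨c, v, hv, hgap⟩ := C.classes hν0.le hεν (by linarith) hV
  rw [← hν'] at hv
  have hd0 : (0 : ℝ) ≤ d := Nat.cast_nonneg _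
  have hν'0 : 0 < ν' := by linarith
  have hν'1 : ν' ≤ 1 / 25 := by linarith
  have fv : ∀ i, (1 - ν') * Real.sqrt (k i) ≤ fr (v i) := fun i => by
    obtain ⟨v1, -, v3, -⟩ := hv i
    have t1 := fr_add_le (1 - v i * (v i)ᴴ) (v i * (v i)ᴴ)
    rw [sub_add_cancel, fr_one, Fintype.card_fin] at t1
    have t2 := fr_mul_le_right' (v i) (opNorm_conjTranspose_le_one v1)
    linarith
  have up : ∀ (c : ℝ) (f : I → ℝ), (∀ i, 0 ≤ f i) → (∀ i, f i ≤ c * Real.sqrt (k i)) →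
      ∑ i, f i ^ 2 ≤ c ^ 2 * ((1 + ν') * d) := fun c f h0 h => by
    refine (sum_le_sum (fun i _ => pow_le_pow_left₀ (h0 i) (h i) 2)).trans ?_
    simp only [mul_pow, Real.sq_sqrt (Nat.cast_nonneg _)]
    rw [← mul_sum]
    exact mul_le_mul_of_nonneg_left (hk2.trans (mul_le_mul_of_nonneg_right (by linarith) hd0))
      (sq_nonneg _)
  have down : ∀ (c : ℝ) (f : I → ℝ), 0 ≤ c → (∀ i, c * Real.sqrt (k i) ≤ f i) →
      c ^ 2 * ((1 - ν') * d) ≤ ∑ i, f i ^ 2 := fun c f h0 h => by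
    refine le_trans ?_ (sum_le_sum (fun i _ => pow_le_pow_left₀ (by positivity) (h i) 2))
    simp only [mul_pow, Real.sq_sqrt (Nat.cast_nonneg _)]
    rw [← mul_sum]
    exact mul_le_mul_of_nonneg_left ((mul_le_mul_of_nonneg_right (by linarith) hd0).trans hk1)
      (sq_nonneg _)
  have sq : ∑ i, (k (c i) : ℝ) = ∑ i, Real.sqrt (k (c i)) ^ 2 := by
    simp only [Real.sq_sqrt (Nat.cast_nonneg _)]
  refine assemble hL C.rc (k := fun i => k (c i)) (b := fun i => cmp u (V (c i)))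
    (fun i => C.rc.cmp (hV _).1) (fun i => cmp_adj C.adj _)
    (y := fun i => x i * V i * v i) (by positivity) hη.le hη1 hgap ?_ ?_ ?_ ?_ ?_
  · intro l _ _ w
    refine le_trans ?_ ((hcon l w).trans (mul_le_mul_of_nonneg_right (by linarith) (sq_nonneg _)))
    apply sum_le_sum
    intro i _
    apply pow_le_pow_left₀ (fr_nonneg _)
    rw [← Matrix.mul_assoc, ← Matrix.mul_assoc]
    exact (fr_mul_le_right' _ (hv i).1).trans (fr_mul_le_right' _ (isometry_norm_le (hV i).1))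
  · refine (up (3 * ν') _ (fun i => en_nonneg _ _ _) (fun i => ?_)).trans ?_
    · obtain ⟨a1, a2, -, -, a5, -, a7⟩ := hV i
      have t1 := en_mul_le' u (cmp u (V i)) (cmp u (V (c i)))
        (opNorm_mul_le_one a5 (isometry_norm_le a1)) (hv i).1
      have t2 := en_mul_le' u u (cmp u (V i)) a5 (isometry_norm_le a1)
      have t3 := mul_le_mul_of_nonneg_right hνν' (Real.sqrt_nonneg (k i))
      linarith [(hv i).2.1]
    · rw [← mul_assoc]
      apply mul_le_mul_of_nonneg_right _ hd0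
      nlinarith [mul_pos hν'0 hν'0]
  · refine le_trans ?_ (down (1 - 2 * ν') _ (by linarith) (fun i => ?_))
    · rw [← mul_assoc]
      apply mul_le_mul_of_nonneg_right _ hd0
      nlinarith [mul_pos hν'0 hν'0]
    · obtain ⟨a1, -, -, -, -, a6, -⟩ := hV i
      have t1 := fr_sub_le (x i * V i * v i) ((x i * V i - V i) * v i)
      rw [Matrix.sub_mul, sub_sub_cancel, fr_isometry_mul a1, ← Matrix.sub_mul] at t1
      have t2 := fr_mul_le_right' (x i * V i - V i) (hv i).1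
      have t3 := mul_le_mul_of_nonneg_right hνν' (Real.sqrt_nonneg (k i))
      linarith [fv i]
  · rw [sq]
    refine (up (1 + ν') _ (fun i => Real.sqrt_nonneg _) (fun i => ?_)).trans ?_
    · obtain ⟨v1, -, -, v4⟩ := hv i
      have t1 := fr_add_le (1 - (v i)ᴴ * v i) ((v i)ᴴ * v i)
      rw [sub_add_cancel, fr_one, Fintype.card_fin] at t1
      have t2 := fr_mul_le_left' (opNorm_conjTranspose_le_one v1) (v i)
      have t3 := fr_le_of_norm_le_left v1
      rw [Fintype.card_fin] at t3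
      linarith
    · rw [← mul_assoc]
      apply mul_le_mul_of_nonneg_right _ hd0
      nlinarith [mul_pos hν'0 hν'0]
  · rw [sq]
    refine le_trans ?_ (down (1 - ν') _ (by linarith) (fun i => ?_))
    · rw [← mul_assoc]
      apply mul_le_mul_of_nonneg_right _ hd0
      nlinarith [mul_pos hν'0 hν'0]
    · have t3 := fr_le_of_norm_le_right (hv i).1
      rw [Fintype.card_fin] at t3
      linarith [fv i]

end Assemble

end Pool.Agent.Lib.MP_f81d8e_an.W
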