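import Mathlib
import Pool.Agent.Lib.MP_f81d8e_an.Ultra

set_option autoImplicit false
set_option linter.unusedSectionVars false

namespace Pool.Agent.Lib.MP_f81d8e_an.W

open Matrix Finset Filter Topology
open scoped Matrix.Norms.L2Operator ComplexOrder

attribute [local irreducible] fr tr en fc

section Groth

variable {n : Type*} [Fintype n] [DecidableEq n]

/-- All signed sums of a list of matrices. -/
noncomputable def signs : List (Matrix n n ℂ) → List (Matrix n n ℂ)
  | [] => [0]
  | x :: l => (signs l).map (fun s => s + x) ++ (signs l).map (fun s => s - x)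

lemma signs_herm {l : List (Matrix n n ℂ)} (h : ∀ x ∈ l, xᴴ = x) : ∀ s ∈ signs l, sᴴ = s := by
  induction l with
  | nil => simp [signs]
  | cons x l ih =>
    intro s hs
    have hx := h x (by simp)
    have ih' := ih (fun y hy => h y (by simp [hy]))
    simp only [signs, List.mem_append, List.mem_map] at hs
    rcases hs with ⟨t, ht, rfl⟩ | ⟨t, ht, rfl⟩
    · rw [conjTranspose_add, ih' t ht, hx]
    · rw [conjTranspose_sub, ih' t ht, hx]

lemma signs_length (l : List (Matrix n n ℂ)) : (signs l).length = 2 ^ l.length := by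
  induction l with
  | nil => simp [signs]
  | cons x l ih => simp [signs, ih, pow_succ, mul_two]

lemma fr_par (a b : Matrix n n ℂ) :
    fr (a + b) ^ 2 + fr (a - b) ^ 2 = 2 * fr a ^ 2 + 2 * fr b ^ 2 := by
  rw [fr_add_sq, fr_sub_sq]
  ring

lemma sum_signs_cons (f : Matrix n n ℂ → ℝ) (x : Matrix n n ℂ) (l : List (Matrix n n ℂ)) :
    ((signs (x :: l)).map f).sum = ((signs l).map (fun s => f (s + x) + f (s - x))).sum := by
  simp only [signs, List.map_append, List.sum_append, List.map_map, List.sum_map_add]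
  rfl

lemma sum_signs_add (Q : Matrix n n ℂ →+ Matrix n n ℂ) (l : List (Matrix n n ℂ))
    (c : Matrix n n ℂ) : ((signs l).map (fun s => fr (Q s + c) ^ 2)).sum =
      2 ^ l.length * (fr c ^ 2 + (l.map (fun x => fr (Q x) ^ 2)).sum) := by
  induction l generalizing c with
  | nil => simp [signs]
  | cons x l ih =>
    rw [sum_signs_cons]
    have e1 : ∀ s, Q (s + x) + c = Q s + (c + Q x) := fun s => by rw [map_add]; abel
    have e2 : ∀ s, Q (s - x) + c = Q s + (c - Q x) := fun s => by rw [map_sub]; abel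
    simp only [e1, e2, List.sum_map_add, ih, List.map_cons, List.sum_cons, List.length_cons]
    have := fr_par c (Q x)
    rw [pow_succ]
    linear_combination (2 : ℝ) ^ l.length * this

lemma sum_signs_sq (l : List (Matrix n n ℂ)) (y z : Matrix n n ℂ) :
    ((signs l).map (fun s => fr (s * s * y + z) ^ 2)).sum ≤ 2 ^ l.length *
      (fr ((l.map (fun x => x * x)).sum * y + z) ^ 2 +
        2 * (l.map (fun b => (l.map (fun a => fr (a * (b * y)) ^ 2)).sum)).sum) := by
  induction l generalizing z with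
  | nil => simp [signs]
  | cons x l ih =>
    rw [sum_signs_cons]
    let Q : Matrix n n ℂ →+ Matrix n n ℂ :=
      { toFun := fun s => s * (x * y) + x * (s * y)
        map_zero' := by simp
        map_add' := fun a b => by
          simp only [Matrix.add_mul, Matrix.mul_add]
          abel }
    have e : ∀ s, fr ((s + x) * (s + x) * y + z) ^ 2 + fr ((s - x) * (s - x) * y + z) ^ 2 =
        2 * fr (s * s * y + (x * x * y + z)) ^ 2 + 2 * fr (Q s + 0) ^ 2 := by
      intro s
      rw [add_zero, ← fr_par]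
      congr 3
      · simp only [Q, AddMonoidHom.coe_mk, ZeroHom.coe_mk, Matrix.add_mul, Matrix.mul_add,
          Matrix.mul_assoc]
        abel
      · simp only [Q, AddMonoidHom.coe_mk, ZeroHom.coe_mk, Matrix.sub_mul, Matrix.mul_sub,
          Matrix.mul_assoc]
        abel
    simp only [e, List.sum_map_add, List.sum_map_mul_left, sum_signs_add, List.map_cons,
      List.sum_cons, List.length_cons]
    have t1 := ih (x * x * y + z)
    have e2 : (x * x + (l.map (fun x => x * x)).sum) * y + z =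
        (l.map (fun x => x * x)).sum * y + (x * x * y + z) := by
      rw [Matrix.add_mul]
      abel
    have t2 : (l.map (fun a => fr (Q a) ^ 2)).sum ≤
        2 * (l.map (fun a => fr (a * (x * y)) ^ 2)).sum +
          2 * (l.map (fun b => fr (x * (b * y)) ^ 2)).sum := by
      rw [← List.sum_map_mul_left, ← List.sum_map_mul_left, ← List.sum_map_add]
      exact List.sum_le_sum (fun a _ => fr_add_sq_le _ _)
    have t3 : (0 : ℝ) < 2 ^ l.length := by positivity
    have t4 := mul_le_mul_of_nonneg_left t2 t3.le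
    have t5 := mul_nonneg t3.le (sq_nonneg (fr (x * (x * y))))
    rw [e2, fr_zero, pow_succ (2 : ℝ) l.length]
    nlinarith

/-- Column bound of a list. -/
def Col (s : ℝ) (l : List (Matrix n n ℂ)) : Prop :=
  ∀ y : Matrix n n ℂ, (l.map (fun x => fr (x * y) ^ 2)).sum ≤ s * fr y ^ 2

lemma tr_sum_sq {l : List (Matrix n n ℂ)} (h : ∀ x ∈ l, xᴴ = x) (z y : Matrix n n ℂ) :
    tr (zᴴ * ((l.map (fun x => x * x)).sum * y)) =
      (l.map (fun x => tr ((x * z)ᴴ * (x * y)))).sum := by
  induction l with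
  | nil => simp [tr_zero]
  | cons x l ih =>
    simp only [List.map_cons, List.sum_cons, Matrix.add_mul, Matrix.mul_add, tr_add]
    rw [ih (fun y hy => h y (by simp [hy])), conjTranspose_mul, h x (by simp)]
    simp only [Matrix.mul_assoc]

lemma Col.fourth {s : ℝ} {l : List (Matrix n n ℂ)} (hs : 0 < s) (h : ∀ x ∈ l, xᴴ = x)
    (hc : Col s l) (y : Matrix n n ℂ) :
    ((signs l).map (fun t => fr (t * t * y) ^ 2)).sum ≤ 2 ^ l.length * (3 * s ^ 2 * fr y ^ 2) := by
  have t1 := sum_signs_sq l y 0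
  simp only [add_zero] at t1
  refine t1.trans (mul_le_mul_of_nonneg_left ?_ (by positivity))
  obtain ⟨z, hz⟩ : ∃ z, z = (l.map (fun x => x * x)).sum * y := ⟨_, rfl⟩
  rw [← hz]
  have t2 : 2 * s * fr z ^ 2 ≤ s * fr z ^ 2 + s ^ 2 * (s * fr y ^ 2) := by
    have e := tr_sum_sq h z y
    rw [← hz, ← fr_sq_eq_tr] at e
    have a1 := hc z
    have a2 := mul_le_mul_of_nonneg_left (hc y) (sq_nonneg s)
    refine le_trans ?_ (add_le_add a1 a2)
    rw [e, ← List.sum_map_mul_left, ← List.sum_map_mul_left, ← List.sum_map_add]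
    refine List.sum_le_sum (fun x _ => ?_)
    have := mul_le_mul_of_nonneg_left (tr_mul_le (x * z) (x * y)) hs.le
    nlinarith [sq_nonneg (fr (x * z) - s * fr (x * y))]
  have t3 : fr z ^ 2 ≤ s ^ 2 * fr y ^ 2 := by
    apply le_of_mul_le_mul_left _ hs
    linarith
  have t4 : (l.map (fun b => (l.map (fun a => fr (a * (b * y)) ^ 2)).sum)).sum ≤
      s * (s * fr y ^ 2) := by
    refine (List.sum_le_sum (fun b _ => hc (b * y))).trans ?_
    rw [List.sum_map_mul_left]
    exact mul_le_mul_of_nonneg_left (hc y) hs.le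
  linarith

lemma exists_cut {t : ℝ} (ht : 0 < t) (a : Matrix n n ℂ) : ∃ b : Matrix n n ℂ, aᴴ = a →
    bᴴ = b ∧ ‖b‖ ≤ t ∧ ∀ y : Matrix n n ℂ, fr ((a - b) * y) ≤ 1 / t * fr (a * a * y) := by
  by_cases ha : a.IsHermitian
  · refine ⟨fc ha (clip t), fun _ => ⟨fc_herm _ _, norm_fc_le _ ht.le
      (fun i => abs_clip_le ht.le _), fun y => ?_⟩⟩
    have := fr_fc_mul_dom ha (f := fun x => x - clip t x) (f' := fun x => x * x) (L := 1 / t)
      (by positivity) (fun i => by
        generalize ha.eigenvalues i = x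
        rcases le_total |x| t with h | h
        · rw [clip_of_le h, sub_self, abs_zero]
          positivity
        · have h1 := clip_lip t x 0
          have h2 : |x - clip t x| ≤ |x| := by
            unfold clip
            rcases le_abs.mp h with h | h
            · rw [min_eq_left h, max_eq_right (by linarith), abs_of_nonneg (by linarith),
                abs_of_nonneg (by linarith)]
              linarith
            · rw [min_eq_right (by linarith), max_eq_left (by linarith),
                abs_of_nonpos (by linarith), abs_of_nonpos (by linarith)]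
              linarith
          rw [abs_mul, div_mul_eq_mul_div, le_div_iff₀ ht]
          nlinarith [abs_nonneg x]) y
    rwa [← fc_sub, ← fc_mul, fc_id] at this
  · exact ⟨0, fun h => absurd h ha⟩

lemma groth_step (Ψ : Matrix n n ℂ →+ Matrix n n ℂ) {δ K : ℝ} (hδ0 : 0 ≤ δ)
    (hδ : ∀ x, fr (Ψ x) ≤ δ * ‖x‖)
    (hK : ∀ (l : List (Matrix n n ℂ)) (s : ℝ), 0 < s → (∀ x ∈ l, xᴴ = x) → Col s l →
      (l.map (fun x => fr (Ψ x) ^ 2)).sum ≤ K * s)
    (l : List (Matrix n n ℂ)) (s : ℝ) (hs : 0 < s) (h : ∀ x ∈ l, xᴴ = x) (hc : Col s l) :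
    (l.map (fun x => fr (Ψ x) ^ 2)).sum ≤ (24 * δ ^ 2 + K / 2) * s := by
  obtain ⟨t, ht, ht2⟩ : ∃ t : ℝ, 0 < t ∧ t ^ 2 = 12 * s :=
    ⟨Real.sqrt (12 * s), by positivity, Real.sq_sqrt (by positivity)⟩
  choose cut hcut using exists_cut (n := n) ht
  have hS := signs_herm h
  have t1 := sum_signs_add Ψ l 0
  simp only [add_zero, fr_zero, ne_eq, OfNat.ofNat_ne_zero, not_false_eq_true, zero_pow,
    zero_add] at t1
  have hp : (0 : ℝ) < 2 ^ l.length := by positivity
  have t2 := hK ((signs l).map (fun a => a - cut a)) (2 ^ l.length * (s / 4)) (by positivity)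
    (by
      intro x hx
      obtain ⟨a, ha, rfl⟩ := List.mem_map.mp hx
      rw [conjTranspose_sub, hS a ha, (hcut a (hS a ha)).1])
    (by
      intro y
      rw [List.map_map]
      have a1 : ((signs l).map ((fun x => fr (x * y) ^ 2) ∘ fun a => a - cut a)).sum ≤
          ((signs l).map (fun a => (1 / t) ^ 2 * fr (a * a * y) ^ 2)).sum := by
        refine List.sum_le_sum (fun a ha => ?_)
        rw [← mul_pow]
        exact pow_le_pow_left₀ (fr_nonneg _) ((hcut a (hS a ha)).2.2 y) 2
      rw [List.sum_map_mul_left] at a1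
      refine a1.trans ((mul_le_mul_of_nonneg_left (hc.fourth hs h y) (sq_nonneg _)).trans
        (le_of_eq ?_))
      rw [div_pow, ht2]
      field_simp
      ring)
  rw [List.map_map] at t2
  have t3 : ((signs l).map (fun a => fr (Ψ a) ^ 2)).sum ≤
      ((signs l).map (fun a => 2 * (δ * t) ^ 2 +
        2 * ((fun x => fr (Ψ x) ^ 2) ∘ fun a => a - cut a) a)).sum := by
    refine List.sum_le_sum (fun a ha => ?_)
    have a1 := fr_add_sq_le (Ψ (cut a)) (Ψ (a - cut a))
    rw [← map_add, add_sub_cancel] at a1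
    have a2 := pow_le_pow_left₀ (fr_nonneg _) ((hδ (cut a)).trans
      (mul_le_mul_of_nonneg_left (hcut a (hS a ha)).2.1 hδ0)) 2
    simp only [Function.comp_apply]
    linarith
  rw [List.sum_map_add, List.sum_map_mul_left _ ((fun x => fr (Ψ x) ^ 2) ∘ fun a => a - cut a),
    List.map_const', List.sum_replicate, signs_length, t1, mul_pow, ht2, nsmul_eq_mul] at t3
  push_cast at t3
  apply le_of_mul_le_mul_left _ hp
  nlinarith

/-- The little Grothendieck inequality for matrices, in the form of families. -/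
lemma groth (Ψ : Matrix n n ℂ →+ Matrix n n ℂ) {δ C : ℝ} (hδ0 : 0 ≤ δ)
    (hδ : ∀ x, fr (Ψ x) ≤ δ * ‖x‖) (hC : ∀ x, fr (Ψ x) ≤ C * fr x)
    (l : List (Matrix n n ℂ)) (s : ℝ) (hs : 0 < s) (h : ∀ x ∈ l, xᴴ = x) (hc : Col s l) :
    (l.map (fun x => fr (Ψ x) ^ 2)).sum ≤ 48 * δ ^ 2 * s := by
  have key : ∀ j : ℕ, ∀ (l : List (Matrix n n ℂ)) (s : ℝ), 0 < s → (∀ x ∈ l, xᴴ = x) → Col s l →
      (l.map (fun x => fr (Ψ x) ^ 2)).sum ≤
        (48 * δ ^ 2 + C ^ 2 * fr (1 : Matrix n n ℂ) ^ 2 * (1 / 2) ^ j) * s := by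
    intro j
    induction j with
    | zero =>
      intro l s hs _ hc
      have a1 : (l.map (fun x => fr (Ψ x) ^ 2)).sum ≤
          (l.map (fun x => C ^ 2 * fr (x * 1) ^ 2)).sum := by
        refine List.sum_le_sum (fun x _ => ?_)
        rw [← mul_pow, Matrix.mul_one]
        exact pow_le_pow_left₀ (fr_nonneg _) (hC x) 2
      rw [List.sum_map_mul_left] at a1
      have a2 := mul_le_mul_of_nonneg_left (hc 1) (sq_nonneg C)
      have a3 : 0 ≤ δ ^ 2 * s := by positivity
      nlinarith
    | succ j ih =>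
      intro l s hs h hc
      refine (groth_step Ψ hδ0 hδ ih l s hs h hc).trans (le_of_eq ?_)
      ring
  have lim : Tendsto (fun j : ℕ => (48 * δ ^ 2 + C ^ 2 * fr (1 : Matrix n n ℂ) ^ 2 * (1 / 2) ^ j) * s)
      atTop (𝓝 ((48 * δ ^ 2 + C ^ 2 * fr (1 : Matrix n n ℂ) ^ 2 * 0) * s)) :=
    (((tendsto_pow_atTop_nhds_zero_of_lt_one (by norm_num) (by norm_num)).const_mul _).const_add
      _).mul_const _
  have := ge_of_tendsto' lim (fun j => key j l s hs h hc)
  simpa using this

lemma fr_mul_le (x y : Matrix n n ℂ) : fr (x * y) ≤ fr x * fr y := by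
  apply (pow_le_pow_iff_left₀ (fr_nonneg _) (mul_nonneg (fr_nonneg _) (fr_nonneg _))
    two_ne_zero).mp
  rw [mul_pow, fr_sq, fr_sq, fr_sq, sum_comm (f := fun i j => ‖y i j‖ ^ 2), sum_mul_sum]
  refine sum_le_sum (fun i _ => sum_le_sum (fun j _ => ?_))
  rw [mul_apply]
  refine (pow_le_pow_left₀ (norm_nonneg _) (norm_sum_le _ _) 2).trans ?_
  simp only [norm_mul]
  exact sum_mul_sq_le_sq_mul_sq _ _ _

lemma psd_sum_sq {l : List (Matrix n n ℂ)} (h : ∀ x ∈ l, xᴴ = x) :
    (l.map (fun x => x * x)).sum.PosSemidef := by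
  induction l with
  | nil => simpa using PosSemidef.zero
  | cons x l ih =>
    simp only [List.map_cons, List.sum_cons]
    refine PosSemidef.add ?_ (ih (fun y hy => h y (by simp [hy])))
    have := posSemidef_conjTranspose_mul_self x
    rwa [h x (by simp)] at this

lemma tr_high_le {A : Matrix n n ℂ} (hA : A.PosSemidef) : tr (high hA 1) ≤ tr A := by
  rw [tr_eq_sum hA.1]
  unfold high
  rw [tr_fc]
  apply sum_le_sum
  intro i _
  unfold ind
  split_ifs with h
  · exact h.le
  · exact hA.eigenvalues_nonneg i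

lemma Col.cons {l : List (Matrix n n ℂ)} (h : ∀ x ∈ l, xᴴ = x) (hc : Col 2 l)
    {x : Matrix n n ℂ} (hx : fr x ≤ 1) (hW : x * high (psd_sum_sq h) 1 = 0) : Col 2 (x :: l) := by
  intro y
  have hP := isProj_high (psd_sum_sq h) 1
  have e : ∀ z : Matrix n n ℂ, (l.map (fun x => fr (x * z) ^ 2)).sum =
      tr (zᴴ * ((l.map (fun x => x * x)).sum * z)) := fun z => by
    rw [tr_sum_sq h]
    simp only [fr_sq_eq_tr]
  have hA := psd_sum_sq h
  have t1 := hc (high hA 1 * y)
  rw [e] at t1
  simp only [List.map_cons, List.sum_cons]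
  rw [e]
  change x * high hA 1 = 0 at hW
  change IsProj (high hA 1) at hP
  generalize (l.map (fun x => x * x)).sum = A at hA hW hP t1 ⊢
  have c1 : A * high hA 1 = high hA 1 * A := by
    have e1 := fc_mul hA.1 (fun x => x) (fun x => ind 1 x)
    have e2 := fc_mul hA.1 (fun x => ind 1 x) (fun x => x)
    rw [fc_id] at e1 e2
    unfold high
    rw [e1, e2]
    simp only [mul_comm]
  have c2 : ‖A * (1 - high hA 1)‖ ≤ 1 := by
    have : A * (1 - high hA 1) = fc hA.1 (fun t => t * (1 - ind 1 t)) := by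
      rw [← fc_mul, ← fc_sub, fc_one, fc_id]
      rfl
    rw [this]
    apply norm_fc_le _ zero_le_one
    intro i
    unfold ind
    split_ifs with h
    · simp
    · rw [sub_zero, mul_one, abs_of_nonneg (hA.eigenvalues_nonneg i)]
      exact not_lt.mp h
  generalize high hA 1 = W at hW hP t1 c1 c2
  have hQ := hP.one_sub
  have c3 : A * (1 - W) = (1 - W) * (A * (1 - W)) * (1 - W) := by
    have : A * (1 - W) = (1 - W) * A := by rw [Matrix.mul_sub, Matrix.sub_mul, c1]; simp
    rw [Matrix.mul_assoc, Matrix.mul_assoc, hQ.idem, this, ← Matrix.mul_assoc, hQ.idem]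
  have c4 : A * W = W * (A * W) := by rw [c1, ← Matrix.mul_assoc, hP.idem]
  have t2 : tr (yᴴ * (A * y)) = tr ((W * y)ᴴ * (A * (W * y))) +
      tr (((1 - W) * y)ᴴ * (A * (1 - W) * ((1 - W) * y))) := by
    rw [← tr_add]
    congr 1
    have : A = A * W + A * (1 - W) := by rw [← Matrix.mul_add]; simp
    conv_lhs => rw [this, c3, c4]
    simp only [conjTranspose_mul, hP.herm, hQ.herm, Matrix.add_mul, Matrix.mul_add,
      Matrix.mul_assoc]
  have t3 : tr (((1 - W) * y)ᴴ * (A * (1 - W) * ((1 - W) * y))) ≤ fr ((1 - W) * y) ^ 2 := by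
    refine (tr_mul_le _ _).trans ?_
    rw [sq]
    exact mul_le_mul_of_nonneg_left (fr_mul_le_left' c2 _) (fr_nonneg _)
  have t4 : fr (x * y) ≤ fr ((1 - W) * y) := by
    have : x * y = x * ((1 - W) * y) := by
      rw [← Matrix.mul_assoc, Matrix.mul_sub, hW]
      simp
    rw [this]
    refine (fr_mul_le _ _).trans (mul_le_of_le_one_left (fr_nonneg _) hx)
  have t5 := pow_le_pow_left₀ (fr_nonneg _) t4 2
  have t6 := hP.fr_sq_split_left y
  linarith

/-- A map of small norm from the operator norm to the Hilbert-Schmidt norm is small on the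
Hilbert-Schmidt space off a small corner. -/
lemma exists_corner (Ψ : Matrix n n ℂ →ₗ[ℂ] Matrix n n ℂ) {δ C ε θ : ℝ} (hδ0 : 0 ≤ δ)
    (hδ : ∀ x, fr (Ψ x) ≤ δ * Real.sqrt (Fintype.card n) * ‖x‖) (hC : ∀ x, fr (Ψ x) ≤ C * fr x)
    (hε : 0 < ε) (hε1 : ε ≤ 1) (hθ : 0 < θ) (h : 96 * δ ^ 2 ≤ θ ^ 2 * ε) :
    ∃ W : Matrix n n ℂ, IsProj W ∧ tr W ≤ ε * Fintype.card n ∧
      ∀ x, W * x = 0 → x * W = 0 → fr (Ψ x) ≤ 2 * θ * fr x := by
  by_contra hneg
  push Not at hneg
  have bad : ∀ W : Matrix n n ℂ, IsProj W → tr W ≤ ε * Fintype.card n →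
      ∃ x : Matrix n n ℂ, xᴴ = x ∧ x * W = 0 ∧ fr x ^ 2 = ε ∧ θ ^ 2 * ε ≤ fr (Ψ x) ^ 2 := by
    intro W hW hWt
    obtain ⟨x, h1, h2, h3⟩ := hneg W hW hWt
    have h1' : xᴴ * W = 0 := by simpa [hW.herm] using congrArg conjTranspose h1
    obtain ⟨y, y1, y2, y3⟩ : ∃ y : Matrix n n ℂ, yᴴ = y ∧ y * W = 0 ∧ θ * fr y < fr (Ψ y) := by
      by_contra hn
      push Not at hn
      have a1 := hn (hre x) (hre_herm x) (by simp [hre, Matrix.add_mul, h1', h2])
      have a2 := hn (him x) (him_herm x) (by simp [him, Matrix.sub_mul, h1', h2])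
      have a3 := fr_add_le (Ψ (hre x)) (Complex.I • Ψ (him x))
      rw [fr_smul, Complex.norm_I, one_mul, ← map_smul, ← map_add, hre_add_him] at a3
      have a4 := mul_le_mul_of_nonneg_left (fr_hre_le x) hθ.le
      have a5 := mul_le_mul_of_nonneg_left (fr_him_le x) hθ.le
      linarith
    have y0 : 0 < fr y := fr_pos (by
      rintro rfl
      simp [fr_zero] at y3)
    refine ⟨((Real.sqrt ε / fr y : ℝ) : ℂ) • y, ?_, ?_, ?_, ?_⟩
    · rw [conjTranspose_smul, y1, RCLike.star_def, Complex.conj_ofReal]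
    · rw [Matrix.smul_mul, y2, smul_zero]
    · rw [fr_smul_real, mul_pow, sq_abs, div_pow, Real.sq_sqrt hε.le]
      field_simp
    · rw [map_smul, fr_smul_real, mul_pow, sq_abs, div_pow, Real.sq_sqrt hε.le,
        div_mul_eq_mul_div, le_div_iff₀ (by positivity)]
      have := pow_le_pow_left₀ (by positivity) y3.le 2
      nlinarith
  have key : ∀ j : ℕ, j ≤ Fintype.card n + 1 → ∃ l : List (Matrix n n ℂ), (∀ x ∈ l, xᴴ = x) ∧
      Col 2 l ∧ (l.map (fun x => fr x ^ 2)).sum = j * ε ∧
      j * (θ ^ 2 * ε) ≤ (l.map (fun x => fr (Ψ x) ^ 2)).sum := by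
    intro j
    induction j with
    | zero => exact fun _ => ⟨[], by simp, fun y => by simpa using sq_nonneg (fr y), by simp,
        by simp⟩
    | succ j ih =>
      intro hj
      obtain ⟨l, l1, l2, l3, l4⟩ := ih (by omega)
      have hj' : (j : ℝ) ≤ Fintype.card n := by exact_mod_cast (by omega : j ≤ Fintype.card n)
      obtain ⟨x, x1, x2, x3, x4⟩ := bad _ (isProj_high (psd_sum_sq l1) 1) (by
        refine (tr_high_le _).trans ?_
        have e := tr_sum_sq l1 1 1
        simp only [conjTranspose_one, Matrix.mul_one, Matrix.one_mul, ← fr_sq_eq_tr] at e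
        rw [e, l3]
        nlinarith)
      refine ⟨x :: l, ?_, l2.cons l1 ?_ x2, ?_, ?_⟩
      · intro y hy
        rcases List.mem_cons.mp hy with rfl | hy
        · exact x1
        · exact l1 y hy
      · exact (sq_le_one_iff₀ (fr_nonneg _)).mp (x3.trans_le hε1)
      · simp only [List.map_cons, List.sum_cons, x3, l3]
        push_cast
        ring
      · simp only [List.map_cons, List.sum_cons]
        push_cast
        linarith
  obtain ⟨l, l1, l2, -, l4⟩ := key _ le_rfl
  have t1 := groth Ψ.toAddMonoidHom (by positivity) hδ hC l 2 two_pos l1 l2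
  rw [mul_pow, Real.sq_sqrt (Nat.cast_nonneg _)] at t1
  have t2 := mul_le_mul_of_nonneg_left h (Nat.cast_nonneg (α := ℝ) (Fintype.card n))
  have t3 : 0 < θ ^ 2 * ε := by positivity
  push_cast at l4
  simp only [LinearMap.toAddMonoidHom_coe] at t1
  linarith

end Groth

end Pool.Agent.Lib.MP_f81d8e_an.W
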