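import Mathlib
import Pool.Agent.Lib.MP_f81d8e_an.W.Assemble
import Pool.Agent.Lib.MP_f81d8e_an.W.Groth

set_option autoImplicit false
set_option linter.unusedSectionVars false

namespace Pool.Agent.Lib.MP_f81d8e_an.W

open Matrix Finset Filter Topology
open scoped Matrix.Norms.L2Operator ComplexOrder

attribute [local irreducible] fr tr en fc

section Mix

variable {n : Type*} [Fintype n] [DecidableEq n]

/-- Symmetric averages of unitary conjugations. -/
def IsMix (Φ : Module.End ℂ (Matrix n n ℂ)) : Prop :=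
  ∃ (S : Type) (_ : Fintype S) (σ : Equiv.Perm S) (p : S → ℝ) (w : S → Matrix n n ℂ),
    (∀ s, 0 ≤ p s) ∧ ∑ s, p s = 1 ∧ (∀ s, (w s)ᴴ * w s = 1) ∧ (∀ s, p (σ s) = p s) ∧
    (∀ s, w (σ s) = (w s)ᴴ) ∧ ∀ x, Φ x = ∑ s, (p s : ℂ) • (w s * x * (w s)ᴴ)

variable {Φ T : Module.End ℂ (Matrix n n ℂ)}

lemma isMix_one : IsMix (1 : Module.End ℂ (Matrix n n ℂ)) :=
  ⟨Unit, inferInstance, 1, fun _ => 1, fun _ => 1, fun _ => zero_le_one, by simp, by simp, by simp,
    by simp, by simp⟩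

lemma IsMix.sandwich (hT : IsMix T) (hΦ : IsMix Φ) : IsMix (T * Φ * T) := by
  obtain ⟨S, _, σ, p, w, p0, p1, hw, pσ, wσ, hT⟩ := hT
  obtain ⟨S', _, σ', p', w', p0', p1', hw', pσ', wσ', hΦ⟩ := hΦ
  refine ⟨S × S' × S, inferInstance,
    ⟨fun t => (σ t.2.2, σ' t.2.1, σ t.1), fun t => (σ.symm t.2.2, σ'.symm t.2.1, σ.symm t.1),
      fun t => by simp, fun t => by simp⟩,
    fun t => p t.1 * (p' t.2.1 * p t.2.2), fun t => w t.1 * (w' t.2.1 * w t.2.2),
    fun t => mul_nonneg (p0 _) (mul_nonneg (p0' _) (p0 _)), ?_, fun t => ?_, fun t => ?_,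
    fun t => ?_, fun x => ?_⟩
  · simp only [Fintype.sum_prod_type, ← mul_sum, p1, p1', mul_one]
  · simp only [conjTranspose_mul, Matrix.mul_assoc, iso_cancel (hw _), iso_cancel (hw' _), hw]
  · simp only [Equiv.coe_fn_mk, pσ, pσ']
    ring
  · simp only [Equiv.coe_fn_mk, wσ, wσ', conjTranspose_mul, Matrix.mul_assoc]
  · simp only [Module.End.mul_apply, hT, hΦ, Fintype.sum_prod_type, Matrix.mul_sum, Matrix.sum_mul,
      smul_sum, Matrix.mul_smul, Matrix.smul_mul, smul_smul, conjTranspose_mul, Matrix.mul_assoc,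
      Complex.ofReal_mul]

lemma IsMix.pow (hT : IsMix T) (j : ℕ) : IsMix (T ^ j) := by
  induction j using Nat.twoStepInduction with
  | zero => simpa using isMix_one
  | one => simpa using hT
  | more j h _ =>
    have : T ^ (j + 2) = T * T ^ j * T := by rw [pow_succ, pow_succ']
    rw [this]
    exact hT.sandwich h

lemma IsMix.convex {ι : Type} [Fintype ι] {c : ι → ℝ} (c0 : ∀ i, 0 ≤ c i) (c1 : ∑ i, c i = 1)
    {Ψ : ι → Module.End ℂ (Matrix n n ℂ)} (h : ∀ i, IsMix (Ψ i)) :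
    IsMix (∑ i, (c i : ℂ) • Ψ i) := by
  choose S _ σ p w p0 p1 hw pσ wσ hΨ using h
  refine ⟨Σ i, S i, inferInstance, Equiv.sigmaCongrRight σ, fun t => c t.1 * p t.1 t.2,
    fun t => w t.1 t.2, fun t => mul_nonneg (c0 _) (p0 _ _), ?_, fun t => hw _ _, fun t => ?_,
    fun t => ?_, fun x => ?_⟩
  · simp only [Fintype.sum_sigma, ← mul_sum, p1, mul_one, c1]
  · exact congrArg (c t.1 * ·) (pσ t.1 t.2)
  · exact wσ t.1 t.2
  · simp only [LinearMap.sum_apply, LinearMap.smul_apply, hΨ, Fintype.sum_sigma, smul_sum,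
      smul_smul, Complex.ofReal_mul]

lemma fr_conj {w : Matrix n n ℂ} (hw : wᴴ * w = 1) (x : Matrix n n ℂ) :
    fr (w * x * wᴴ) = fr x := by
  rw [fr_mul_coisometry _ (by simpa using hw), fr_isometry_mul hw]

lemma fr_conj_sub {w : Matrix n n ℂ} (hw : wᴴ * w = 1) (x : Matrix n n ℂ) :
    fr (w * x * wᴴ - x) = fr (w * x - x * w) := by
  rw [← fr_mul_coisometry (w * x - x * w) (v := wᴴ) (by simpa using hw), Matrix.sub_mul,
    Matrix.mul_assoc x, mul_eq_one_comm.mp hw, Matrix.mul_one]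

lemma fr_sum_le {ι : Type*} (s : Finset ι) (f : ι → Matrix n n ℂ) :
    fr (∑ i ∈ s, f i) ≤ ∑ i ∈ s, fr (f i) :=
  le_sum_of_subadditive fr fr_zero.le fr_add_le s f

lemma IsMix.fr_le (h : IsMix Φ) (x : Matrix n n ℂ) : fr (Φ x) ≤ fr x := by
  obtain ⟨S, _, σ, p, w, p0, p1, hw, -, -, hΦ⟩ := h
  rw [hΦ]
  refine (fr_sum_le _ _).trans (le_of_eq ?_)
  simp only [fr_smul_real, fr_conj (hw _), abs_of_nonneg (p0 _), ← sum_mul, p1, one_mul]

lemma IsMix.norm_le (h : IsMix Φ) (x : Matrix n n ℂ) : ‖Φ x‖ ≤ ‖x‖ := by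
  obtain ⟨S, _, σ, p, w, p0, p1, hw, -, -, hΦ⟩ := h
  rw [hΦ]
  refine (norm_sum_le _ _).trans ?_
  calc _ ≤ ∑ s, p s * ‖x‖ := by
        apply sum_le_sum
        intro s _
        rw [norm_smul, Complex.norm_real, Real.norm_of_nonneg (p0 s)]
        apply mul_le_mul_of_nonneg_left _ (p0 s)
        have n1 := isometry_norm_le (hw s)
        refine (l2_opNorm_mul _ _).trans ((mul_le_of_le_one_right (norm_nonneg _)
          (opNorm_conjTranspose_le_one n1)).trans ?_)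
        exact (l2_opNorm_mul _ _).trans (mul_le_of_le_one_left (norm_nonneg _) n1)
    _ = _ := by rw [← sum_mul, p1, one_mul]

lemma IsMix.herm (h : IsMix Φ) {x : Matrix n n ℂ} (hx : xᴴ = x) : (Φ x)ᴴ = Φ x := by
  obtain ⟨S, _, σ, p, w, -, -, -, -, -, hΦ⟩ := h
  simp [hΦ, conjTranspose_sum, conjTranspose_smul, hx, Matrix.mul_assoc]

lemma tr_sub_conj {w : Matrix n n ℂ} (hw : wᴴ * w = 1) (x : Matrix n n ℂ) :
    2 * tr (xᴴ * (x - w * x * wᴴ)) = fr (w * x - x * w) ^ 2 := by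
  rw [← fr_conj_sub hw, fr_sub_comm, fr_sub_sq, fr_conj hw, Matrix.mul_sub, tr_sub, ← fr_sq_eq_tr]
  ring

lemma IsMix.kraus (h : IsMix Φ) : ∃ (S : Type) (_ : Fintype S) (σ : Equiv.Perm S)
    (K : S → Matrix n n ℂ), AdjClosed σ K ∧ RC 1 K ∧
      (∀ x, en K K x ^ 2 = 2 * tr (xᴴ * (x - Φ x))) ∧ ∀ x, fr (Φ x - x) ≤ en K K x := by
  obtain ⟨S, _, σ, p, w, p0, p1, hw, pσ, wσ, hΦ⟩ := h
  have e : ∀ s (x : Matrix n n ℂ), fr (((Real.sqrt (p s) : ℝ) : ℂ) • w s * x -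
      x * ((Real.sqrt (p s) : ℝ) : ℂ) • w s) = Real.sqrt (p s) * fr (w s * x - x * w s) := by
    intro s x
    rw [Matrix.smul_mul, Matrix.mul_smul, ← smul_sub, fr_smul_real,
      abs_of_nonneg (Real.sqrt_nonneg _)]
  have e2 : ∀ x : Matrix n n ℂ, x - Φ x = ∑ s, (p s : ℂ) • (x - w s * x * (w s)ᴴ) := by
    intro x
    simp only [smul_sub, sum_sub_distrib, ← hΦ, ← sum_smul, ← Complex.ofReal_sum, p1]
    simp
  refine ⟨S, inferInstance, σ, fun s => ((Real.sqrt (p s) : ℝ) : ℂ) • w s, fun s => ?_,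
    ⟨zero_le_one, fun x => le_of_eq ?_, fun x => le_of_eq ?_⟩, fun x => ?_, fun x => ?_⟩
  · simp only [pσ, wσ, conjTranspose_smul, RCLike.star_def, Complex.conj_ofReal]
  · simp only [Matrix.smul_mul, fr_smul_real, fr_isometry_mul (hw _), mul_pow, sq_abs,
      Real.sq_sqrt (p0 _), ← sum_mul, p1, one_pow]
  · simp only [conjTranspose_smul, RCLike.star_def, Complex.conj_ofReal, Matrix.smul_mul,
      fr_smul_real, ← wσ, fr_isometry_mul (hw _), mul_pow, sq_abs,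
      Real.sq_sqrt (p0 _), ← sum_mul, p1, one_pow]
  · rw [en_sq, e2, Matrix.mul_sum, tr_sum, mul_sum]
    refine sum_congr rfl (fun s _ => ?_)
    rw [e, mul_pow, Real.sq_sqrt (p0 _), Matrix.mul_smul, tr_smul, ← tr_sub_conj (hw s)]
    ring
  · rw [fr_sub_comm, e2]
    refine (fr_sum_le _ _).trans ?_
    have := Real.sum_mul_le_sqrt_mul_sqrt (univ : Finset S) (fun s => Real.sqrt (p s))
      (fun s => Real.sqrt (p s) * fr (w s * x - x * w s))
    simp only [Real.sq_sqrt (p0 _), p1, Real.sqrt_one, one_mul] at this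
    unfold en l2
    simp only [e]
    refine le_trans (le_of_eq (sum_congr rfl (fun s _ => ?_))) this
    rw [fr_smul_real, abs_of_nonneg (p0 s), fr_sub_comm, fr_conj_sub (hw s), ← mul_assoc,
      Real.mul_self_sqrt (p0 s)]

lemma fr_le_scale (Ψ : Module.End ℂ (Matrix n n ℂ)) {c : ℝ}
    (h : ∀ y, ‖y‖ ≤ 1 → fr (Ψ y) ≤ c) (y : Matrix n n ℂ) : fr (Ψ y) ≤ c * ‖y‖ := by
  rcases eq_or_ne y 0 with rfl | hy
  · simp [fr_zero]
  have h0 := norm_pos_iff.mpr hy
  have := h (((‖y‖⁻¹ : ℝ) : ℂ) • y) (by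
    rw [norm_smul, Complex.norm_real, norm_inv, norm_norm, inv_mul_cancel₀ h0.ne'])
  rwa [map_smul, fr_smul_real, abs_of_pos (inv_pos.mpr h0), inv_mul_le_iff₀ h0, mul_comm] at this

end Mix

section Algebra

/-- Almost idempotent symmetric averages of unitary conjugations are close to conditional
expectations. -/
theorem exists_algebra {η : ℝ} (hη : 0 < η) (hη1 : η ≤ 1) :
    ∃ δ > 0, ∀ (d : ℕ) (Φ : Module.End ℂ (Matrix (Fin d) (Fin d) ℂ)), IsMix Φ →
      (∀ y, ‖y‖ ≤ 1 → fr (Φ (Φ y) - Φ y) ≤ δ * Real.sqrt d) →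
      ∃ (m : ℕ) (A : StarSubalgebra ℂ (Matrix (Fin m) (Fin m) ℂ)), d ≤ m ∧ (m : ℝ) ≤ (1 + η) * d ∧
        (∀ a ∈ A, fr (Φ (resize d a) - resize d a) ≤ 10 * ‖a‖ * Real.sqrt (η * d)) ∧
        ∀ (x : Matrix (Fin m) (Fin m) ℂ) (C : ℝ), ‖x‖ ≤ C → ∃ a ∈ A, ‖a‖ ≤ 2 * C ∧
          fr (x - a) ≤ 30000000 * (Real.sqrt (2 * C * Real.sqrt d *
            fr (Φ (resize d x) - resize d x)) + C * Real.sqrt (η * d)) := by
  obtain ⟨ε₀, hε₀, H⟩ := exists_structured le_rfl hη hη1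
  obtain ⟨ε, hε, hε1, hεε⟩ : ∃ ε : ℝ, 0 < ε ∧ ε ≤ 1 ∧ ε ≤ ε₀ :=
    ⟨min 1 ε₀, by positivity, min_le_left _ _, min_le_right _ _⟩
  refine ⟨ε ^ 3 / 40, by positivity, fun d Φ hΦ hδ => ?_⟩
  obtain ⟨S, _, σ, K, hσ, hK, e1, e2⟩ := hΦ.kraus
  obtain ⟨W, hW, hWt, hWx⟩ := exists_corner (Φ - Φ * Φ) (δ := ε ^ 3 / 40) (C := 2) (ε := ε)
    (θ := ε ^ 2 / 4) (by positivity)
    (fr_le_scale _ (fun y hy => by
      rw [Fintype.card_fin, LinearMap.sub_apply, Module.End.mul_apply, fr_sub_comm]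
      exact hδ y hy))
    (fun x => by
      rw [LinearMap.sub_apply, Module.End.mul_apply]
      linarith [fr_sub_le (Φ x) (Φ (Φ x)), hΦ.fr_le x, hΦ.fr_le (Φ x)])
    hε hε1 (by positivity) (by
      have : ε ^ 6 ≤ ε ^ 5 := pow_le_pow_of_le_one hε.le hε1 (by norm_num)
      have h5 : 0 ≤ ε ^ 5 := by positivity
      nlinarith)
  rw [Fintype.card_fin] at hWt
  obtain ⟨m, h, B, hm, hB, hc, hg⟩ := H S d σ K W ⟨hσ, hK, hW, le_rfl, hε₀.le, fun x h1 h2 =>
    ⟨Φ x, hΦ.herm, hΦ.norm_le x, by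
      have := mul_nonneg hε₀.le (fr_nonneg x)
      linarith [e2 x], by
      refine le_trans ?_ (mul_le_mul_of_nonneg_right hεε (fr_nonneg x))
      apply (pow_le_pow_iff_left₀ (en_nonneg _ _ _) (mul_nonneg hε.le (fr_nonneg _))
        two_ne_zero).mp
      have t1 := hWx x h1 h2
      rw [LinearMap.sub_apply, Module.End.mul_apply] at t1
      have t2 := mul_le_mul (hΦ.fr_le x) t1 (fr_nonneg _) (fr_nonneg _)
      rw [e1]
      linarith [tr_mul_le (Φ x) (Φ x - Φ (Φ x))]⟩⟩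
    (hWt.trans (mul_le_mul_of_nonneg_right hεε (Nat.cast_nonneg _)))
  have hJ : (emb (Fin.castLE h))ᴴ * emb (Fin.castLE h) = 1 := emb_iso (Fin.castLE_injective h)
  have hr : ∀ a : Matrix (Fin m) (Fin m) ℂ,
      resize d a = (emb (Fin.castLE h))ᴴ * a * emb (Fin.castLE h) := fun a => by
    rw [resize_eq, ← corner_eq_emb h, corner_conjTranspose, corner_conjTranspose]
  generalize emb (Fin.castLE h) = J at hJ hc hr
  have nJ := isometry_norm_le hJ
  have nJ' := opNorm_conjTranspose_le_one nJ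
  have comm : ∀ (a : Matrix (Fin m) (Fin m) ℂ) (p q : S → Matrix (Fin m) (Fin m) ℂ),
      en p p a ≤ en q q a + 2 * ‖a‖ * l2 (fun s => fr (p s - q s)) := by
    intro a p q
    rw [← l2_mul _ (by positivity)]
    unfold en
    apply l2_le_add (fun _ => fr_nonneg _)
    intro s
    have : p s * a - a * p s = (q s * a - a * q s) + ((p s - q s) * a - a * (p s - q s)) := by
      simp only [Matrix.mul_sub, Matrix.sub_mul]
      abel
    rw [this]
    have t1 := fr_sub_le ((p s - q s) * a) (a * (p s - q s))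
    have t2 := fr_mul_le_right (p s - q s) a
    have t3 := fr_mul_le_left a (p s - q s)
    linarith [fr_add_le (q s * a - a * q s) ((p s - q s) * a - a * (p s - q s))]
  refine ⟨m, StarSubalgebra.centralizer ℂ (Set.range B), h, hm, fun a ha => ?_, fun x C hC => ?_⟩
  · rw [hr]
    have t1 := comm a (fun s => J * K s * Jᴴ) B
    rw [en_eq_zero_of_commute (fun s =>
      ((StarSubalgebra.mem_centralizer_iff ℂ).mp ha _ ⟨s, rfl⟩).1)] at t1
    have t2 : en K K (Jᴴ * a * J) ≤ en (fun s => J * K s * Jᴴ) (fun s => J * K s * Jᴴ) a := by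
      unfold en
      apply l2_mono (fun _ => fr_nonneg _)
      intro s
      have : K s * (Jᴴ * a * J) - Jᴴ * a * J * K s =
          Jᴴ * (J * K s * Jᴴ * a - a * (J * K s * Jᴴ)) * J := by
        simp only [Matrix.mul_sub, Matrix.sub_mul, Matrix.mul_assoc, iso_cancel hJ, hJ,
          Matrix.mul_one]
      rw [this]
      exact (fr_mul_le_right' _ nJ).trans (fr_mul_le_left' nJ' _)
    have t3 := mul_le_mul_of_nonneg_left hc (show 0 ≤ 2 * ‖a‖ by positivity)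
    linarith [e2 (Jᴴ * a * J)]
  · rw [hr]
    have hC0 : 0 ≤ C := (norm_nonneg _).trans hC
    obtain ⟨a₀, p1, p2⟩ := hg x
    obtain ⟨a, q1, q2, q3⟩ := exists_bounded_commutant hB p1 hC
    refine ⟨a, ?_, q2, q3.trans ?_⟩
    · rw [StarSubalgebra.mem_centralizer_iff]
      rintro _ ⟨s, rfl⟩
      refine ⟨q1 s, ?_⟩
      have := q1 (σ s)
      rwa [hB s] at this
    have t1 := comm x B (fun s => J * K s * Jᴴ)
    simp only [fr_sub_comm (B _)] at t1
    have t2 := en_le_add_fr' (hK.conj nJ) (hK.conj nJ) x (J * (Jᴴ * x * J) * Jᴴ)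
    have t3 : en (fun s => J * K s * Jᴴ) (fun s => J * K s * Jᴴ) (J * (Jᴴ * x * J) * Jᴴ) ≤
        en K K (Jᴴ * x * J) := by
      unfold en
      apply l2_mono (fun _ => fr_nonneg _)
      intro s
      have : J * K s * Jᴴ * (J * (Jᴴ * x * J) * Jᴴ) - J * (Jᴴ * x * J) * Jᴴ * (J * K s * Jᴴ) =
          J * (K s * (Jᴴ * x * J) - Jᴴ * x * J * K s) * Jᴴ := by
        simp only [Matrix.mul_sub, Matrix.sub_mul, Matrix.mul_assoc, iso_cancel hJ]
      rw [this]
      exact (fr_mul_le_right' _ nJ').trans (fr_mul_le_left' nJ _)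
    have hP : IsProj (J * Jᴴ) := ⟨by simp, by rw [Matrix.mul_assoc, iso_cancel hJ]⟩
    have t4 : fr (1 - J * Jᴴ) ≤ Real.sqrt (η * d) := by
      rw [hP.one_sub.fr_eq, tr_sub, tr_mul_comm, hJ, tr_one, tr_one, Fintype.card_fin,
        Fintype.card_fin]
      exact Real.sqrt_le_sqrt (by linarith)
    have t5 : fr (x - J * (Jᴴ * x * J) * Jᴴ) ≤ 2 * (C * Real.sqrt (η * d)) := by
      have : x - J * (Jᴴ * x * J) * Jᴴ = (1 - J * Jᴴ) * x + J * Jᴴ * (x * (1 - J * Jᴴ)) := by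
        simp only [Matrix.sub_mul, Matrix.mul_sub, Matrix.one_mul, Matrix.mul_one, Matrix.mul_assoc]
        abel
      rw [this]
      have a1 := fr_add_le ((1 - J * Jᴴ) * x) (J * Jᴴ * (x * (1 - J * Jᴴ)))
      have a2 := fr_mul_le_right (1 - J * Jᴴ) x
      have a3 := fr_mul_le_left' hP.norm_le (x * (1 - J * Jᴴ))
      have a4 := fr_mul_le_left x (1 - J * Jᴴ)
      have a5 := mul_le_mul hC t4 (fr_nonneg _) hC0
      linarith
    have t6 : en K K (Jᴴ * x * J) ≤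
        Real.sqrt (2 * C * Real.sqrt d * fr (Φ (Jᴴ * x * J) - Jᴴ * x * J)) := by
      apply Real.le_sqrt_of_sq_le
      have a1 : fr (Jᴴ * x * J) ≤ C * Real.sqrt d := by
        have := fr_le_of_norm_le_right (x := Jᴴ * x * J) (c := C)
          ((l2_opNorm_mul _ _).trans ((mul_le_of_le_one_right (norm_nonneg _) nJ).trans
            ((l2_opNorm_mul _ _).trans ((mul_le_of_le_one_left (norm_nonneg _) nJ').trans hC))))
        rwa [Fintype.card_fin] at this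
      have a2 := mul_le_mul_of_nonneg_right a1 (fr_nonneg (Jᴴ * x * J - Φ (Jᴴ * x * J)))
      rw [e1, fr_sub_comm]
      linarith [tr_mul_le (Jᴴ * x * J) (Jᴴ * x * J - Φ (Jᴴ * x * J))]
    have t7 := mul_le_mul hC hc (l2_nonneg _) hC0
    have t8 := mul_le_mul_of_nonneg_right hC (Real.sqrt_nonneg (η * d))
    have t9 := mul_nonneg hC0 (Real.sqrt_nonneg (η * d))
    have t10 := Real.sqrt_nonneg (2 * C * Real.sqrt d * fr (Φ (Jᴴ * x * J) - Jᴴ * x * J))
    linarith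

end Algebra

end Pool.Agent.Lib.MP_f81d8e_an.W
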