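import Mathlib
import Pool.Agent.Lib.MP_f81d8e_an.W.Mix

set_option autoImplicit false
set_option linter.unusedSectionVars false

namespace Pool.Agent.Lib.MP_f81d8e_an.W

open Matrix Finset Filter Topology
open scoped Matrix.Norms.L2Operator ComplexOrder

attribute [local irreducible] fr tr en fc

section Ces

variable {n : Type*} [Fintype n] [DecidableEq n]

/-- The average of the conjugations by `V` and by its adjoint. -/
noncomputable def avg (V : Matrix n n ℂ) : Module.End ℂ (Matrix n n ℂ) :=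
  ((1 / 2 : ℝ) : ℂ) • (LinearMap.mulRight ℂ Vᴴ ∘ₗ LinearMap.mulLeft ℂ V) +
    ((1 / 2 : ℝ) : ℂ) • (LinearMap.mulRight ℂ V ∘ₗ LinearMap.mulLeft ℂ Vᴴ)

lemma avg_apply (V x : Matrix n n ℂ) :
    avg V x = ((1 / 2 : ℝ) : ℂ) • (V * x * Vᴴ) + ((1 / 2 : ℝ) : ℂ) • (Vᴴ * x * V) := rfl

lemma isMix_avg {V : Matrix n n ℂ} (hV : Vᴴ * V = 1) : IsMix (avg V) := by
  refine ⟨Unit ⊕ Unit, inferInstance, Equiv.sumComm _ _, fun _ => 1 / 2,
    Sum.elim (fun _ => V) (fun _ => Vᴴ), fun _ => by norm_num, by norm_num, ?_, fun _ => rfl, ?_,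
    fun x => ?_⟩
  · rintro (s | s)
    · exact hV
    · simpa using mul_eq_one_comm.mp hV
  · rintro (s | s) <;> simp
  · simp [avg_apply]

lemma sub_avg (V x : Matrix n n ℂ) : x - avg V x =
    ((1 / 2 : ℝ) : ℂ) • (x - V * x * Vᴴ) + ((1 / 2 : ℝ) : ℂ) • (x - Vᴴ * x * Vᴴᴴ) := by
  rw [avg_apply, conjTranspose_conjTranspose, smul_sub, smul_sub, ← add_sub_add_comm, ← add_smul]
  norm_num

lemma fr_comm_star {V : Matrix n n ℂ} (hV : Vᴴ * V = 1) (x : Matrix n n ℂ) :
    fr (Vᴴ * x - x * Vᴴ) = fr (V * x - x * V) := by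
  have hV' := mul_eq_one_comm.mp hV
  rw [← fr_conj_sub hV, ← fr_isometry_mul hV, fr_sub_comm, Matrix.mul_sub, ← Matrix.mul_assoc,
    ← Matrix.mul_assoc, hV', Matrix.one_mul]

lemma tr_sub_avg {V : Matrix n n ℂ} (hV : Vᴴ * V = 1) (x : Matrix n n ℂ) :
    2 * tr (xᴴ * (x - avg V x)) = fr (V * x - x * V) ^ 2 := by
  have h1 := tr_sub_conj hV x
  have h2 := tr_sub_conj (w := Vᴴ) (by simpa using mul_eq_one_comm.mp hV) x
  rw [fr_comm_star hV] at h2
  rw [sub_avg, Matrix.mul_add, Matrix.mul_smul, Matrix.mul_smul, tr_add, tr_smul, tr_smul]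
  linarith

lemma fr_sub_avg {V : Matrix n n ℂ} (hV : Vᴴ * V = 1) (x : Matrix n n ℂ) :
    fr (x - avg V x) ≤ fr (V * x - x * V) := by
  have h1 := fr_conj_sub hV x
  have h2 := fr_conj_sub (w := Vᴴ) (by simpa using mul_eq_one_comm.mp hV) x
  rw [fr_comm_star hV, fr_sub_comm] at h2
  rw [fr_sub_comm] at h1
  rw [sub_avg]
  refine (fr_add_le _ _).trans (le_of_eq ?_)
  rw [fr_smul_real, fr_smul_real, h1, h2, abs_of_pos (by norm_num)]
  ring

/-- The Markov operator of the first `N` unitaries, with geometric weights. -/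
noncomputable def mark (V : ℕ → Matrix n n ℂ) (N : ℕ) : Module.End ℂ (Matrix n n ℂ) :=
  (((1 / 2 : ℝ) ^ N : ℝ) : ℂ) • 1 + ∑ i ∈ range N, (((1 / 2 : ℝ) ^ (i + 1) : ℝ) : ℂ) • avg (V i)

lemma geo_sum (N : ℕ) : (1 / 2 : ℝ) ^ N + ∑ i ∈ range N, (1 / 2 : ℝ) ^ (i + 1) = 1 := by
  induction N with
  | zero => simp
  | succ N ih =>
    rw [sum_range_succ, pow_succ]
    linarith

variable {V : ℕ → Matrix n n ℂ}

lemma isMix_mark (hV : ∀ i, (V i)ᴴ * V i = 1) (N : ℕ) : IsMix (mark V N) := by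
  have := IsMix.convex (ι := Option (Fin N))
    (c := fun o => o.elim ((1 / 2 : ℝ) ^ N) (fun i => (1 / 2 : ℝ) ^ ((i : ℕ) + 1)))
    (by rintro (_ | i) <;> simp)
    (by
      rw [Fintype.sum_option]
      simp only [Option.elim_none, Option.elim_some]
      rw [Fin.sum_univ_eq_sum_range (fun i => (1 / 2 : ℝ) ^ (i + 1))]
      exact geo_sum N)
    (Ψ := fun o => o.elim 1 (fun i => avg (V i)))
    (by
      rintro (_ | i)
      · exact isMix_one
      · exact isMix_avg (hV i))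
  rw [Fintype.sum_option] at this
  simp only [Option.elim_none, Option.elim_some] at this
  rw [Fin.sum_univ_eq_sum_range (fun i => (((1 / 2 : ℝ) ^ (i + 1) : ℝ) : ℂ) • avg (V i))] at this
  exact this

lemma sub_mark (N : ℕ) (x : Matrix n n ℂ) : x - mark V N x =
    ∑ i ∈ range N, (((1 / 2 : ℝ) ^ (i + 1) : ℝ) : ℂ) • (x - avg (V i) x) := by
  simp only [mark, LinearMap.add_apply, LinearMap.smul_apply, LinearMap.sum_apply,
    Module.End.one_apply, smul_sub, sum_sub_distrib, ← sum_smul, ← Complex.ofReal_sum]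
  rw [← sub_sub, eq_sub_of_add_eq' (geo_sum N), Complex.ofReal_sub, sub_smul]
  simp

lemma fr_comm_sq_le (hV : ∀ i, (V i)ᴴ * V i = 1) {N i : ℕ} (hi : i < N) (x : Matrix n n ℂ) :
    (1 / 2 : ℝ) ^ (i + 1) * fr (V i * x - x * V i) ^ 2 ≤ 2 * (fr x * fr (x - mark V N x)) := by
  refine le_trans ?_ (mul_le_mul_of_nonneg_left (tr_mul_le _ _) zero_le_two)
  rw [sub_mark, Matrix.mul_sum, tr_sum, mul_sum]
  simp only [Matrix.mul_smul, tr_smul, mul_left_comm (2 : ℝ), tr_sub_avg (hV _)]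
  exact single_le_sum (f := fun i => (1 / 2 : ℝ) ^ (i + 1) * fr (V i * x - x * V i) ^ 2)
    (fun _ _ => by positivity) (mem_range.mpr hi)

lemma fr_sub_mark (hV : ∀ i, (V i)ᴴ * V i = 1) (N : ℕ) (x : Matrix n n ℂ) :
    fr (x - mark V N x) ≤ ∑ i ∈ range N, fr (V i * x - x * V i) := by
  rw [sub_mark]
  refine (fr_sum_le _ _).trans (sum_le_sum (fun i _ => ?_))
  rw [fr_smul_real, abs_of_pos (by positivity)]
  exact (mul_le_of_le_one_left (fr_nonneg _) (pow_le_one₀ (by norm_num) (by norm_num))).trans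
    (fr_sub_avg (hV i) x)

/-- Averages of the powers of the Markov operator. -/
noncomputable def phi (V : ℕ → Matrix n n ℂ) (N : ℕ) : Module.End ℂ (Matrix n n ℂ) :=
  ∑ j ∈ range (N + 1), ((1 / ((N : ℝ) + 1) : ℝ) : ℂ) • mark V N ^ j

lemma isMix_phi (hV : ∀ i, (V i)ᴴ * V i = 1) (N : ℕ) : IsMix (phi V N) := by
  have := IsMix.convex (ι := Fin (N + 1)) (c := fun _ => 1 / ((N : ℝ) + 1))
    (fun _ => by positivity) (by simp; field_simp) (Ψ := fun j => mark V N ^ (j : ℕ))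
    (fun j => (isMix_mark hV N).pow j)
  rw [Fin.sum_univ_eq_sum_range (fun j => ((1 / ((N : ℝ) + 1) : ℝ) : ℂ) • mark V N ^ j)] at this
  exact this

lemma fr_phi_sub_mark (hV : ∀ i, (V i)ᴴ * V i = 1) (N : ℕ) (x : Matrix n n ℂ) :
    fr (phi V N x - mark V N (phi V N x)) ≤ 2 / ((N : ℝ) + 1) * fr x := by
  have e : phi V N x - mark V N (phi V N x) =
      ((1 / ((N : ℝ) + 1) : ℝ) : ℂ) • (x - (mark V N ^ (N + 1)) x) := by
    have := congrArg (fun T : Module.End ℂ (Matrix n n ℂ) => T x)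
      (mul_neg_geom_sum (mark V N) (N + 1))
    simp only [Module.End.mul_apply, LinearMap.sub_apply, Module.End.one_apply] at this
    rw [← this, phi, ← smul_sum, LinearMap.smul_apply, map_smul, smul_sub]
  rw [e, fr_smul_real, abs_of_pos (by positivity)]
  have t1 := fr_sub_le x ((mark V N ^ (N + 1)) x)
  have t2 := ((isMix_mark hV N).pow (N + 1)).fr_le x
  calc _ ≤ 1 / ((N : ℝ) + 1) * (2 * fr x) :=
        mul_le_mul_of_nonneg_left (by linarith) (by positivity)
    _ = _ := by ring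

lemma fr_comm_phi (hV : ∀ i, (V i)ᴴ * V i = 1) {N i : ℕ} (hi : i < N) (y : Matrix n n ℂ) :
    (1 / 2 : ℝ) ^ (i + 1) * fr (V i * phi V N y - phi V N y * V i) ^ 2 ≤
      4 / ((N : ℝ) + 1) * fr y ^ 2 := by
  refine (fr_comm_sq_le hV hi _).trans ?_
  have := mul_le_mul ((isMix_phi hV N).fr_le y) (fr_phi_sub_mark hV N y) (fr_nonneg _)
    (fr_nonneg _)
  calc _ ≤ 2 * (fr y * (2 / ((N : ℝ) + 1) * fr y)) := by linarith
    _ = _ := by ring

lemma fr_comm_le_phi (hV : ∀ i, (V i)ᴴ * V i = 1) {N i : ℕ} (hi : i < N) (x : Matrix n n ℂ) :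
    (1 / 2 : ℝ) ^ (i + 1) * fr (V i * x - x * V i) ^ 2 ≤
      4 * (fr x * (fr (phi V N x - x) + 1 / ((N : ℝ) + 1) * fr x)) := by
  refine (fr_comm_sq_le hV hi _).trans ?_
  have e : x - mark V N x = (phi V N x - mark V N (phi V N x)) +
      (mark V N (phi V N x - x) - (phi V N x - x)) := by
    rw [map_sub]
    abel
  have t1 := fr_phi_sub_mark hV N x
  have t2 := fr_sub_le (mark V N (phi V N x - x)) (phi V N x - x)
  have t3 := (isMix_mark hV N).fr_le (phi V N x - x)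
  have t4 : fr (x - mark V N x) ≤ 2 * (fr (phi V N x - x) + 1 / ((N : ℝ) + 1) * fr x) := by
    rw [e]
    refine (fr_add_le _ _).trans ?_
    have : 2 / ((N : ℝ) + 1) * fr x = 2 * (1 / ((N : ℝ) + 1) * fr x) := by ring
    linarith
  have := mul_le_mul_of_nonneg_left t4 (fr_nonneg x)
  linarith

lemma fr_phi_sub (hV : ∀ i, (V i)ᴴ * V i = 1) (N : ℕ) (z : Matrix n n ℂ) :
    fr (phi V N z - z) ≤ N * ∑ i ∈ range N, fr (V i * z - z * V i) := by
  have h1 : ∀ j : ℕ, fr ((mark V N ^ j) z - z) ≤ j * fr (z - mark V N z) := by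
    intro j
    induction j with
    | zero => simp [fr_zero]
    | succ j ih =>
      have t1 := fr_triangle ((mark V N ^ (j + 1)) z) (mark V N z) z
      have t2 := (isMix_mark hV N).fr_le ((mark V N ^ j) z - z)
      rw [map_sub, ← Module.End.mul_apply, ← pow_succ'] at t2
      rw [fr_sub_comm (mark V N z)] at t1
      push_cast
      linarith
  have e : phi V N z - z =
      ∑ j ∈ range (N + 1), ((1 / ((N : ℝ) + 1) : ℝ) : ℂ) • ((mark V N ^ j) z - z) := by
    simp only [phi, LinearMap.sum_apply, LinearMap.smul_apply, smul_sub, sum_sub_distrib, sum_const,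
      card_range, ← Nat.cast_smul_eq_nsmul ℂ, smul_smul]
    congr 1
    have : ((N : ℂ) + 1) ≠ 0 := by exact_mod_cast Nat.succ_ne_zero N
    push_cast
    rw [mul_one_div_cancel this, one_smul]
  rw [e]
  refine (fr_sum_le _ _).trans ?_
  calc _ ≤ ∑ _j ∈ range (N + 1), 1 / ((N : ℝ) + 1) * (N * fr (z - mark V N z)) := by
        refine sum_le_sum (fun j hj => ?_)
        rw [fr_smul_real, abs_of_pos (by positivity)]
        refine mul_le_mul_of_nonneg_left ((h1 j).trans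
          (mul_le_mul_of_nonneg_right ?_ (fr_nonneg _))) (by positivity)
        exact_mod_cast Nat.lt_succ_iff.mp (mem_range.mp hj)
    _ = N * fr (z - mark V N z) := by
        rw [sum_const, card_range, nsmul_eq_mul]
        push_cast
        field_simp
    _ ≤ _ := mul_le_mul_of_nonneg_left (fr_sub_mark hV N z) (Nat.cast_nonneg _)

end Ces

end Pool.Agent.Lib.MP_f81d8e_an.W
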