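import Mathlib
import Pool.Agent.Lib.MP_f81d8e_an.Ultra

set_option autoImplicit false

namespace Pool.Agent.Lib.MP_f81d8e_an.W

open Matrix Filter Topology
open scoped Matrix.Norms.L2Operator

lemma norm2_le_iff {d : ℕ} (hd : 0 < d) {x : Matrix (Fin d) (Fin d) ℂ} {c : ℝ} :
    norm2 x ≤ c ↔ fr x ≤ c * Real.sqrt d := by
  rw [norm2_eq, div_le_iff₀ (by positivity)]

lemma norm2_le_norm {d : ℕ} (x : Matrix (Fin d) (Fin d) ℂ) : norm2 x ≤ ‖x‖ := by
  rcases Nat.eq_zero_or_pos d with rfl | hd
  · rw [Subsingleton.elim x 0, norm2_zero, norm_zero]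
  · rw [norm2_le_iff hd]
    simpa using fr_le_of_norm_le_right (le_refl ‖x‖)

variable {U : Ultrafilter ℕ} {d : ℕ → ℕ}

lemma tendsto_lim (a : BddSeq d) : Tendsto (fun n => norm2 (a.entry n)) U
    (𝓝 (limUnder (U : Filter ℕ) (fun n => norm2 (a.entry n)))) := by
  obtain ⟨C, hC⟩ := a.2
  exact tendsto_nhds_limUnder (exists_ulim_real U _ C (fun n => by
    rw [abs_of_nonneg (norm2_nonneg _)]
    exact (norm2_le_norm _).trans (hC n)))

lemma lim_congr (a b : BddSeq d)
    (h : Tendsto (fun n => norm2 (a.entry n - b.entry n)) U (𝓝 0)) :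
    limUnder (U : Filter ℕ) (fun n => norm2 (a.entry n)) =
      limUnder (U : Filter ℕ) (fun n => norm2 (b.entry n)) := by
  have key : ∀ a b : BddSeq d, Tendsto (fun n => norm2 (a.entry n - b.entry n)) U (𝓝 0) →
      limUnder (U : Filter ℕ) (fun n => norm2 (a.entry n)) ≤
        limUnder (U : Filter ℕ) (fun n => norm2 (b.entry n)) := by
    intro a b h
    have := le_of_tendsto_of_tendsto' (tendsto_lim a) (h.add (tendsto_lim b)) (fun n => by
      simpa using norm2_add_le (a.entry n - b.entry n) (b.entry n))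
    simpa using this
  exact le_antisymm (key a b h) (key b a (null_symm h))

end Pool.Agent.Lib.MP_f81d8e_an.W
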