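import Mathlib
import Pool.Agent.Lib.MP_f81d8e_an.W.DefsAux

set_option autoImplicit false

namespace Pool.Agent.Lib.MP_f81d8e_an.W

open Filter

/-- The 2-norm on the tracial ultraproduct: the limit along the ultrafilter of the 2-norms of
the matrices of any representing sequence. -/
noncomputable def unorm2 {U : Ultrafilter ℕ} {d : ℕ → ℕ} (x : Ultra U d) : ℝ :=
  Quotient.liftOn' x
    (fun a : BddSeq d => limUnder (U : Filter ℕ) (fun n => norm2 (a.entry n)))
    (fun a b h => lim_congr a b h)

/-- Weak spectral gap of a family of elements of the ultraproduct: contractions that almost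
commute with finitely many members are close in 2-norm to the relative commutant. -/
def WeakGap {U : Ultrafilter ℕ} {d : ℕ → ℕ} {G : Type} (u : G → Ultra U d) : Prop :=
  ∀ ε : ℝ, 0 < ε → ∃ (F : Finset G) (δ : ℝ), 0 < δ ∧ ∀ a : BddSeq d,
    (∀ n, opNorm (a.entry n) ≤ 1) →
    (∀ g ∈ F, unorm2 (Ultra.mk U a * u g - u g * Ultra.mk U a) < δ) →
    ∃ z : Ultra U d, (∀ g : G, Commute z (u g)) ∧ unorm2 (Ultra.mk U a - z) < ε

end Pool.Agent.Lib.MP_f81d8e_an.W
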