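import Mathlib
import Pool.Agent.Lib.MP_f81d8e_an.W.Defs

set_option autoImplicit false
set_option linter.unusedSectionVars false

namespace Pool.Agent.Lib.MP_f81d8e_an.W

open Matrix Finset Filter Topology
open scoped Matrix.Norms.L2Operator ComplexOrder

attribute [local irreducible] fr tr en fc

lemma fr_one_sub_corner (m d : ℕ) :
    fr (1 - (corner m d)ᴴ * corner m d) ^ 2 ≤ |(d : ℝ) - m| := by
  have h1 : 1 - (corner m d)ᴴ * corner m d =
      diagonal (fun i : Fin d => if (i : ℕ) < m then (0 : ℂ) else 1) := by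
    ext i j
    rw [Matrix.sub_apply, corner_conjTranspose, corner_mul, diagonal_apply, one_apply]
    simp only [corner, of_apply, Fin.ext_iff]
    split_ifs <;> simp
  have h2 : fr (diagonal (fun i : Fin d => if (i : ℕ) < m then (0 : ℂ) else 1)) ^ 2 =
      ∑ i ∈ range d, if i < m then (0 : ℝ) else 1 := by
    rw [fr_sq, ← Fin.sum_univ_eq_sum_range (fun i => if i < m then (0 : ℝ) else 1)]
    refine sum_congr rfl (fun i _ => ?_)
    rw [sum_eq_single i]
    · rw [diagonal_apply_eq]
      split_ifs <;> simp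
    · intro j _ hj
      rw [diagonal_apply_ne _ hj.symm]
      simp
    · simp
  rw [h1, h2]
  have h3 : ∀ k : ℕ, (∑ i ∈ range k, if i < m then (0 : ℝ) else 1) ≤ max ((k : ℝ) - m) 0 := by
    intro k
    induction k with
    | zero => simp
    | succ k ih =>
      rw [sum_range_succ]
      push_cast
      split_ifs with h
      · rw [add_zero]
        exact ih.trans (max_le_max_right _ (by linarith))
      · have : (m : ℝ) ≤ k := by exact_mod_cast not_lt.mp h
        rw [max_eq_left (by linarith)] at ih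
        exact le_trans (by linarith) (le_max_left _ _)
  exact (h3 d).trans (max_le (le_abs_self _) (abs_nonneg _))

variable {U : Ultrafilter ℕ} {d m : ℕ → ℕ}

lemma tendsto_defect (h : Tendsto (fun n => (m n : ℝ) / d n) U (𝓝 1)) (hd : ∀ n, 0 < d n) :
    Tendsto (fun n => norm2 (1 - (corner (m n) (d n))ᴴ * corner (m n) (d n))) U (𝓝 0) := by
  have h1 := (h.const_sub 1).abs.sqrt
  simp only [sub_self, abs_zero, Real.sqrt_zero] at h1
  refine squeeze_zero (fun _ => norm2_nonneg _) (fun n => ?_) h1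
  have hd' : (0 : ℝ) < d n := by exact_mod_cast hd n
  rw [norm2_le_iff (hd n), ← Real.sqrt_mul (abs_nonneg _)]
  apply Real.le_sqrt_of_sq_le
  refine (fr_one_sub_corner _ _).trans (le_of_eq ?_)
  conv_rhs => rw [← abs_of_pos hd', ← abs_mul, abs_of_pos hd']
  congr 1
  field_simp

lemma ratio_inv (h : Tendsto (fun n => (m n : ℝ) / d n) U (𝓝 1)) :
    Tendsto (fun n => (d n : ℝ) / m n) U (𝓝 1) := by
  simpa using h.inv₀ one_ne_zero

lemma transport_mul' (h : Tendsto (fun n => (m n : ℝ) / d n) U (𝓝 1)) (hd : ∀ n, 0 < d n)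
    (x y : Ultra U d) : transport h (x * y) = transport h x * transport h y := by
  obtain ⟨a, rfl⟩ := mk_surj x
  obtain ⟨b, rfl⟩ := mk_surj y
  rw [← mk_mul, transport_mk, transport_mk, transport_mk, ← mk_mul, mk_eq_iff]
  obtain ⟨C, hC⟩ := a.2
  obtain ⟨C', hC'⟩ := b.2
  have t1 : Tendsto (fun n => norm2 (a.1 n * b.1 n -
      a.1 n * ((corner (m n) (d n))ᴴ * corner (m n) (d n)) * b.1 n)) U (𝓝 0) := by
    refine squeeze_zero (fun _ => norm2_nonneg _) (fun n => ?_)
      (by simpa using ((tendsto_defect h hd).const_mul C).const_mul C')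
    have : a.1 n * b.1 n - a.1 n * ((corner (m n) (d n))ᴴ * corner (m n) (d n)) * b.1 n =
        a.1 n * (1 - (corner (m n) (d n))ᴴ * corner (m n) (d n)) * b.1 n := by
      simp only [Matrix.mul_sub, Matrix.sub_mul, Matrix.mul_one]
    rw [this]
    refine (norm2_mul_le_right _ _).trans (mul_le_mul (hC' n) ((norm2_mul_le_left _ _).trans
      (mul_le_mul_of_nonneg_right (hC n) (norm2_nonneg _))) (norm2_nonneg _)
      ((norm_nonneg _).trans (hC' n)))
  refine (null_resize h t1).congr (fun n => ?_)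
  change _ = norm2 (resize (m n) (a.1 n * b.1 n) - resize (m n) (a.1 n) * resize (m n) (b.1 n))
  simp only [resize_eq, Matrix.mul_assoc]

lemma transport_inv (h : Tendsto (fun n => (m n : ℝ) / d n) U (𝓝 1))
    (h' : Tendsto (fun n => (d n : ℝ) / m n) U (𝓝 1)) (hd : ∀ n, 0 < d n)
    (x : Ultra U d) : transport h' (transport h x) = x := by
  obtain ⟨a, rfl⟩ := mk_surj x
  rw [transport_mk, transport_mk, mk_eq_iff]
  obtain ⟨C, hC⟩ := a.2
  refine squeeze_zero (fun _ => norm2_nonneg _) (fun n => ?_)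
    (by simpa using ((tendsto_defect h hd).const_mul C).add ((tendsto_defect h hd).const_mul C))
  change norm2 (resize (d n) (resize (m n) (a.1 n)) - a.1 n) ≤ _
  have hQ : ‖(corner (m n) (d n))ᴴ * corner (m n) (d n)‖ ≤ 1 :=
    opNorm_mul_le_one (opNorm_conjTranspose_le_one (norm_corner_le _)) (norm_corner_le _)
  have e : a.1 n - resize (d n) (resize (m n) (a.1 n)) =
      (1 - (corner (m n) (d n))ᴴ * corner (m n) (d n)) * a.1 n +
        (corner (m n) (d n))ᴴ * corner (m n) (d n) *
          (a.1 n * (1 - (corner (m n) (d n))ᴴ * corner (m n) (d n))) := by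
    rw [resize_eq, resize_eq, ← corner_conjTranspose (d := d n), conjTranspose_conjTranspose]
    simp only [Matrix.mul_sub, Matrix.sub_mul, Matrix.mul_one, Matrix.one_mul, Matrix.mul_assoc]
    abel
  rw [norm2_sub_comm, e]
  refine (norm2_add_le _ _).trans (add_le_add ((norm2_mul_le_right _ _).trans
    (mul_le_mul_of_nonneg_right (hC n) (norm2_nonneg _))) ((norm2_mul_le_left _ _).trans
    ((mul_le_of_le_one_left (norm2_nonneg _) hQ).trans ((norm2_mul_le_left _ _).trans
    (mul_le_mul_of_nonneg_right (hC n) (norm2_nonneg _))))))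

lemma commute_transport (h : Tendsto (fun n => (m n : ℝ) / d n) U (𝓝 1)) (hd : ∀ n, 0 < d n)
    {x y : Ultra U d} (hxy : Commute x y) : Commute (transport h x) (transport h y) := by
  rw [Commute, SemiconjBy, ← transport_mul' h hd, ← transport_mul' h hd, hxy.eq]

lemma mk_sub (x y : BddSeq d) : Ultra.mk U (x - y) = Ultra.mk U x - Ultra.mk U y := rfl

lemma tendsto_unorm2 (a : BddSeq d) :
    Tendsto (fun n => norm2 (a.1 n)) U (𝓝 (unorm2 (Ultra.mk U a))) := tendsto_lim a

lemma tendsto_unorm2_sub (a b : BddSeq d) :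
    Tendsto (fun n => norm2 (a.1 n - b.1 n)) U (𝓝 (unorm2 (Ultra.mk U a - Ultra.mk U b))) :=
  tendsto_unorm2 (a - b)

lemma tendsto_unorm2_comm (a b : BddSeq d) :
    Tendsto (fun n => norm2 (a.1 n * b.1 n - b.1 n * a.1 n)) U
      (𝓝 (unorm2 (Ultra.mk U a * Ultra.mk U b - Ultra.mk U b * Ultra.mk U a))) :=
  tendsto_unorm2 (a * b - b * a)

lemma commute_mk_iff {a b : BddSeq d} : Commute (Ultra.mk U a) (Ultra.mk U b) ↔
    Tendsto (fun n => norm2 (a.1 n * b.1 n - b.1 n * a.1 n)) U (𝓝 0) := by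
  rw [Commute, SemiconjBy, ← mk_mul, ← mk_mul, mk_eq_iff]
  rfl

/-- An internal relative commutant has the weak spectral gap property. -/
theorem gap_of_internal {G : Type} [Group G] [Countable G] (hU : (U : Filter ℕ) ≤ cofinite)
    (hd : ∀ n, 0 < d n) (π : G →* unitary (Ultra U d)) (hm : ∀ n, 0 < m n)
    (h : Tendsto (fun n => (m n : ℝ) / d n) U (𝓝 1))
    (A : ∀ n, StarSubalgebra ℂ (Matrix (Fin (m n)) (Fin (m n)) ℂ))
    (hA : {x : Ultra U m | ∀ g : G, Commute x (transport h (π g : Ultra U d))} =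
      {x : Ultra U m | ∃ a : BddSeq m, (∀ n, a.entry n ∈ A n) ∧ Ultra.mk U a = x})
    {ε : ℝ} (hε : 0 < ε) : ∃ (F : Finset G) (δ : ℝ), 0 < δ ∧ ∀ a : BddSeq d,
      (∀ n, opNorm (a.entry n) ≤ 1) →
      (∀ g ∈ F, unorm2 (Ultra.mk U a * (π g : Ultra U d) - (π g : Ultra U d) * Ultra.mk U a) < δ) →
      ∃ z : Ultra U d, (∀ g : G, Commute z (π g : Ultra U d)) ∧ unorm2 (Ultra.mk U a - z) < ε := by
  classical
  by_contra hneg
  push Not at hneg
  obtain ⟨e, he⟩ := exists_surjective_nat G
  choose a a1 a2 a3 using fun k : ℕ => hneg ((range k).image e) (1 / ((k : ℝ) + 1)) (by positivity)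
  choose V hV using fun g => mk_surj (π g : Ultra U d)
  have h' := ratio_inv h
  let P : ℕ → ℕ → Prop := fun k n =>
    (∀ i ∈ range k, norm2 ((a k).1 n * (V (e i)).1 n - (V (e i)).1 n * (a k).1 n) <
      1 / ((k : ℝ) + 1)) ∧
    ∀ c ∈ A n, ‖c‖ ≤ k → ε / 2 ≤ norm2 (resize (m n) ((a k).1 n) - c)
  have hP : ∀ k, ∀ᶠ n in (U : Filter ℕ), P k n := by
    intro k
    refine Eventually.and ?_ ?_
    · rw [eventually_all_finset]
      intro i hi
      have := a2 k (e i) (mem_image_of_mem e hi)
      rw [← hV] at this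
      exact (tendsto_unorm2_comm _ _).eventually (gt_mem_nhds this)
    · by_contra hn
      rw [← Ultrafilter.eventually_not] at hn
      have : ∀ n, ∃ c ∈ A n, ‖c‖ ≤ k ∧ ((¬ ∀ c ∈ A n, ‖c‖ ≤ k →
          ε / 2 ≤ norm2 (resize (m n) ((a k).1 n) - c)) →
          norm2 (resize (m n) ((a k).1 n) - c) ≤ ε / 2) := by
        intro n
        by_cases hc : ∀ c ∈ A n, ‖c‖ ≤ k → ε / 2 ≤ norm2 (resize (m n) ((a k).1 n) - c)
        · exact ⟨0, zero_mem _, by simp, fun h => absurd hc h⟩
        · push Not at hc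
          obtain ⟨c, c1, c2, c3⟩ := hc
          exact ⟨c, c1, c2, fun _ => c3.le⟩
      choose c c1 c2 c3 using this
      let c' : BddSeq m := Subtype.mk c ⟨k, c2⟩
      have hc' : ∀ g : G, Commute (Ultra.mk U c') (transport h (π g : Ultra U d)) :=
        (Set.ext_iff.mp hA (Ultra.mk U c')).mpr ⟨c', c1, rfl⟩
      have t1 := a3 k (transport h' (Ultra.mk U c')) (fun g => by
        have := commute_transport h' hm (hc' g)
        rwa [transport_inv h h' hd] at this)
      rw [← transport_inv h h' hd (Ultra.mk U (a k)), transport_mk, transport_mk,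
        transport_mk] at t1
      have t2 := le_of_tendsto_of_tendsto
        (tendsto_unorm2_sub (((a k).resize m).resize d) (c'.resize d))
        ((h'.inv₀ one_ne_zero).sqrt.mul_const (ε / 2)) (by
          filter_upwards [hn] with n hn
          change norm2 (resize (d n) (resize (m n) ((a k).1 n)) - resize (d n) (c n)) ≤ _
          rw [← resize_sub]
          exact (norm2_resize_le _ _).trans
            (mul_le_mul_of_nonneg_left (c3 n hn) (Real.sqrt_nonneg _)))
      simp only [inv_one, Real.sqrt_one, one_mul] at t2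
      linarith
  obtain ⟨k, hk, hPk⟩ := exists_diag hU P hP
  let b : BddSeq d := Subtype.mk (fun n => (a (k n)).1 n) ⟨1, fun n => a1 (k n) n⟩
  have hb : ∀ g : G, Commute (Ultra.mk U b) (π g : Ultra U d) := by
    intro g
    obtain ⟨i, rfl⟩ := he g
    rw [← hV, commute_mk_iff]
    refine squeeze_zero' (Eventually.of_forall (fun _ => norm2_nonneg _)) ?_
      (tendsto_one_div_add_atTop_nhds_zero_nat.comp hk)
    filter_upwards [hPk, hk.eventually (eventually_gt_atTop i)] with n h1 h2
    exact (h1.1 i (mem_range.mpr h2)).le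
  obtain ⟨c, c1, c2⟩ := (Set.ext_iff.mp hA (transport h (Ultra.mk U b))).mp
    (fun g => commute_transport h hd (hb g))
  obtain ⟨C, hC⟩ := c.2
  rw [transport_mk, eq_comm, mk_eq_iff] at c2
  obtain ⟨n, ⟨h1, h2⟩, h3⟩ := ((hPk.and (c2.eventually (gt_mem_nhds (half_pos hε)))).and
    ((tendsto_natCast_atTop_atTop.comp hk).eventually (eventually_ge_atTop C))).exists
  exact absurd (h1.2 _ (c1 n) ((hC n).trans h3)) (not_le.mpr h2)

end Pool.Agent.Lib.MP_f81d8e_an.W
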