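import Mathlib
import Pool.Agent.Lib.MP_f81d8e_an.W.Transport
import Pool.Agent.Lib.MP_f81d8e_an.W.Ces

set_option autoImplicit false
set_option linter.unusedSectionVars false

namespace Pool.Agent.Lib.MP_f81d8e_an.W

open Matrix Finset Filter Topology
open scoped Matrix.Norms.L2Operator ComplexOrder

attribute [local irreducible] fr tr en fc

variable {U : Ultrafilter ℕ} {d m : ℕ → ℕ}

lemma tendsto_phi_sub {V : ℕ → BddSeq d}
    (hV : ∀ i n, ((V i).1 n)ᴴ * (V i).1 n = 1) {c : BddSeq d}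
    (hc : ∀ i, Commute (Ultra.mk U c) (Ultra.mk U (V i))) (N : ℕ) :
    Tendsto (fun n => norm2 (phi (fun i => (V i).1 n) N (c.1 n) - c.1 n)) U (𝓝 0) := by
  have t1 := (tendsto_finsetSum (range N) (fun i _ => commute_mk_iff.mp (hc i).symm)).const_mul
    (N : ℝ)
  simp only [sum_const_zero, mul_zero] at t1
  refine squeeze_zero (fun _ => norm2_nonneg _) (fun n => ?_) t1
  simp only [norm2_eq]
  rw [← sum_div, ← mul_div_assoc]
  exact div_le_div_of_nonneg_right (fr_phi_sub (fun i => hV i n) N _) (Real.sqrt_nonneg _)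

lemma key_estimate (hd : ∀ n, 0 < d n) {V : ℕ → BddSeq d}
    (hV : ∀ i n, ((V i).1 n)ᴴ * (V i).1 n = 1)
    (gap : ∀ ε > 0, ∃ (F : Finset ℕ) (δ : ℝ), 0 < δ ∧ ∀ a : BddSeq d, (∀ n, ‖a.1 n‖ ≤ 1) →
      (∀ i ∈ F, unorm2 (Ultra.mk U a * Ultra.mk U (V i) - Ultra.mk U (V i) * Ultra.mk U a) < δ) →
      ∃ z : Ultra U d, (∀ i, Commute z (Ultra.mk U (V i))) ∧ unorm2 (Ultra.mk U a - z) < ε)
    {ε : ℝ} (hε : 0 < ε) : ∀ᶠ N' in atTop, ∀ N, ∀ᶠ n in (U : Filter ℕ),
      ∀ y, ‖y‖ ≤ 1 → fr (phi (fun i => (V i).1 n) N (phi (fun i => (V i).1 n) N' y) -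
        phi (fun i => (V i).1 n) N' y) ≤ ε * Real.sqrt (d n) := by
  obtain ⟨F, δ, hδ, H⟩ := gap (ε / 3) (by positivity)
  have ev : ∀ᶠ N' : ℕ in atTop, ∀ i ∈ F, i < N' ∧
      4 / ((N' : ℝ) + 1) ≤ (1 / 2 : ℝ) ^ (i + 1) * (δ / 2) ^ 2 := by
    rw [eventually_all_finset]
    intro i _
    refine (eventually_gt_atTop i).and ?_
    have := (tendsto_one_div_add_atTop_nhds_zero_nat (𝕜 := ℝ)).const_mul 4
    rw [mul_zero] at this
    filter_upwards [this.eventually (ge_mem_nhds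
      (show 0 < (1 / 2 : ℝ) ^ (i + 1) * (δ / 2) ^ 2 by positivity))] with N' h
    rwa [mul_one_div] at h
  filter_upwards [ev] with N' hN' N
  by_contra hn
  rw [← Ultrafilter.eventually_not] at hn
  have : ∀ n, ∃ y : Matrix (Fin (d n)) (Fin (d n)) ℂ, ‖y‖ ≤ 1 ∧
      ((¬ ∀ y, ‖y‖ ≤ 1 → fr (phi (fun i => (V i).1 n) N (phi (fun i => (V i).1 n) N' y) -
        phi (fun i => (V i).1 n) N' y) ≤ ε * Real.sqrt (d n)) →
        ε * Real.sqrt (d n) < fr (phi (fun i => (V i).1 n) N (phi (fun i => (V i).1 n) N' y) -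
        phi (fun i => (V i).1 n) N' y)) := by
    intro n
    by_cases hc : ∀ y, ‖y‖ ≤ 1 → fr (phi (fun i => (V i).1 n) N (phi (fun i => (V i).1 n) N' y) -
        phi (fun i => (V i).1 n) N' y) ≤ ε * Real.sqrt (d n)
    · exact ⟨0, by simp, fun h => absurd hc h⟩
    · push Not at hc
      obtain ⟨y, y1, y2⟩ := hc
      exact ⟨y, y1, fun _ => y2⟩
  choose y y1 y2 using this
  have ha : ∀ n, ‖phi (fun i => (V i).1 n) N' (y n)‖ ≤ 1 := fun n =>
    ((isMix_phi (fun i => hV i n) N').norm_le _).trans (y1 n)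
  let a : BddSeq d := Subtype.mk (fun n => phi (fun i => (V i).1 n) N' (y n)) ⟨1, ha⟩
  obtain ⟨z, z1, z2⟩ := H a ha (fun i hi => by
    refine lt_of_le_of_lt (le_of_tendsto' (tendsto_unorm2_comm a (V i)) (fun n => ?_))
      (half_lt_self hδ)
    rw [norm2_sub_comm, norm2_le_iff (hd n)]
    have t1 := fr_comm_phi (fun i => hV i n) (hN' i hi).1 (y n)
    have t2 := fr_le_of_norm_le_right (y1 n)
    rw [Fintype.card_fin, one_mul] at t2
    have t3 := mul_le_mul (hN' i hi).2 (pow_le_pow_left₀ (fr_nonneg _) t2 2) (sq_nonneg _)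
      (by positivity)
    apply (pow_le_pow_iff_left₀ (fr_nonneg _) (by positivity) two_ne_zero).mp
    apply le_of_mul_le_mul_left _ (show 0 < (1 / 2 : ℝ) ^ (i + 1) by positivity)
    rw [mul_pow, ← mul_assoc]
    exact t1.trans t3)
  obtain ⟨c, rfl⟩ := mk_surj z
  obtain ⟨n, ⟨h1, h2⟩, h3⟩ := ((hn.and ((tendsto_unorm2_sub a c).eventually (gt_mem_nhds z2))).and
    ((tendsto_phi_sub hV z1 N).eventually
      (gt_mem_nhds (show 0 < ε / 3 by positivity)))).exists
  have t1 := y2 n h1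
  have t2 := (norm2_le_iff (hd n)).mp h2.le
  have t3 := (norm2_le_iff (hd n)).mp h3.le
  have t4 := (isMix_phi (fun i => hV i n) N).fr_le (a.1 n - c.1 n)
  rw [map_sub] at t4
  have t5 := fr_triangle (phi (fun i => (V i).1 n) N (a.1 n)) (phi (fun i => (V i).1 n) N (c.1 n))
    (a.1 n)
  have t6 := fr_triangle (phi (fun i => (V i).1 n) N (c.1 n)) (c.1 n) (a.1 n)
  rw [fr_sub_comm (c.1 n)] at t6
  change ε * Real.sqrt (d n) < fr (phi (fun i => (V i).1 n) N (a.1 n) - a.1 n) at t1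
  linarith

lemma internal_aux (hU : (U : Filter ℕ) ≤ cofinite) (hd : ∀ n, 0 < d n) {V : ℕ → BddSeq d}
    (hV : ∀ i n, ((V i).1 n)ᴴ * (V i).1 n = 1)
    (gap : ∀ ε > 0, ∃ (F : Finset ℕ) (δ : ℝ), 0 < δ ∧ ∀ a : BddSeq d, (∀ n, ‖a.1 n‖ ≤ 1) →
      (∀ i ∈ F, unorm2 (Ultra.mk U a * Ultra.mk U (V i) - Ultra.mk U (V i) * Ultra.mk U a) < δ) →
      ∃ z : Ultra U d, (∀ i, Commute z (Ultra.mk U (V i))) ∧ unorm2 (Ultra.mk U a - z) < ε) :
    ∃ (m : ℕ → ℕ) (_ : ∀ n, 0 < m n) (h : Tendsto (fun n => (m n : ℝ) / d n) U (𝓝 1))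
      (A : ∀ n, StarSubalgebra ℂ (Matrix (Fin (m n)) (Fin (m n)) ℂ)),
      {x : Ultra U m | ∀ i, Commute x (transport h (Ultra.mk U (V i)))} =
        {x | ∃ a : BddSeq m, (∀ n, a.entry n ∈ A n) ∧ Ultra.mk U a = x} := by
  classical
  obtain ⟨η, hη⟩ : ∃ η : ℕ → ℝ, ∀ k, η k = 1 / ((k : ℝ) + 1) := ⟨_, fun _ => rfl⟩
  have hη0 : ∀ k, 0 < η k := fun k => by rw [hη]; positivity
  have hη1 : ∀ k, η k ≤ 1 := fun k => by
    rw [hη, div_le_one (by positivity)]
    simp
  have hηt : Tendsto η atTop (𝓝 0) := by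
    rw [funext hη]
    exact tendsto_one_div_add_atTop_nhds_zero_nat
  choose δ hδ H using fun k => exists_algebra (hη0 k) (hη1 k)
  choose N hN hNk using fun k => ((key_estimate hd hV gap (lt_min (hδ k) (hη0 k))).and
    (eventually_ge_atTop k)).exists
  obtain ⟨Φ, hΦ⟩ : ∃ Φ : ∀ n, ℕ → Module.End ℂ (Matrix (Fin (d n)) (Fin (d n)) ℂ),
      ∀ n k, Φ n k = phi (fun i => (V i).1 n) (N k) := ⟨_, fun _ _ => rfl⟩
  have hmix : ∀ n k, IsMix (Φ n k) := fun n k => hΦ n k ▸ isMix_phi (fun i => hV i n) _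
  let P : ℕ → ℕ → Prop := fun k n => ∀ j ∈ range (k + 1), ∀ y, ‖y‖ ≤ 1 →
    fr (Φ n k (Φ n j y) - Φ n j y) ≤ min (δ j) (η j) * Real.sqrt (d n)
  have hP : ∀ k, ∀ᶠ n in (U : Filter ℕ), P k n := fun k => by
    simp only [P, hΦ]
    rw [eventually_all_finset]
    exact fun j _ => hN j (N k)
  obtain ⟨k, hk, hPk⟩ := exists_diag hU P hP
  have hch : ∀ n, ∃ (m : ℕ) (A : StarSubalgebra ℂ (Matrix (Fin m) (Fin m) ℂ)), d n ≤ m ∧
      (P (k n) n → (m : ℝ) ≤ (1 + η (k n)) * d n ∧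
        (∀ a ∈ A, fr (Φ n (k n) (resize (d n) a) - resize (d n) a) ≤
          10 * ‖a‖ * Real.sqrt (η (k n) * d n)) ∧
        ∀ (x : Matrix (Fin m) (Fin m) ℂ) (C : ℝ), ‖x‖ ≤ C → ∃ a ∈ A, ‖a‖ ≤ 2 * C ∧
          fr (x - a) ≤ 30000000 * (Real.sqrt (2 * C * Real.sqrt (d n) *
            fr (Φ n (k n) (resize (d n) x) - resize (d n) x)) + C * Real.sqrt (η (k n) * d n))) := by
    intro n
    by_cases h : P (k n) n
    · obtain ⟨m, A, h1, h2⟩ := H (k n) (d n) (Φ n (k n)) (hmix _ _) (fun y hy =>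
        (h (k n) (self_mem_range_succ _) y hy).trans
          (mul_le_mul_of_nonneg_right (min_le_left _ _) (Real.sqrt_nonneg _)))
      exact ⟨m, A, h1, fun _ => h2⟩
    · exact ⟨d n, ⊤, le_rfl, fun h' => absurd h' h⟩
  choose m A hdm hA using hch
  have hm : ∀ n, 0 < m n := fun n => (hd n).trans_le (hdm n)
  have hd' : ∀ n, (0 : ℝ) < d n := fun n => by exact_mod_cast hd n
  have hdm' : ∀ n, (d n : ℝ) ≤ m n := fun n => by exact_mod_cast hdm n
  have hηk : Tendsto (fun n => η (k n)) U (𝓝 0) := hηt.comp hk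
  have h : Tendsto (fun n => (m n : ℝ) / d n) U (𝓝 1) := by
    refine tendsto_of_tendsto_of_tendsto_of_le_of_le' tendsto_const_nhds
      (by simpa using hηk.const_add 1) (Eventually.of_forall (fun n => ?_)) ?_
    · rw [le_div_iff₀ (hd' n), one_mul]
      exact hdm' n
    · filter_upwards [hPk] with n hn
      rw [div_le_iff₀ (hd' n)]
      exact (hA n hn).1
  have h' := ratio_inv h
  refine ⟨m, hm, h, A, ?_⟩
  ext x
  obtain ⟨a, rfl⟩ := mk_surj x
  constructor
  · intro hx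
    obtain ⟨C, hC⟩ := a.2
    have hC0 : 0 ≤ C := (norm_nonneg _).trans (hC 0)
    have h1 : ∀ i, Commute (Ultra.mk U (a.resize d)) (Ultra.mk U (V i)) := fun i => by
      have := commute_transport h' hm (hx i)
      rwa [transport_inv h h' hd, transport_mk] at this
    have h2 : Tendsto (fun n => norm2 (Φ n (k n) (resize (d n) (a.1 n)) - resize (d n) (a.1 n)))
        U (𝓝 0) := by
      rw [tendsto_order]
      refine ⟨fun c hc => Eventually.of_forall (fun n => hc.trans_le (norm2_nonneg _)),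
        fun c hc => ?_⟩
      obtain ⟨j, hj⟩ := ((hηt.mul_const C).eventually
        (gt_mem_nhds (show 0 * C < c / 2 by linarith))).exists
      filter_upwards [hPk, hk.eventually (eventually_ge_atTop j),
        (tendsto_phi_sub hV h1 (N j)).eventually
          (gt_mem_nhds (show 0 < c / 8 by positivity))] with n p1 p2 p3
      rw [← hΦ] at p3
      have t1 := (norm2_le_iff (hd n)).mp p3.le
      change fr (Φ n j (resize (d n) (a.1 n)) - resize (d n) (a.1 n)) ≤ _ at t1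
      have t2 := fr_le_scale (Φ n (k n) * Φ n j - Φ n j)
        (p1 j (mem_range.mpr (Nat.lt_succ_of_le p2))) (resize (d n) (a.1 n))
      have t3 : min (δ j) (η j) * Real.sqrt (d n) * ‖resize (d n) (a.1 n)‖ ≤
          η j * Real.sqrt (d n) * C :=
        mul_le_mul (mul_le_mul_of_nonneg_right (min_le_right _ _) (Real.sqrt_nonneg _))
          ((norm_resize_le _ _).trans (hC n)) (norm_nonneg _) (by have := hη0 j; positivity)
      have t4 := mul_le_mul_of_nonneg_right hj.le (Real.sqrt_nonneg (d n))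
      rw [LinearMap.sub_apply, Module.End.mul_apply] at t2
      refine lt_of_le_of_lt ((norm2_le_iff (hd n)).mpr ?_) (show 3 / 4 * c < c by linarith)
      generalize resize (d n) (a.1 n) = y at t1 t2 t3 ⊢
      have t5 := (hmix n (k n)).fr_le (Φ n j y - y)
      rw [map_sub, fr_sub_comm] at t5
      have t6 := fr_triangle (Φ n (k n) y) (Φ n (k n) (Φ n j y)) y
      have t7 := fr_triangle (Φ n (k n) (Φ n j y)) (Φ n j y) y
      linarith
    have h3 : ∀ n, ∃ a' ∈ A n, ‖a'‖ ≤ 2 * C ∧ (P (k n) n → fr (a.1 n - a') ≤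
        30000000 * (Real.sqrt (2 * C * Real.sqrt (d n) *
          fr (Φ n (k n) (resize (d n) (a.1 n)) - resize (d n) (a.1 n))) +
            C * Real.sqrt (η (k n) * d n))) := by
      intro n
      by_cases hn : P (k n) n
      · obtain ⟨a', p1, p2, p3⟩ := (hA n hn).2.2 (a.1 n) C (hC n)
        exact ⟨a', p1, p2, fun _ => p3⟩
      · exact ⟨0, zero_mem _, by simpa using hC0, fun h' => absurd h' hn⟩
    choose a' q1 q2 q3 using h3
    refine ⟨Subtype.mk a' ⟨2 * C, q2⟩, q1, Eq.symm (mk_eq_iff.mpr ?_)⟩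
    have t1 := (((h2.const_mul (2 * C)).sqrt).add (hηk.sqrt.const_mul C)).const_mul 30000000
    simp only [mul_zero, Real.sqrt_zero, add_zero] at t1
    refine squeeze_zero' (Eventually.of_forall (fun _ => norm2_nonneg _)) ?_ t1
    filter_upwards [hPk] with n hn
    rw [norm2_le_iff (hm n)]
    refine (q3 n hn).trans (le_trans (le_of_eq ?_) (mul_le_mul_of_nonneg_left
      (Real.sqrt_le_sqrt (hdm' n)) (by positivity)))
    have e : 2 * C * Real.sqrt (d n) *
        fr (Φ n (k n) (resize (d n) (a.1 n)) - resize (d n) (a.1 n)) =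
        2 * C * norm2 (Φ n (k n) (resize (d n) (a.1 n)) - resize (d n) (a.1 n)) * d n := by
      have := Real.sqrt_pos.mpr (hd' n)
      rw [norm2_eq]
      field_simp
      rw [Real.sq_sqrt (hd' n).le]
      ring
    rw [e, Real.sqrt_mul' _ (hd' n).le, Real.sqrt_mul' _ (hd' n).le]
    ring
  · rintro ⟨a', h1, h2⟩ i
    rw [← h2, ← transport_inv h' h hm (Ultra.mk U a'), transport_mk]
    apply commute_transport h hd
    obtain ⟨C, hC⟩ := a'.2
    have hC0 : 0 ≤ C := (norm_nonneg _).trans (hC 0)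
    apply Commute.symm
    rw [commute_mk_iff]
    have t1 := (((hηk.sqrt.const_mul 10).add hηk).const_mul (2 ^ (i + 1) * (4 * C ^ 2))).sqrt
    simp only [mul_zero, Real.sqrt_zero, add_zero] at t1
    refine squeeze_zero' (Eventually.of_forall (fun _ => norm2_nonneg _)) ?_ t1
    filter_upwards [hPk, hk.eventually (eventually_gt_atTop i)] with n hn hi
    rw [norm2_le_iff (hd n), ← Real.sqrt_mul' _ (hd' n).le]
    apply Real.le_sqrt_of_sq_le
    have t2 := fr_comm_le_phi (fun i => hV i n) (hi.trans_le (hNk (k n))) (resize (d n) (a'.1 n))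
    have t3 := (hA n hn).2.1 _ (h1 n)
    rw [← hΦ] at t2
    have t4 := fr_le_of_norm_le_right ((norm_resize_le (d n) (a'.1 n)).trans (hC n))
    rw [Fintype.card_fin] at t4
    have t5 : 1 / ((N (k n) : ℝ) + 1) ≤ η (k n) := by
      rw [hη]
      exact one_div_le_one_div_of_le (by positivity) (by exact_mod_cast Nat.succ_le_succ (hNk _))
    have t6 := mul_le_mul t5 t4 (fr_nonneg _) (hη0 _).le
    have t7 : 10 * ‖a'.entry n‖ * Real.sqrt (η (k n) * d n) ≤
        10 * C * (Real.sqrt (η (k n)) * Real.sqrt (d n)) := by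
      rw [Real.sqrt_mul' _ (hd' n).le]
      exact mul_le_mul_of_nonneg_right (mul_le_mul_of_nonneg_left (hC n) (by norm_num))
        (by positivity)
    have t8 := mul_le_mul t4 (add_le_add (t3.trans t7) t6)
      (add_nonneg (fr_nonneg _) (mul_nonneg (by positivity) (fr_nonneg _))) (by positivity)
    apply le_of_mul_le_mul_left _ (show 0 < (1 / 2 : ℝ) ^ (i + 1) by positivity)
    refine t2.trans ((mul_le_mul_of_nonneg_left t8 (by norm_num)).trans (le_of_eq ?_))
    have e := Real.mul_self_sqrt (hd' n).le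
    have e2 : (1 / 2 : ℝ) ^ (i + 1) * 2 ^ (i + 1) = 1 := by
      rw [← mul_pow]
      norm_num
    generalize Real.sqrt (d n) = r at e ⊢
    rw [← e]
    linear_combination (-(4 * C ^ 2 * (10 * Real.sqrt (η (k n)) + η (k n)) * (r * r))) * e2

/-- The weak spectral gap property makes the relative commutant internal. -/
theorem internal_of_gap {G : Type} [Group G] [Countable G] (hU : (U : Filter ℕ) ≤ cofinite)
    (hd : ∀ n, 0 < d n) (π : G →* unitary (Ultra U d))
    (gap : ∀ ε > 0, ∃ (F : Finset G) (δ : ℝ), 0 < δ ∧ ∀ a : BddSeq d,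
      (∀ n, opNorm (a.entry n) ≤ 1) →
      (∀ g ∈ F, unorm2 (Ultra.mk U a * (π g : Ultra U d) - (π g : Ultra U d) * Ultra.mk U a) < δ) →
      ∃ z : Ultra U d, (∀ g : G, Commute z (π g : Ultra U d)) ∧ unorm2 (Ultra.mk U a - z) < ε) :
    ∃ (m : ℕ → ℕ) (_ : ∀ n, 0 < m n) (h : Tendsto (fun n => (m n : ℝ) / d n) U (𝓝 1))
      (A : ∀ n, StarSubalgebra ℂ (Matrix (Fin (m n)) (Fin (m n)) ℂ)),
      {x : Ultra U m | ∀ g : G, Commute x (transport h (π g : Ultra U d))} =
        {x | ∃ a : BddSeq m, (∀ n, a.entry n ∈ A n) ∧ Ultra.mk U a = x} := by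
  classical
  obtain ⟨e, he⟩ := exists_surjective_nat G
  choose V hV hπ using fun g => exists_unitary_lift (π g)
  choose r hr using he
  obtain ⟨m, hm, h, A, hA⟩ := internal_aux hU hd (V := fun i => V (e i)) (fun i => hV (e i))
    (fun ε hε => by
      obtain ⟨F, δ, hδ, H⟩ := gap ε hε
      refine ⟨F.image r, δ, hδ, fun a ha h => ?_⟩
      obtain ⟨z, z1, z2⟩ := H a ha (fun g hg => by
        have := h (r g) (mem_image_of_mem r hg)
        rwa [hr, hπ] at this)
      exact ⟨z, fun i => hπ (e i) ▸ z1 (e i), z2⟩)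
  refine ⟨m, hm, h, A, Eq.trans ?_ hA⟩
  ext x
  simp only [Set.mem_ofPred_eq, hπ]
  exact ⟨fun h i => h (e i), fun h g => hr g ▸ h (r g)⟩

end Pool.Agent.Lib.MP_f81d8e_an.W
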